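import Mathlib

/-!
Helper file for MP_e95e88_co: cut-connectivity, edge counts and contractions in finite graphs.
-/

namespace E95

open Finset

noncomputable section

variable {V : Type} [DecidableEq V]

open scoped Classical in
/-- adjacency indicator -/
def ad (G : SimpleGraph V) (x y : V) : ℤ := if G.Adj x y then 1 else 0

omit [DecidableEq V] in
lemma ad_comm (G : SimpleGraph V) (x y : V) : ad G x y = ad G y x := by
  classical
  unfold ad; exact if_congr (G.adj_comm x y) rfl rfl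

omit [DecidableEq V] in
lemma ad_self (G : SimpleGraph V) (x : V) : ad G x x = 0 := by
  unfold ad; simp

omit [DecidableEq V] in
lemma ad_nonneg (G : SimpleGraph V) (x y : V) : 0 ≤ ad G x y := by
  unfold ad; split_ifs <;> simp

omit [DecidableEq V] in
lemma ad_le_one (G : SimpleGraph V) (x y : V) : ad G x y ≤ 1 := by
  unfold ad; split_ifs <;> simp

omit [DecidableEq V] in
lemma ad_of_adj {G : SimpleGraph V} {x y : V} (h : G.Adj x y) : ad G x y = 1 := by
  unfold ad; simp [h]

omit [DecidableEq V] in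
lemma ad_of_not {G : SimpleGraph V} {x y : V} (h : ¬ G.Adj x y) : ad G x y = 0 := by
  unfold ad; simp [h]

omit [DecidableEq V] in
lemma ad_congr {W : Type} {G : SimpleGraph V} {H : SimpleGraph W} {x y : V} {a b : W}
    (h : G.Adj x y ↔ H.Adj a b) : ad G x y = ad H a b := by
  by_cases h1 : G.Adj x y
  · rw [ad_of_adj h1, ad_of_adj (h.1 h1)]
  · rw [ad_of_not h1, ad_of_not (fun h2 => h1 (h.2 h2))]

omit [DecidableEq V] in
lemma ad_mono {G G' : SimpleGraph V} (h : G ≤ G') (x y : V) : ad G x y ≤ ad G' x y := by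
  by_cases h1 : G.Adj x y
  · rw [ad_of_adj h1, ad_of_adj (h h1)]
  · rw [ad_of_not h1]; exact ad_nonneg _ _ _

/-- degree into a set -/
def dg (G : SimpleGraph V) (S : Finset V) (v : V) : ℤ := ∑ y ∈ S, ad G v y

/-- twice the number of edges inside a set -/
def e2 (G : SimpleGraph V) (S : Finset V) : ℤ := ∑ x ∈ S, dg G S x

/-- twice the excess `e - 2 v + 2` of the graph induced on a set -/
def F2 (G : SimpleGraph V) (S : Finset V) : ℤ := e2 G S - 4 * (S.card : ℤ) + 4

omit [DecidableEq V] in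
lemma dg_nonneg (G : SimpleGraph V) (S : Finset V) (v : V) : 0 ≤ dg G S v :=
  Finset.sum_nonneg fun _ _ => ad_nonneg _ _ _

open scoped Classical in
omit [DecidableEq V] in
lemma dg_eq_card (G : SimpleGraph V) (S : Finset V) (v : V) :
    dg G S v = ((S.filter (fun y => G.Adj v y)).card : ℤ) := by
  unfold dg ad
  simp

lemma dg_insert (G : SimpleGraph V) {S : Finset V} {w : V} (hw : w ∉ S) (v : V) :
    dg G (insert w S) v = dg G S v + ad G v w := by
  unfold dg
  rw [Finset.sum_insert hw]; ring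

lemma dg_union (G : SimpleGraph V) {S T : Finset V} (h : Disjoint S T) (v : V) :
    dg G (S ∪ T) v = dg G S v + dg G T v := by
  unfold dg
  rw [Finset.sum_union h]

omit [DecidableEq V] in
lemma dg_mono (G : SimpleGraph V) {S T : Finset V} (h : S ⊆ T) (v : V) :
    dg G S v ≤ dg G T v := by
  unfold dg
  exact Finset.sum_le_sum_of_subset_of_nonneg h fun _ _ _ => ad_nonneg _ _ _

lemma e2_union (G : SimpleGraph V) {S T : Finset V} (h : Disjoint S T) :
    e2 G (S ∪ T) = e2 G S + e2 G T + 2 * ∑ x ∈ T, dg G S x := by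
  unfold e2
  rw [Finset.sum_union h]
  have h1 : ∑ x ∈ S, dg G (S ∪ T) x = ∑ x ∈ S, dg G S x + ∑ x ∈ S, dg G T x := by
    rw [← Finset.sum_add_distrib]; exact Finset.sum_congr rfl fun x _ => dg_union G h x
  have h2 : ∑ x ∈ T, dg G (S ∪ T) x = ∑ x ∈ T, dg G S x + ∑ x ∈ T, dg G T x := by
    rw [← Finset.sum_add_distrib]; exact Finset.sum_congr rfl fun x _ => dg_union G h x
  have h3 : ∑ x ∈ S, dg G T x = ∑ x ∈ T, dg G S x := by
    unfold dg
    rw [Finset.sum_comm]
    exact Finset.sum_congr rfl fun x _ => Finset.sum_congr rfl fun y _ => ad_comm _ _ _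
  rw [h1, h2, h3]; ring

lemma e2_insert (G : SimpleGraph V) {S : Finset V} {v : V} (hv : v ∉ S) :
    e2 G (insert v S) = e2 G S + 2 * dg G S v := by
  have h : Disjoint S {v} := by simpa using hv
  have := e2_union G h
  have h2 : S ∪ {v} = insert v S := by
    ext x; simp
  rw [h2] at this
  rw [this]
  have h3 : e2 G {v} = 0 := by simp [e2, dg, ad_self]
  rw [h3]; simp

lemma F2_insert (G : SimpleGraph V) {S : Finset V} {v : V} (hv : v ∉ S) :
    F2 G (insert v S) = F2 G S + 2 * dg G S v - 4 := by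
  unfold F2
  rw [e2_insert G hv, Finset.card_insert_of_notMem hv]
  push_cast; ring

omit [DecidableEq V] in
lemma e2_empty (G : SimpleGraph V) : e2 G ∅ = 0 := by simp [e2]

lemma e2_even (G : SimpleGraph V) (S : Finset V) : Even (e2 G S) := by
  induction S using Finset.induction_on with
  | empty => simp [e2_empty]
  | insert v S hv ih =>
    rw [e2_insert G hv]
    exact ih.add (even_two_mul _)

lemma F2_even (G : SimpleGraph V) (S : Finset V) : Even (F2 G S) := by
  unfold F2
  have h1 := e2_even G S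
  have h2 : Even (4 * (S.card : ℤ)) := ⟨2 * (S.card : ℤ), by ring⟩
  have h3 : Even (4 : ℤ) := ⟨2, by norm_num⟩
  exact (h1.sub h2).add h3

lemma F2_union (G : SimpleGraph V) {S T : Finset V} (h : Disjoint S T) :
    F2 G (S ∪ T) = F2 G S + F2 G T + 2 * (∑ x ∈ T, dg G S x) - 4 := by
  unfold F2
  rw [e2_union G h, Finset.card_union_of_disjoint h]
  push_cast; ring

lemma dg_self (G : SimpleGraph V) {S : Finset V} {v : V} (hv : v ∈ S) :
    dg G (S.erase v) v = dg G S v := by
  have h := dg_insert G (Finset.notMem_erase v S) v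
  rw [Finset.insert_erase hv, ad_self] at h
  linarith

lemma F2_erase (G : SimpleGraph V) {S : Finset V} {v : V} (hv : v ∈ S) :
    F2 G (S.erase v) = F2 G S - 2 * dg G S v + 4 := by
  have h := F2_insert G (Finset.notMem_erase v S)
  rw [Finset.insert_erase hv, dg_self G hv] at h
  linarith

omit [DecidableEq V] in
lemma F2_singleton (G : SimpleGraph V) (v : V) : F2 G {v} = 0 := by
  simp [F2, e2, dg, ad_self]

omit [DecidableEq V] in
lemma e2_mono {G G' : SimpleGraph V} (h : G ≤ G') (S : Finset V) : e2 G S ≤ e2 G' S :=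
  Finset.sum_le_sum fun _ _ => Finset.sum_le_sum fun _ _ => ad_mono h _ _

omit [DecidableEq V] in
lemma F2_mono {G G' : SimpleGraph V} (h : G ≤ G') (S : Finset V) : F2 G S ≤ F2 G' S := by
  unfold F2
  have := e2_mono h S
  linarith

/-! ### cut connectivity -/

/-- `S` is nonempty and every cut of `S` is crossed by an edge. -/
def Conn (G : SimpleGraph V) (S : Finset V) : Prop :=
  S.Nonempty ∧ ∀ T ⊆ S, T.Nonempty → T ≠ S → ∃ u ∈ T, ∃ v ∈ S, v ∉ T ∧ G.Adj u v

omit [DecidableEq V] in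
lemma Conn.mono {G G' : SimpleGraph V} (h : G ≤ G') {S : Finset V} (hS : Conn G S) :
    Conn G' S := by
  refine ⟨hS.1, fun T hT hn hne => ?_⟩
  obtain ⟨u, hu, v, hv, hvT, huv⟩ := hS.2 T hT hn hne
  exact ⟨u, hu, v, hv, hvT, h huv⟩

omit [DecidableEq V] in
lemma Conn.singleton (G : SimpleGraph V) (v : V) : Conn G {v} := by
  refine ⟨⟨v, by simp⟩, fun T hT hn hne => ?_⟩
  exfalso
  apply hne
  rcases Finset.subset_singleton_iff.1 hT with h | h
  · rw [h] at hn; simp at hn
  · exact h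

lemma Conn.insert {G : SimpleGraph V} {S : Finset V} (hS : Conn G S) {u v : V} (hu : u ∈ S)
    (huv : G.Adj u v) : Conn G (insert v S) := by
  by_cases hvS : v ∈ S
  · rwa [Finset.insert_eq_of_mem hvS]
  refine ⟨⟨v, by simp⟩, fun T hT hn hne => ?_⟩
  by_cases hvT : v ∈ T
  · -- T contains v
    by_cases h2 : (T.erase v) = S
    · exfalso; apply hne; rw [← h2, Finset.insert_erase hvT]
    by_cases h3 : (T.erase v).Nonempty
    · obtain ⟨a, ha, b, hb, hbT, hab⟩ := hS.2 (T.erase v) (by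
        intro x hx
        have hx1 := Finset.mem_of_mem_erase hx
        have hx2 := Finset.ne_of_mem_erase hx
        rcases Finset.mem_insert.1 (hT hx1) with h | h
        · exact absurd h hx2
        · exact h) h3 h2
      refine ⟨a, Finset.mem_of_mem_erase ha, b, Finset.mem_insert_of_mem hb, ?_, hab⟩
      intro hbT'
      apply hbT
      rw [Finset.mem_erase]
      refine ⟨?_, hbT'⟩
      rintro rfl
      exact hvS hb
    · rw [Finset.not_nonempty_iff_eq_empty] at h3
      refine ⟨v, hvT, u, Finset.mem_insert_of_mem hu, ?_, huv.symm⟩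
      intro huT
      have : u ∈ T.erase v := Finset.mem_erase.2 ⟨by rintro rfl; exact hvS hu, huT⟩
      rw [h3] at this; simp at this
  · have hTS : T ⊆ S := by
      intro x hx
      rcases Finset.mem_insert.1 (hT hx) with h | h
      · exact absurd (h ▸ hx) hvT
      · exact h
    by_cases h2 : T = S
    · exact ⟨u, by rw [h2]; exact hu, v, by simp, hvT, huv⟩
    · obtain ⟨a, ha, b, hb, hbT, hab⟩ := hS.2 T hTS hn h2
      exact ⟨a, ha, b, Finset.mem_insert_of_mem hb, hbT, hab⟩

/-- union of connected branch sets over a connected set -/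
lemma Conn.biUnion {W : Type} [DecidableEq W] {G : SimpleGraph V} {H : SimpleGraph W}
    {T : Finset W} (hT : Conn H T) {C : W → Finset V} (hC : ∀ w ∈ T, Conn G (C w))
    (hadj : ∀ x ∈ T, ∀ y ∈ T, H.Adj x y → ∃ u ∈ C x, ∃ v ∈ C y, G.Adj u v) :
    Conn G (T.biUnion C) := by
  classical
  constructor
  · obtain ⟨w, hw⟩ := hT.1
    obtain ⟨v, hv⟩ := (hC w hw).1
    exact ⟨v, Finset.mem_biUnion.2 ⟨w, hw, hv⟩⟩
  intro U hU hn hne
  by_cases h : ∃ w ∈ T, (∃ x ∈ C w, x ∈ U) ∧ ∃ x ∈ C w, x ∉ U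
  · obtain ⟨w, hw, ⟨x, hx, hxU⟩, z, hz, hzU⟩ := h
    obtain ⟨a, ha, b, hb, hbT, hab⟩ := (hC w hw).2 ((C w).filter (· ∈ U))
      (Finset.filter_subset _ _) ⟨x, by simp [hx, hxU]⟩ (by
        intro hE
        have : z ∈ (C w).filter (· ∈ U) := by rw [hE]; exact hz
        simp [hzU] at this)
    refine ⟨a, (Finset.mem_filter.1 ha).2, b, Finset.mem_biUnion.2 ⟨w, hw, hb⟩, ?_, hab⟩
    intro hbU
    exact hbT (Finset.mem_filter.2 ⟨hb, hbU⟩)
  · push Not at h
    -- each `C w` is inside or outside `U`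
    let T' := T.filter (fun w => C w ⊆ U)
    have hT' : T' ⊆ T := Finset.filter_subset _ _
    have hn' : T'.Nonempty := by
      obtain ⟨x, hx⟩ := hn
      obtain ⟨w, hw, hxw⟩ := Finset.mem_biUnion.1 (hU hx)
      exact ⟨w, Finset.mem_filter.2 ⟨hw, fun y hy => h w hw ⟨x, hxw, hx⟩ y hy⟩⟩
    have hne' : T' ≠ T := by
      intro hE
      apply hne
      apply Finset.Subset.antisymm hU
      intro x hx
      obtain ⟨w, hw, hxw⟩ := Finset.mem_biUnion.1 hx
      rw [← hE] at hw
      exact (Finset.mem_filter.1 hw).2 hxw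
    obtain ⟨a, ha, b, hb, hbT, hab⟩ := hT.2 T' hT' hn' hne'
    obtain ⟨u, hu, v, hv, huv⟩ := hadj a (hT' ha) b hb hab
    refine ⟨u, (Finset.mem_filter.1 ha).2 hu, v, Finset.mem_biUnion.2 ⟨b, hb, hv⟩, ?_, huv⟩
    intro hvU
    apply hbT
    exact Finset.mem_filter.2 ⟨hb, fun y hy => h b hb ⟨v, hv, hvU⟩ y hy⟩

/-! ### families of branch sets -/

/-- the graph of a family of sets: two indices are adjacent if there is an edge between
their sets -/
def QB {ι : Type} (G : SimpleGraph V) (B : ι → Finset V) : SimpleGraph ι where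
  Adj i j := i ≠ j ∧ ∃ u ∈ B i, ∃ v ∈ B j, G.Adj u v
  symm := ⟨by
    intro i j h
    obtain ⟨h1, u, hu, v, hv, huv⟩ := h
    exact ⟨h1.symm, v, hv, u, hu, huv.symm⟩⟩
  loopless := ⟨by intro i h; exact h.1 rfl⟩

/-- a family of disjoint connected sets inside `S` -/
structure Mod {ι : Type} (G : SimpleGraph V) (S : Finset V) (B : ι → Finset V) : Prop where
  sub : ∀ i, B i ⊆ S
  conn : ∀ i, Conn G (B i)
  disj : ∀ i j, i ≠ j → Disjoint (B i) (B j)

omit [DecidableEq V] in
lemma Mod.eq_of_mem {ι : Type} {G : SimpleGraph V} {S : Finset V} {B : ι → Finset V}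
    (h : Mod G S B) {i j : ι} {x : V} (hi : x ∈ B i) (hj : x ∈ B j) : i = j := by
  by_contra hne
  exact Finset.disjoint_left.1 (h.disj i j hne) hi hj

/-- excess of the graph of a family -/
def Fm {ι : Type} [Fintype ι] (G : SimpleGraph V) (B : ι → Finset V) : ℤ :=
  F2 (QB G B) Finset.univ

/-- existence of a small model with large excess -/
def Good (G : SimpleGraph V) (S : Finset V) (k : ℕ) : Prop :=
  ∃ (ι : Type) (_ : Fintype ι) (_ : Nonempty ι) (B : ι → Finset V),
    Fintype.card ι ≤ 5 * k + 1 ∧ Mod G S B ∧ 2 * (k : ℤ) ≤ Fm G B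

omit [DecidableEq V] in
lemma Good.mono_set {G : SimpleGraph V} {S T : Finset V} {k : ℕ} (h : Good G S k)
    (hST : S ⊆ T) : Good G T k := by
  obtain ⟨ι, i1, i2, B, h1, h2, h3⟩ := h
  exact ⟨ι, i1, i2, B, h1, ⟨fun i => (h2.sub i).trans hST, h2.conn, h2.disj⟩, h3⟩

omit [DecidableEq V] in
lemma QB_mono {ι : Type} {G G' : SimpleGraph V} (h : G ≤ G') (B : ι → Finset V) :
    QB G B ≤ QB G' B := by
  intro i j hij
  obtain ⟨h1, u, hu, v, hv, huv⟩ := hij
  exact ⟨h1, u, hu, v, hv, h huv⟩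

omit [DecidableEq V] in
lemma QB_mono_fam {ι : Type} (G : SimpleGraph V) {B B' : ι → Finset V}
    (h : ∀ i, B i ⊆ B' i) : QB G B ≤ QB G B' := by
  intro i j hij
  obtain ⟨h1, u, hu, v, hv, huv⟩ := hij
  exact ⟨h1, u, h i hu, v, h j hv, huv⟩

omit [DecidableEq V] in
lemma Good.mono_graph {G G' : SimpleGraph V} {S : Finset V} {k : ℕ} (h : Good G S k)
    (hG : G ≤ G') : Good G' S k := by
  obtain ⟨ι, i1, i2, B, h1, h2, h3⟩ := h
  refine ⟨ι, i1, i2, B, h1, ⟨h2.sub, fun i => (h2.conn i).mono hG, h2.disj⟩, ?_⟩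
  exact h3.trans (F2_mono (QB_mono hG B) _)

/-- composition of families -/
lemma Mod.comp {ι W : Type} [DecidableEq W] {G : SimpleGraph V} {S : Finset V}
    {S' : Finset W} {C : W → Finset V} {B : ι → Finset W}
    (hC : ∀ w ∈ S', Conn G (C w)) (hCS : ∀ w ∈ S', C w ⊆ S)
    (hCd : ∀ w ∈ S', ∀ w' ∈ S', w ≠ w' → Disjoint (C w) (C w'))
    (hB : Mod (QB G C) S' B) :
    Mod G S (fun i => (B i).biUnion C) ∧
      QB (QB G C) B ≤ QB G (fun i => (B i).biUnion C) := by
  refine ⟨⟨?_, ?_, ?_⟩, ?_⟩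
  · intro i x hx
    obtain ⟨w, hw, hxw⟩ := Finset.mem_biUnion.1 hx
    exact hCS w (hB.sub i hw) hxw
  · intro i
    refine Conn.biUnion (hB.conn i) (fun w hw => hC w (hB.sub i hw)) ?_
    intro x _ y _ hxy
    exact hxy.2
  · intro i j hij
    rw [Finset.disjoint_left]
    intro x hx hx'
    obtain ⟨w, hw, hxw⟩ := Finset.mem_biUnion.1 hx
    obtain ⟨w', hw', hxw'⟩ := Finset.mem_biUnion.1 hx'
    by_cases hww : w = w'
    · subst hww
      exact Finset.disjoint_left.1 (hB.disj i j hij) hw hw'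
    · exact Finset.disjoint_left.1 (hCd w (hB.sub i hw) w' (hB.sub j hw') hww) hxw hxw'
  · intro i j hij
    obtain ⟨h1, u, hu, v, hv, huv⟩ := hij
    obtain ⟨_, a, ha, b, hb, hab⟩ := huv
    exact ⟨h1, a, Finset.mem_biUnion.2 ⟨u, hu, ha⟩, b, Finset.mem_biUnion.2 ⟨v, hv, hb⟩, hab⟩

/-! ### contraction of one set -/

/-- the family describing the contraction of `Y` to `y0` -/
def cf (Y : Finset V) (y0 : V) (v : V) : Finset V :=
  if v = y0 then Y else if v ∈ Y then ∅ else {v}

/-- contraction of `Y` to the vertex `y0 ∈ Y` -/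
def Con (G : SimpleGraph V) (Y : Finset V) (y0 : V) : SimpleGraph V := QB G (cf Y y0)

lemma cf_self (Y : Finset V) (y0 : V) : cf Y y0 y0 = Y := by simp [cf]

lemma cf_out {Y : Finset V} {y0 v : V} (hy0 : y0 ∈ Y) (hv : v ∉ Y) : cf Y y0 v = {v} := by
  have : v ≠ y0 := by rintro rfl; exact hv hy0
  simp [cf, this, hv]

lemma Con_adj_out {G : SimpleGraph V} {Y : Finset V} {y0 u v : V} (hy0 : y0 ∈ Y)
    (hu : u ∉ Y) (hv : v ∉ Y) : (Con G Y y0).Adj u v ↔ G.Adj u v := by
  unfold Con QB
  simp only [cf_out hy0 hu, cf_out hy0 hv, Finset.mem_singleton]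
  constructor
  · rintro ⟨_, a, rfl, b, rfl, h⟩; exact h
  · intro h; exact ⟨h.ne, u, rfl, v, rfl, h⟩

lemma Con_adj_in {G : SimpleGraph V} {Y : Finset V} {y0 v : V} (hy0 : y0 ∈ Y)
    (hv : v ∉ Y) : (Con G Y y0).Adj y0 v ↔ ∃ u ∈ Y, G.Adj v u := by
  have hne : y0 ≠ v := by rintro rfl; exact hv hy0
  unfold Con QB
  simp only [cf_out hy0 hv, cf_self, Finset.mem_singleton]
  constructor
  · rintro ⟨_, a, ha, b, rfl, h⟩; exact ⟨a, ha, h.symm⟩
  · rintro ⟨u, hu, h⟩; exact ⟨hne, u, hu, v, rfl, h.symm⟩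

open scoped Classical in
/-- indicator of having a neighbour in `Y` -/
def tch (G : SimpleGraph V) (Y : Finset V) (v : V) : ℤ := if ∃ u ∈ Y, G.Adj v u then 1 else 0

omit [DecidableEq V] in
lemma tch_le (G : SimpleGraph V) (Y : Finset V) (v : V) : tch G Y v ≤ dg G Y v := by
  unfold tch
  split_ifs with h
  · obtain ⟨u, hu, huv⟩ := h
    have : ad G v u ≤ dg G Y v := by
      unfold dg
      exact Finset.single_le_sum (f := fun y => ad G v y) (fun y _ => ad_nonneg _ _ _) hu
    rw [ad_of_adj huv] at this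
    exact this
  · exact dg_nonneg _ _ _

lemma card_contract {S Y : Finset V} {y0 : V} (hY : Y ⊆ S) (hy0 : y0 ∈ Y) :
    (insert y0 (S \ Y)).card + Y.card = S.card + 1 := by
  rw [Finset.card_insert_of_notMem (by simp [hy0])]
  have := Finset.card_sdiff_add_card_eq_card hY
  omega

/-- contraction formula -/
lemma F2_contract (G : SimpleGraph V) {S Y : Finset V} {y0 : V} (hY : Y ⊆ S) (hy0 : y0 ∈ Y) :
    F2 (Con G Y y0) (insert y0 (S \ Y)) =
      F2 G S - F2 G Y - 2 * ∑ x ∈ S \ Y, (dg G Y x - tch G Y x) := by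
  have hd : Disjoint Y (S \ Y) := Finset.disjoint_sdiff
  have hun : Y ∪ (S \ Y) = S := by
    ext x; simp only [Finset.mem_union, Finset.mem_sdiff]
    constructor
    · rintro (h | h)
      · exact hY h
      · exact h.1
    · intro h; by_cases hx : x ∈ Y
      · exact Or.inl hx
      · exact Or.inr ⟨h, hx⟩
  have h1 := e2_union G hd
  rw [hun] at h1
  have hni : y0 ∉ S \ Y := by simp [hy0]
  have h2 := e2_insert (Con G Y y0) hni
  have h3 : e2 (Con G Y y0) (S \ Y) = e2 G (S \ Y) := by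
    unfold e2 dg
    apply Finset.sum_congr rfl
    intro x hx
    apply Finset.sum_congr rfl
    intro y hy
    unfold ad
    classical
    exact if_congr (Con_adj_out hy0 (Finset.mem_sdiff.1 hx).2 (Finset.mem_sdiff.1 hy).2) rfl rfl
  have h4 : dg (Con G Y y0) (S \ Y) y0 = ∑ x ∈ S \ Y, tch G Y x := by
    unfold dg
    apply Finset.sum_congr rfl
    intro x hx
    unfold ad tch
    classical
    exact if_congr (Con_adj_in hy0 (Finset.mem_sdiff.1 hx).2) rfl rfl
  have hc := card_contract hY hy0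
  have hc' : ((insert y0 (S \ Y)).card : ℤ) + Y.card = S.card + 1 := by exact_mod_cast hc
  unfold F2
  rw [h2, h3, h4, h1, Finset.sum_sub_distrib]
  linarith

/-- a good contraction gives a good graph -/
lemma Good.of_contract {G : SimpleGraph V} {S Y : Finset V} {y0 : V} {k : ℕ} (hY : Y ⊆ S)
    (hy0 : y0 ∈ Y) (hc : Conn G Y) (h : Good (Con G Y y0) (insert y0 (S \ Y)) k) :
    Good G S k := by
  obtain ⟨ι, i1, i2, B, h1, h2, h3⟩ := h
  have hkey := Mod.comp (G := G) (S := S) (S' := insert y0 (S \ Y)) (C := cf Y y0) (B := B)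
    (by
      intro w hw
      rcases Finset.mem_insert.1 hw with rfl | hw
      · rw [cf_self]; exact hc
      · rw [cf_out hy0 (Finset.mem_sdiff.1 hw).2]; exact Conn.singleton _ _)
    (by
      intro w hw
      rcases Finset.mem_insert.1 hw with rfl | hw
      · rw [cf_self]; exact hY
      · rw [cf_out hy0 (Finset.mem_sdiff.1 hw).2]
        simpa using (Finset.mem_sdiff.1 hw).1)
    (by
      intro w hw w' hw' hne
      rcases Finset.mem_insert.1 hw with h1 | hw
      · rcases Finset.mem_insert.1 hw' with h2 | hw'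
        · exact absurd (h1.trans h2.symm) hne
        · rw [h1, cf_self, cf_out hy0 (Finset.mem_sdiff.1 hw').2]
          simpa using (Finset.mem_sdiff.1 hw').2
      · rcases Finset.mem_insert.1 hw' with h2 | hw'
        · rw [h2, cf_self, cf_out hy0 (Finset.mem_sdiff.1 hw).2]
          simpa using (Finset.mem_sdiff.1 hw).2
        · rw [cf_out hy0 (Finset.mem_sdiff.1 hw).2, cf_out hy0 (Finset.mem_sdiff.1 hw').2]
          simpa using hne)
    h2
  exact ⟨ι, i1, i2, _, h1, hkey.1, h3.trans (F2_mono hkey.2 _)⟩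

end

end E95
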