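import Pool.Agent.E95.Minor

/-!
Helper file for MP_e95e88_co: copies of a graph glued at one vertex.
-/

namespace E95

open Finset

noncomputable section

/-- `t` copies of `H` with their vertices `0` identified -/
def Ch (t : ℕ) {m : ℕ} (H : SimpleGraph (Fin (m + 1))) :
    SimpleGraph (Option (Fin t × Fin m)) where
  Adj x y := match x, y with
    | none, none => False
    | none, some q => H.Adj 0 q.2.succ
    | some p, none => H.Adj p.2.succ 0
    | some p, some q => p.1 = q.1 ∧ H.Adj p.2.succ q.2.succ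
  symm := ⟨by
    rintro (_ | p) (_ | q) h
    · exact h
    · exact SimpleGraph.Adj.symm h
    · exact SimpleGraph.Adj.symm h
    · exact ⟨h.1.symm, h.2.symm⟩⟩
  loopless := ⟨by
    rintro (_ | p) h
    · exact h
    · exact h.2.ne rfl⟩

/-- retraction to the copy `c` -/
def rc (t m : ℕ) (c : Fin t) : Option (Fin t × Fin m) → Fin (m + 1)
  | none => 0
  | some p => if p.1 = c then p.2.succ else 0

lemma rc_hom (t : ℕ) {m : ℕ} (H : SimpleGraph (Fin (m + 1))) (c : Fin t)
    (x y : Option (Fin t × Fin m)) (h : (Ch t H).Adj x y) :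
    rc t m c x = rc t m c y ∨ H.Adj (rc t m c x) (rc t m c y) := by
  rcases x with _ | p <;> rcases y with _ | q
  · exact absurd h (fun h => h)
  · have h' : H.Adj 0 q.2.succ := h
    by_cases hq : q.1 = c
    · right; simpa [rc, hq] using h'
    · left; simp [rc, hq]
  · have h' : H.Adj p.2.succ 0 := h
    by_cases hp : p.1 = c
    · right; simpa [rc, hp] using h'
    · left; simp [rc, hp]
  · have h' : p.1 = q.1 ∧ H.Adj p.2.succ q.2.succ := h
    by_cases hp : p.1 = c
    · right
      have hq : q.1 = c := h'.1 ▸ hp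
      simpa [rc, hp, hq] using h'.2
    · left
      have hq : q.1 ≠ c := h'.1 ▸ hp
      simp [rc, hp, hq]

/-- lying in copy `c` away from the root -/
def inC {t m : ℕ} (c : Fin t) (x : Option (Fin t × Fin m)) : Prop :=
  ∃ w, x = some (c, w)

lemma inC_adj {t m : ℕ} {H : SimpleGraph (Fin (m + 1))} {c : Fin t}
    {x y : Option (Fin t × Fin m)} (hx : inC c x) (h : (Ch t H).Adj x y) (hy : y ≠ none) :
    inC c y := by
  obtain ⟨w, rfl⟩ := hx
  rcases y with _ | q
  · exact absurd rfl hy
  · have h' : c = q.1 ∧ H.Adj w.succ q.2.succ := h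
    exact ⟨q.2, by rw [h'.1]⟩

lemma branch_copy {t m : ℕ} {H : SimpleGraph (Fin (m + 1))}
    {S : Set (Option (Fin t × Fin m))} (hS : CSet (Ch t H) S) (hn : none ∉ S) :
    ∃ c, ∀ x ∈ S, inC c x := by
  obtain ⟨x0, hx0⟩ := hS.1
  rcases x0 with _ | p
  · exact absurd hx0 hn
  refine ⟨p.1, ?_⟩
  by_contra hcon
  push Not at hcon
  obtain ⟨z, hz, hzc⟩ := hcon
  obtain ⟨u, hu, v, hv, hvT, huv⟩ := hS.2 {x | x ∈ S ∧ inC p.1 x} (fun x hx => hx.1)
    ⟨some p, hx0, p.2, rfl⟩ (by
      intro hE
      have : z ∈ {x | x ∈ S ∧ inC p.1 x} := by rw [hE]; exact hz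
      exact hzc this.2)
  exact hvT ⟨hv, inC_adj hu.2 huv (by rintro rfl; exact hn hv)⟩

/-- a 2-connected minor of the glued graph is a minor of one copy -/
lemma minor_of_chain {t m n : ℕ} {H : SimpleGraph (Fin (m + 1))}
    {X : SimpleGraph (Fin (n + 1))} (hX : TwoConnected X) (h : IsMinor X (Ch t H)) :
    IsMinor X H := by
  rw [IsMinor_iff] at h
  obtain ⟨B, hB1, hB2, hB3⟩ := h
  obtain ⟨h3, hconn, hdel⟩ := hX
  let D : Set (Fin (n + 1)) := {w | none ∉ B w}
  have hD : CSet X D := by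
    by_cases hex : ∃ w0, none ∈ B w0
    · obtain ⟨w0, hw0⟩ := hex
      have hDE : D = {w | w ≠ w0} := by
        ext w
        constructor
        · rintro hw rfl; exact hw hw0
        · intro hw hnone
          exact Set.disjoint_left.1 (hB2 w w0 hw) hnone hw0
      rw [hDE, CSet_iff]
      exact hdel w0
    · push Not at hex
      have hDE : D = Set.univ := by
        ext w; simp only [Set.mem_univ, iff_true]; exact hex w
      rw [hDE, CSet_univ]
      exact hconn
  -- the common copy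
  obtain ⟨c, hc⟩ : ∃ c, ∀ w ∈ D, ∀ x ∈ B w, inC c x := by
    obtain ⟨w1, hw1⟩ := hD.1
    obtain ⟨c, hc⟩ := branch_copy (hB1 w1) hw1
    refine ⟨c, ?_⟩
    by_contra hcon
    push Not at hcon
    obtain ⟨w2, hw2, x2, hx2, hx2c⟩ := hcon
    obtain ⟨u, hu, v, hv, hvT, huv⟩ := hD.2 {w | w ∈ D ∧ ∀ x ∈ B w, inC c x}
      (fun w hw => hw.1) ⟨w1, hw1, hc⟩ (by
        intro hE
        have : w2 ∈ {w | w ∈ D ∧ ∀ x ∈ B w, inC c x} := by rw [hE]; exact hw2
        exact hx2c (this.2 x2 hx2))
    apply hvT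
    refine ⟨hv, ?_⟩
    obtain ⟨x, hx, y, hy, hxy⟩ := hB3 u v huv
    have hyc : inC c y := inC_adj (hu.2 x hx) hxy (by rintro rfl; exact hv hy)
    obtain ⟨c', hc'⟩ := branch_copy (hB1 v) hv
    have : c' = c := by
      obtain ⟨a, ha⟩ := hyc
      obtain ⟨b, hb⟩ := hc' y hy
      rw [ha] at hb
      simpa using congrArg (Option.map Prod.fst) hb.symm
    rw [← this]; exact hc'
  -- images are disjoint
  have hkey : ∀ w w', w ≠ w' → w ∈ D → ∀ x ∈ B w, ∀ y ∈ B w', rc t m c x ≠ rc t m c y := by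
    intro w w' hne hw x hx y hy hE
    obtain ⟨a, rfl⟩ := hc w hw x hx
    rcases y with _ | q
    · simp only [rc, if_true] at hE
      exact Fin.succ_ne_zero _ hE
    · simp only [rc, if_true] at hE
      by_cases hq : q.1 = c
      · rw [if_pos hq] at hE
        have ha : a = q.2 := Fin.succ_injective _ hE
        have : (some (c, a) : Option (Fin t × Fin m)) = some q := by
          rw [ha, ← hq]
        rw [this] at hx
        exact Set.disjoint_left.1 (hB2 w w' hne) hx hy
      · rw [if_neg hq] at hE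
        exact Fin.succ_ne_zero _ hE
  have hkey2 : ∀ w w', w ≠ w' → ∀ x ∈ B w, ∀ y ∈ B w', rc t m c x ≠ rc t m c y := by
    intro w w' hne x hx y hy
    by_cases hw : w ∈ D
    · exact hkey w w' hne hw x hx y hy
    · by_cases hw' : w' ∈ D
      · exact (hkey w' w hne.symm hw' y hy x hx).symm
      · exfalso
        have h1 : none ∈ B w := by
          by_contra h; exact hw h
        have h2 : none ∈ B w' := by
          by_contra h; exact hw' h
        exact Set.disjoint_left.1 (hB2 w w' hne) h1 h2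
  rw [IsMinor_iff]
  refine ⟨fun w => rc t m c '' B w, ?_, ?_, ?_⟩
  · intro w
    exact (hB1 w).image _ (rc_hom t H c)
  · intro w w' hne
    rw [Set.disjoint_left]
    rintro _ ⟨x, hx, rfl⟩ ⟨y, hy, hE⟩
    exact hkey2 w w' hne x hx y hy hE.symm
  · intro w w' hww
    obtain ⟨x, hx, y, hy, hxy⟩ := hB3 w w' hww
    refine ⟨_, ⟨x, hx, rfl⟩, _, ⟨y, hy, rfl⟩, ?_⟩
    rcases rc_hom t H c x y hxy with h | h
    · exact absurd h (hkey2 w w' hww.ne x hx y hy)
    · exact h

/-- all minors of the glued graph are in an addable minor-closed class containing the copies -/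
lemma chain_mem {A : GraphClass} (hmc : MinorClosed A) (hadd : Addable A) {t m : ℕ}
    {H : SimpleGraph (Fin (m + 1))} (hH : A m H) {n : ℕ} {X : SimpleGraph (Fin (n + 1))}
    (hX : IsMinor X (Ch t H)) : A n X := by
  by_contra hcon
  obtain ⟨l, Y, hY, hYex⟩ := exists_excluded (A := A) (Ch t H) n (e2 X univ).toNat X hX hcon (by
    rw [Int.toNat_of_nonneg]
    exact Finset.sum_nonneg fun _ _ => dg_nonneg _ _ _)
  exact hYex.1 (hmc _ _ _ _ hH (minor_of_chain (hadd _ _ hYex) hY))

lemma e2_Ch (t : ℕ) {m : ℕ} (H : SimpleGraph (Fin (m + 1))) :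
    e2 (Ch t H) univ = t * e2 H univ := by
  unfold e2 dg
  have h1 : ∀ q : Fin t × Fin m, ad (Ch t H) none (some q) = ad H 0 q.2.succ :=
    fun q => ad_congr Iff.rfl
  have h2 : ∀ q : Fin t × Fin m, ad (Ch t H) (some q) none = ad H q.2.succ 0 :=
    fun q => ad_congr Iff.rfl
  have h3 : ∀ p q : Fin t × Fin m, ad (Ch t H) (some p) (some q) =
      if p.1 = q.1 then ad H p.2.succ q.2.succ else 0 := by
    intro p q
    by_cases h : p.1 = q.1
    · rw [if_pos h]
      exact ad_congr ⟨fun h' => h'.2, fun h' => ⟨h, h'⟩⟩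
    · rw [if_neg h]
      exact ad_of_not fun h' => h h'.1
  simp only [Fintype.sum_option, Fin.sum_univ_succ, ad_self, h1, h2, h3, zero_add,
    Fintype.sum_prod_type, Finset.sum_add_distrib]
  simp only [Finset.sum_const, Finset.card_univ, Fintype.card_fin, nsmul_eq_mul]
  have h4 : ∀ (c : Fin t), (∑ w : Fin m, ∑ c' : Fin t, ∑ w' : Fin m,
      (if c = c' then ad H w.succ w'.succ else 0)) = ∑ w : Fin m, ∑ w' : Fin m,
        ad H w.succ w'.succ := by
    intro c
    apply Finset.sum_congr rfl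
    intro w _
    rw [Finset.sum_eq_single c]
    · simp
    · intro b _ hb
      simp [Ne.symm hb]
    · intro h; exact absurd (Finset.mem_univ c) h
  simp only [h4, Finset.sum_const, Finset.card_univ, Fintype.card_fin, nsmul_eq_mul]
  ring

/-- the glued graph on `Fin` -/
lemma exists_chain (t : ℕ) {m : ℕ} (H : SimpleGraph (Fin (m + 1))) :
    ∃ G : SimpleGraph (Fin (t * m + 1)), Nonempty (G ≃g Ch t H) ∧
      e2 G univ = t * e2 H univ := by
  have hcard : Fintype.card (Option (Fin t × Fin m)) = t * m + 1 := by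
    simp [Fintype.card_option, Fintype.card_prod]
  let e : Fin (t * m + 1) ≃ Option (Fin t × Fin m) := (Fintype.equivFinOfCardEq hcard).symm
  refine ⟨(Ch t H).comap e, ⟨SimpleGraph.Iso.comap e _⟩, ?_⟩
  rw [e2_iso (SimpleGraph.Iso.comap e (Ch t H)), e2_Ch]

end

end E95
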