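import Pool.Agent.E95.Chain

/-!
Helper file for MP_e95e88_co: the two classes, and the final bounds.
-/

namespace E95

open Finset

noncomputable section

/-! ### minors with one vertex less -/

/-- delete `v` after giving its neighbours to `u` -/
def mg {n : ℕ} (G : SimpleGraph (Fin n)) (u v : Fin n) : SimpleGraph (Fin n) where
  Adj x y := x ≠ y ∧ (G.Adj x y ∨ (x = u ∧ G.Adj v y) ∨ (y = u ∧ G.Adj v x))
  symm := ⟨by
    rintro x y ⟨h1, h2⟩
    refine ⟨h1.symm, ?_⟩
    rcases h2 with h | h | h
    · exact Or.inl h.symm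
    · exact Or.inr (Or.inr h)
    · exact Or.inr (Or.inl h)⟩
  loopless := ⟨fun x h => h.1 rfl⟩

lemma one_less {n : ℕ} {H : SimpleGraph (Fin (n + 1))} {G : SimpleGraph (Fin (n + 2))}
    (h : IsMinor H G) : ∃ u v, (u = v ∨ G.Adj u v) ∧
      e2 H univ ≤ e2 (mg G u v) (univ.erase v) := by
  obtain ⟨B, π, h1, h2, h3, h4, hinj⟩ := h.reps
  -- the missing vertex
  obtain ⟨v, hv⟩ : ∃ v, ∀ i, π i ≠ v := by
    by_contra hcon
    push Not at hcon
    have := Fintype.card_le_of_surjective π hcon
    simp at this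
  have himg : (univ.map ⟨π, hinj⟩ : Finset (Fin (n + 2))) = univ.erase v := by
    apply Finset.eq_of_subset_of_card_le
    · intro x hx
      rw [Finset.mem_map] at hx
      obtain ⟨i, _, rfl⟩ := hx
      exact Finset.mem_erase.2 ⟨hv i, Finset.mem_univ _⟩
    · rw [Finset.card_map, Finset.card_erase_of_mem (Finset.mem_univ _)]
      simp
  have hcov : ∀ x, x ≠ v → ∃ i, x = π i := by
    intro x hx
    have : x ∈ (univ.map ⟨π, hinj⟩ : Finset (Fin (n + 2))) := by
      rw [himg]; exact Finset.mem_erase.2 ⟨hx, Finset.mem_univ _⟩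
    rw [Finset.mem_map] at this
    obtain ⟨i, _, hi⟩ := this
    exact ⟨i, hi.symm⟩
  have hB : ∀ i x, x ∈ B i → x = π i ∨ x = v := by
    intro i x hx
    by_cases hxv : x = v
    · exact Or.inr hxv
    · obtain ⟨j, rfl⟩ := hcov x hxv
      left
      by_contra hne
      have hij : i ≠ j := by rintro rfl; exact hne rfl
      exact Set.disjoint_left.1 (h2 i j hij) hx (h4 j)
  have hfin : ∀ u, (∀ i j, H.Adj i j → (mg G u v).Adj (π i) (π j)) →
      e2 H univ ≤ e2 (mg G u v) (univ.erase v) := by
    intro u hu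
    have e1 : e2 (mg G u v) (univ.erase v) = ∑ i, ∑ j, ad (mg G u v) (π i) (π j) := by
      unfold e2 dg
      rw [← himg, Finset.sum_map]
      apply Finset.sum_congr rfl
      intro i _
      rw [Finset.sum_map]
      rfl
    rw [e1]
    unfold e2 dg
    apply Finset.sum_le_sum
    intro i _
    apply Finset.sum_le_sum
    intro j _
    by_cases hij : H.Adj i j
    · rw [ad_of_adj hij, ad_of_adj (hu i j hij)]
    · rw [ad_of_not hij]; exact ad_nonneg _ _ _
  by_cases hex : ∃ i0, v ∈ B i0
  · obtain ⟨i0, hi0⟩ := hex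
    have huniq : ∀ i, v ∈ B i → i = i0 := by
      intro i hi
      by_contra hne
      exact Set.disjoint_left.1 (h2 i i0 hne) hi hi0
    have huv : G.Adj (π i0) v := by
      obtain ⟨a, ha, b, hb, hbT, hab⟩ := (h1 i0).2 {π i0} (by simpa using h4 i0) ⟨_, rfl⟩ (by
        intro hE
        rw [← hE] at hi0
        exact hv i0 hi0.symm)
      have ha' : a = π i0 := ha
      rcases hB i0 b hb with hb' | hb'
      · exact absurd hb' hbT
      · rw [ha', hb'] at hab; exact hab
    refine ⟨π i0, v, Or.inr huv, hfin _ ?_⟩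
    intro i j hij
    refine ⟨fun h => hij.ne (hinj h), ?_⟩
    obtain ⟨x, hx, y, hy, hxy⟩ := h3 i j hij
    rcases hB i x hx with rfl | rfl
    · rcases hB j y hy with rfl | rfl
      · exact Or.inl hxy
      · have := huniq j hy
        subst this
        exact Or.inr (Or.inr ⟨rfl, hxy.symm⟩)
    · have hi := huniq i hx
      subst hi
      rcases hB j y hy with rfl | rfl
      · exact Or.inr (Or.inl ⟨rfl, hxy⟩)
      · exact absurd rfl hxy.ne
  · push Not at hex
    refine ⟨v, v, Or.inl rfl, hfin _ ?_⟩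
    intro i j hij
    refine ⟨fun h => hij.ne (hinj h), ?_⟩
    obtain ⟨x, hx, y, hy, hxy⟩ := h3 i j hij
    rcases hB i x hx with rfl | rfl
    · rcases hB j y hy with rfl | rfl
      · exact Or.inl hxy
      · exact absurd hy (hex j)
    · exact absurd hx (hex i)

/-! ### the graph `G₁` -/

/-- adjacency of `G₁`: vertex `0` is joined to everything, and `1, …, 5` form a bowtie with
centre `1` and triangles `1 2 3` and `1 4 5` -/
def adjG1 (i j : Fin 6) : Bool := i ≠ j && (i.1 ≤ 1 || j.1 ≤ 1 || i.1 / 2 == j.1 / 2)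

def G1 : SimpleGraph (Fin 6) where
  Adj i j := adjG1 i j = true
  symm := ⟨by
    intro i j h
    revert i j
    decide⟩
  loopless := ⟨by
    intro i h
    revert i
    decide⟩

def mgB (u v x y : Fin 6) : Bool :=
  x ≠ y && (adjG1 x y || (x == u && adjG1 v y) || (y == u && adjG1 v x))

lemma e2_bool {n : ℕ} (G : SimpleGraph (Fin n)) (b : Fin n → Fin n → Bool)
    (h : ∀ x y, G.Adj x y ↔ b x y = true) (S : Finset (Fin n)) :
    e2 G S = ((∑ x ∈ S, ∑ y ∈ S, (if b x y then 1 else 0) : ℕ) : ℤ) := by
  unfold e2 dg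
  push_cast
  apply Finset.sum_congr rfl
  intro x _
  apply Finset.sum_congr rfl
  intro y _
  by_cases hb : b x y = true
  · rw [ad_of_adj ((h x y).2 hb), if_pos hb]
  · rw [ad_of_not (fun h' => hb ((h x y).1 h')), if_neg hb]

lemma e2_G1 : e2 G1 univ = 22 := by
  rw [e2_bool G1 adjG1 (fun x y => Iff.rfl)]
  have : (∑ x ∈ (univ : Finset (Fin 6)), ∑ y ∈ (univ : Finset (Fin 6)),
      (if adjG1 x y then 1 else 0) : ℕ) = 22 := by decide
  rw [this]; norm_num

lemma mg_bound : ∀ u v : Fin 6, (u = v ∨ adjG1 u v = true) →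
    (∑ x ∈ (univ : Finset (Fin 6)).erase v, ∑ y ∈ (univ : Finset (Fin 6)).erase v,
      (if mgB u v x y then 1 else 0) : ℕ) ≤ 16 := by
  decide +kernel

lemma e2_mg_G1 (u v : Fin 6) (h : u = v ∨ G1.Adj u v) :
    e2 (mg G1 u v) (univ.erase v) ≤ 16 := by
  rw [e2_bool (mg G1 u v) (mgB u v) (by
    intro x y
    unfold mg mgB
    simp only [G1]
    simp [Bool.and_eq_true, Bool.or_eq_true, or_assoc])]
  have := mg_bound u v h
  exact_mod_cast this

/-! ### the addable class -/

/-- graphs all of whose minors have at most `11 (v - 1) / 5` edges -/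
def A2 : GraphClass := fun _ G =>
  ∀ (m : ℕ) (H : SimpleGraph (Fin (m + 1))), IsMinor H G → 5 * e2 H univ ≤ 22 * (m : ℤ)

lemma A2_closed : MinorClosed A2 := by
  intro m n H G hG hH l K hK
  exact hG l K (hK.trans hH)

lemma e2_triv {m : ℕ} (H : SimpleGraph (Fin (m + 1))) :
    e2 H univ ≤ ((m : ℤ) + 1) * m := by
  have := e2_le_card H univ
  rw [Finset.card_univ, Fintype.card_fin] at this
  push_cast at this
  linarith [this]

lemma e2_top (m : ℕ) : e2 (⊤ : SimpleGraph (Fin (m + 1))) univ = ((m : ℤ) + 1) * m := by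
  unfold e2 dg
  have : ∀ x : Fin (m + 1), ∑ y, ad (⊤ : SimpleGraph (Fin (m + 1))) x y = m := by
    intro x
    have h1 : ∀ y : Fin (m + 1), ad (⊤ : SimpleGraph (Fin (m + 1))) x y =
        1 - (if x = y then 1 else 0) := by
      intro y
      by_cases h : x = y
      · subst h; simp [ad_self]
      · rw [ad_of_adj (by simpa using h), if_neg h]; norm_num
    simp only [h1, Finset.sum_sub_distrib]
    simp
  simp only [this]
  simp

lemma A2_proper : Proper A2 := by
  refine ⟨⟨0, ⊥, ?_⟩, ⟨4, ⊤, ?_⟩⟩
  · intro m H hH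
    have hm := hH.card_le
    have hm0 : m = 0 := by omega
    subst hm0
    have := e2_triv H
    push_cast at this ⊢
    linarith
  · intro h
    have h1 := h 4 ⊤ (IsMinor.refl _)
    rw [e2_top] at h1
    norm_num at h1

lemma e2_comap {n : ℕ} (X : SimpleGraph (Fin (n + 1))) (S : Finset (Fin (n + 1))) :
    e2 (X.comap (Subtype.val : {x // x ∈ S} → Fin (n + 1))) univ = e2 X S := by
  unfold e2 dg
  rw [← Finset.sum_coe_sort S (fun x => ∑ y ∈ S, ad X x y)]
  apply Finset.sum_congr rfl
  intro i _
  rw [← Finset.sum_coe_sort S (fun y => ad X i y)]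
  exact Finset.sum_congr rfl fun j _ => ad_congr Iff.rfl

lemma A2_sub {n : ℕ} {X : SimpleGraph (Fin (n + 1))} (hX : IsExcludedMinor A2 n X)
    {S : Finset (Fin (n + 1))} (hn : S.Nonempty) (hne : S ≠ univ) :
    5 * e2 X S ≤ 22 * ((S.card : ℤ) - 1) := by
  have hinst : Nonempty {x // x ∈ S} := ⟨⟨_, hn.choose_spec⟩⟩
  obtain ⟨m, H, hm, ⟨e⟩⟩ := exists_fin (X.comap (Subtype.val : {x // x ∈ S} → Fin (n + 1)))
  rw [Fintype.card_coe] at hm
  have hlt : S.card < n + 1 := by
    have := Finset.card_lt_card (Finset.ssubset_univ_iff.2 hne)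
    simpa using this
  have hH : A2 m H := by
    apply hX.2 m H
    · refine (IsMinor.of_iso e).trans ?_
      exact IsMinor.of_inj Subtype.val Subtype.val_injective fun x y h => h
    · rintro ⟨e'⟩
      have := Fintype.card_congr e'.toEquiv
      simp at this
      omega
  have h1 := hH m H (IsMinor.refl _)
  rw [e2_iso e, e2_comap] at h1
  have h2 : (m : ℤ) = (S.card : ℤ) - 1 := by omega
  rw [h2] at h1
  exact h1

lemma A2_excess {n : ℕ} {X : SimpleGraph (Fin (n + 1))} (hX : IsExcludedMinor A2 n X) :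
    22 * (n : ℤ) < 5 * e2 X univ := by
  have h := hX.1
  unfold A2 at h
  push Not at h
  obtain ⟨m, H, hH, hlt⟩ := h
  by_cases hiso : Nonempty (H ≃g X)
  · obtain ⟨e⟩ := hiso
    have hc := Fintype.card_congr e.toEquiv
    simp at hc
    rw [e2_iso e] at hlt
    subst hc
    exact hlt
  · have h2 := hX.2 m H hH hiso m H (IsMinor.refl _)
    omega

lemma A2_addable : Addable A2 := by
  classical
  intro n X hX
  have hex := A2_excess hX
  have h3 : 3 ≤ n + 1 := by
    by_contra hcon
    have h1 := e2_triv X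
    have hn : n = 0 ∨ n = 1 := by omega
    rcases hn with rfl | rfl
    · push_cast at *; omega
    · push_cast at *; omega
  refine ⟨h3, ?_, ?_⟩
  · rw [← CSet_univ]
    have : Conn X univ := by
      refine ⟨univ_nonempty, fun T _ hTn hTne => ?_⟩
      by_contra hcon
      push Not at hcon
      have hd : Disjoint T (univ \ T) := Finset.disjoint_sdiff
      have hun : T ∪ (univ \ T) = univ := Finset.union_sdiff_of_subset (Finset.subset_univ _)
      have h1 := e2_union X hd
      rw [hun] at h1
      have h0 : ∑ x ∈ univ \ T, dg X T x = 0 := by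
        apply Finset.sum_eq_zero
        intro x hx
        unfold dg
        apply Finset.sum_eq_zero
        intro y hy
        apply ad_of_not
        intro hxy
        exact hcon y hy x (Finset.mem_univ _) (Finset.mem_sdiff.1 hx).2 hxy.symm
      have hn' : (univ \ T).Nonempty := by
        rw [Finset.sdiff_nonempty]
        intro h'; exact hTne ((Finset.subset_univ _).antisymm h')
      have hne' : univ \ T ≠ univ := by
        intro h'
        obtain ⟨x, hx⟩ := hTn
        have : x ∈ univ \ T := by rw [h']; exact Finset.mem_univ _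
        exact (Finset.mem_sdiff.1 this).2 hx
      have h4 := A2_sub hX hTn hTne
      have h5 := A2_sub hX hn' hne'
      have hc := Finset.card_union_of_disjoint hd
      rw [hun, Finset.card_univ, Fintype.card_fin] at hc
      have hc' : (n : ℤ) + 1 = T.card + (univ \ T).card := by exact_mod_cast hc
      rw [h0] at h1
      linarith
    have h2 := (Conn_iff_CSet X univ).1 this
    simpa using h2
  · intro v
    rw [← CSet_iff]
    have : Conn X (univ.erase v) := by
      refine ⟨?_, fun T hT hTn hTne => ?_⟩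
      · apply Finset.card_pos.1
        rw [Finset.card_erase_of_mem (Finset.mem_univ _), Finset.card_univ, Fintype.card_fin]
        omega
      by_contra hcon
      push Not at hcon
      set U := (univ.erase v) \ T with hU
      have hvT : v ∉ T := fun h => Finset.notMem_erase v univ (hT h)
      have hvU : v ∉ U := fun h => Finset.notMem_erase v univ (Finset.mem_sdiff.1 h).1
      have hUn : U.Nonempty := by
        rw [hU, Finset.sdiff_nonempty]
        intro h'; exact hTne (hT.antisymm h')
      have hd : Disjoint (insert v T) U := by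
        rw [Finset.disjoint_insert_left]
        exact ⟨hvU, Finset.disjoint_sdiff⟩
      have hun : insert v T ∪ U = univ := by
        ext x
        simp only [Finset.mem_union, Finset.mem_insert, Finset.mem_univ, iff_true]
        by_cases hxv : x = v
        · exact Or.inl (Or.inl hxv)
        · by_cases hxT : x ∈ T
          · exact Or.inl (Or.inr hxT)
          · exact Or.inr (Finset.mem_sdiff.2
              ⟨Finset.mem_erase.2 ⟨hxv, Finset.mem_univ _⟩, hxT⟩)
      have h1 := e2_union X hd
      rw [hun] at h1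
      have h0 : ∑ x ∈ U, dg X (insert v T) x = dg X U v := by
        unfold dg
        apply Finset.sum_congr rfl
        intro x hx
        rw [Finset.sum_insert hvT, ad_comm]
        have : ∑ y ∈ T, ad X x y = 0 := by
          apply Finset.sum_eq_zero
          intro y hy
          apply ad_of_not
          intro hxy
          exact hcon y hy x (Finset.mem_sdiff.1 hx).1 (Finset.mem_sdiff.1 hx).2 hxy.symm
        rw [this, add_zero]
      have h2 := e2_insert X hvU
      have hneT : insert v T ≠ univ := by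
        intro h'
        obtain ⟨x, hx⟩ := hUn
        have : x ∈ insert v T := by rw [h']; exact Finset.mem_univ _
        exact Finset.disjoint_left.1 hd this hx
      have hneU : insert v U ≠ univ := by
        intro h'
        obtain ⟨x, hx⟩ := hTn
        have : x ∈ insert v U := by rw [h']; exact Finset.mem_univ _
        rcases Finset.mem_insert.1 this with rfl | hxU
        · exact hvT hx
        · exact (Finset.mem_sdiff.1 hxU).2 hx
      have h4 := A2_sub hX ⟨v, Finset.mem_insert_self _ _⟩ hneT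
      have h5 := A2_sub hX ⟨v, Finset.mem_insert_self _ _⟩ hneU
      rw [Finset.card_insert_of_notMem hvT] at h4
      rw [Finset.card_insert_of_notMem hvU] at h5
      have hc := Finset.card_union_of_disjoint hd
      rw [hun, Finset.card_univ, Fintype.card_fin, Finset.card_insert_of_notMem hvT] at hc
      have hc' : (n : ℤ) + 1 = T.card + 1 + U.card := by exact_mod_cast hc
      push_cast at h4 h5
      rw [h0] at h1
      linarith
    have h2 := (Conn_iff_CSet X (univ.erase v)).1 this
    have h6 : ((univ.erase v : Finset (Fin (n + 1))) : Set (Fin (n + 1))) = {w | w ≠ v} := by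
      ext w; simp
    rw [h6] at h2
    exact h2

lemma A2_G1 : A2 5 G1 := by
  intro m H hH
  have hm := hH.card_le
  by_cases h5 : m = 5
  · subst h5
    obtain ⟨π, hπ⟩ := hH.same_card
    have := e2_le_of_equiv π hπ
    rw [e2_G1] at this
    push_cast; linarith
  by_cases h4 : m = 4
  · subst h4
    obtain ⟨u, v, huv, hle⟩ := one_less hH
    have := e2_mg_G1 u v huv
    push_cast; linarith
  have h3 := e2_triv H
  have hm3 : m = 0 ∨ m = 1 ∨ m = 2 ∨ m = 3 := by omega
  rcases hm3 with rfl | rfl | rfl | rfl <;> push_cast at * <;> linarith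

/-! ### the class with critical density 33/16 -/

/-- graphs all of whose minors have density at most `33/16` -/
def A1 : GraphClass := fun _ G =>
  ∀ (m : ℕ) (H : SimpleGraph (Fin (m + 1))), IsMinor H G → 16 * e2 H univ ≤ 66 * ((m : ℤ) + 1)

lemma A1_closed : MinorClosed A1 := by
  intro m n H G hG hH l K hK
  exact hG l K (hK.trans hH)

lemma A1_proper : Proper A1 := by
  refine ⟨⟨0, ⊥, ?_⟩, ⟨5, ⊤, ?_⟩⟩
  · intro m H hH
    have hm := hH.card_le
    have hm0 : m = 0 := by omega
    subst hm0
    have := e2_triv H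
    push_cast at this ⊢
    linarith
  · intro h
    have h1 := h 5 ⊤ (IsMinor.refl _)
    rw [e2_top] at h1
    norm_num at h1

lemma density_le_iff {n : ℕ} (G : SimpleGraph (Fin (n + 1))) (b : ℝ) :
    density G ≤ b ↔ (e2 G univ : ℝ) ≤ b * (2 * ((n : ℝ) + 1)) := by
  rw [density_eq]
  exact div_le_iff₀ (by positivity)

lemma A1_crit : IsCriticalDensity A1 (33 / 16) := by
  constructor
  · rintro x ⟨n, G, hG, rfl⟩
    have h1 := hG n G (IsMinor.refl _)
    rw [density_le_iff]
    have h2 : (16 : ℝ) * (e2 G univ : ℝ) ≤ 66 * ((n : ℝ) + 1) := by exact_mod_cast h1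
    linarith
  · intro b hb
    obtain ⟨G, ⟨e⟩, he⟩ := exists_chain 3 (m := 5) G1
    have hG : A1 (3 * 5) G := by
      intro m H hH
      have hm := hH.card_le
      have h1 : A2 m H := chain_mem A2_closed A2_addable A2_G1 (hH.trans (IsMinor.of_iso e))
      have h2 := h1 m H (IsMinor.refl _)
      omega
    have h3 := hb ⟨3 * 5, G, hG, rfl⟩
    rw [density_le_iff, he, e2_G1] at h3
    push_cast at h3
    linarith

lemma A2_crit : IsCriticalDensity A2 (11 / 5) := by
  constructor
  · rintro x ⟨n, G, hG, rfl⟩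
    have h1 := hG n G (IsMinor.refl _)
    rw [density_le_iff]
    have h2 : (5 : ℝ) * (e2 G univ : ℝ) ≤ 22 * (n : ℝ) := by exact_mod_cast h1
    linarith
  · intro b hb
    by_contra hlt
    push Not at hlt
    obtain ⟨t, ht⟩ := exists_nat_gt (b / (11 - 5 * b))
    have hpos : 0 < 11 - 5 * b := by linarith
    rw [div_lt_iff₀ hpos] at ht
    obtain ⟨G, ⟨e⟩, he⟩ := exists_chain t (m := 5) G1
    have hG : A2 (t * 5) G := by
      intro m H hH
      have h1 : A2 m H := chain_mem A2_closed A2_addable A2_G1 (hH.trans (IsMinor.of_iso e))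
      exact h1 m H (IsMinor.refl _)
    have h3 := hb ⟨t * 5, G, hG, rfl⟩
    rw [density_le_iff, he, e2_G1] at h3
    push_cast at h3
    nlinarith

/-! ### lower bounds -/

lemma exists_dense {A : GraphClass} {β : ℝ} (hβ : IsCriticalDensity A β) (h2 : 2 < β) :
    ∃ (n : ℕ) (G : SimpleGraph (Fin (n + 1))), A n G ∧ 6 ≤ F2 G univ := by
  by_contra hcon
  push Not at hcon
  have : β ≤ 2 := by
    apply hβ.2
    rintro x ⟨n, G, hG, rfl⟩
    rw [density_le_iff]
    have h1 := hcon n G hG
    obtain ⟨a, ha⟩ := F2_even G univ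
    have h3 : F2 G univ ≤ 4 := by omega
    unfold F2 at h3
    rw [Finset.card_univ, Fintype.card_fin] at h3
    push_cast at h3
    have h4 : e2 G univ ≤ 4 * ((n : ℤ) + 1) := by linarith
    have h5 : (e2 G univ : ℝ) ≤ 4 * ((n : ℝ) + 1) := by exact_mod_cast h4
    linarith
  linarith

lemma lower1 {A : GraphClass} (hmc : MinorClosed A) {β : ℝ} (hβ : IsCriticalDensity A β)
    (h2 : 2 < β) : 33 / 16 ≤ β := by
  obtain ⟨n, G, hG, hF⟩ := exists_dense hβ h2
  obtain ⟨m, H, hm, hH, he⟩ := exists_small_minor (k := 3) G (by norm_num) (by norm_num)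
    (by push_cast; linarith)
  have hA := hmc _ _ H G hG hH
  have h3 := hβ.1 ⟨m, H, hA, rfl⟩
  rw [density_le_iff] at h3
  push_cast at he
  have h4 : (4 : ℝ) * m + 6 ≤ (e2 H univ : ℝ) := by
    have : (4 : ℤ) * m + 6 ≤ e2 H univ := by linarith
    exact_mod_cast this
  have hm' : (m : ℝ) ≤ 15 := by exact_mod_cast hm
  have hm0 : (0 : ℝ) ≤ m := by positivity
  by_contra hlt
  push Not at hlt
  nlinarith

lemma lower2 {A : GraphClass} (hmc : MinorClosed A) (hadd : Addable A) {β : ℝ}
    (hβ : IsCriticalDensity A β) (h2 : 2 < β) : 11 / 5 ≤ β := by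
  obtain ⟨n, G, hG, hF⟩ := exists_dense hβ h2
  obtain ⟨m, H, hm, hH, he⟩ := exists_small_minor (k := 1) G (by norm_num) (by norm_num)
    (by push_cast; linarith)
  have hA := hmc _ _ H G hG hH
  push_cast at he
  have h4 : (4 : ℝ) * m + 2 ≤ (e2 H univ : ℝ) := by
    have : (4 : ℤ) * m + 2 ≤ e2 H univ := by linarith
    exact_mod_cast this
  have hm' : (m : ℝ) ≤ 5 := by exact_mod_cast hm
  have hm0 : (0 : ℝ) ≤ m := by positivity
  by_contra hlt
  push Not at hlt
  have hpos : 0 < (e2 H univ : ℝ) - 2 * β * m := by nlinarith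
  obtain ⟨t, ht⟩ := exists_nat_gt (2 * β / ((e2 H univ : ℝ) - 2 * β * m))
  rw [div_lt_iff₀ hpos] at ht
  obtain ⟨C, ⟨e⟩, hC⟩ := exists_chain t H
  have hCA : A (t * m) C := chain_mem hmc hadd hA (IsMinor.of_iso e)
  have h3 := hβ.1 ⟨t * m, C, hCA, rfl⟩
  rw [density_le_iff, hC] at h3
  push_cast at h3
  nlinarith

theorem main_result :
    IsLeast (critB ∩ Set.Ioi 2) (33 / 16) ∧ IsLeast (critB₂ ∩ Set.Ioi 2) (11 / 5) := by
  refine ⟨⟨⟨⟨A1, A1_closed, A1_proper, A1_crit⟩, ?_⟩, ?_⟩,
    ⟨⟨A2, A2_closed, A2_proper, A2_addable, A2_crit⟩, ?_⟩, ?_⟩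
  · show (2 : ℝ) < 33 / 16
    norm_num
  · rintro β ⟨⟨A, hmc, _, hβ⟩, h2⟩
    exact lower1 hmc hβ h2
  · show (2 : ℝ) < 11 / 5
    norm_num
  · rintro β ⟨⟨A, hmc, _, hadd, hβ⟩, h2⟩
    exact lower2 hmc hadd hβ h2

end

end E95
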