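import Mathlib

/-!
Definitions for MP_e95e88_co (critical densities of minor-closed classes of graphs).
-/

namespace E95

/-- `H` is a minor of `G`: there are pairwise disjoint sets `B w` of vertices of `G`, one for each
vertex `w` of `H`, each inducing a connected (in particular nonempty) subgraph of `G`, such that
for every edge `w w'` of `H` some edge of `G` joins `B w` to `B w'`. -/
def IsMinor {W V : Type} (H : SimpleGraph W) (G : SimpleGraph V) : Prop :=
  ∃ B : W → Set V, (∀ w, (G.induce (B w)).Connected) ∧
    (∀ w w', w ≠ w' → Disjoint (B w) (B w')) ∧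
    (∀ w w', H.Adj w w' → ∃ x ∈ B w, ∃ y ∈ B w', G.Adj x y)

/-- A class of finite nonempty simple graphs, given by its members on the vertex sets
`{0, …, n}`. (A minor-closed class in the sense below is closed under isomorphism, since
isomorphic graphs are minors of each other.) -/
abbrev GraphClass : Type := (n : ℕ) → SimpleGraph (Fin (n + 1)) → Prop

/-- every minor of a member is a member -/
def MinorClosed (A : GraphClass) : Prop :=
  ∀ (m n : ℕ) (H : SimpleGraph (Fin (m + 1))) (G : SimpleGraph (Fin (n + 1))),
    A n G → IsMinor H G → A m H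

/-- nonempty, and not the class of all graphs -/
def Proper (A : GraphClass) : Prop :=
  (∃ (n : ℕ) (G : SimpleGraph (Fin (n + 1))), A n G) ∧
    ∃ (n : ℕ) (G : SimpleGraph (Fin (n + 1))), ¬ A n G

/-- `e(G) / v(G)` -/
noncomputable def density {n : ℕ} (G : SimpleGraph (Fin (n + 1))) : ℝ :=
  (G.edgeSet.ncard : ℝ) / ((n : ℝ) + 1)

/-- `β` is the critical density of the class: the supremum of the densities of its members -/
def IsCriticalDensity (A : GraphClass) (β : ℝ) : Prop :=
  IsLUB {x : ℝ | ∃ (n : ℕ) (G : SimpleGraph (Fin (n + 1))), A n G ∧ x = density G} β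

/-- `G` is an excluded minor of the class: it is not in the class, but every minor of `G` that is
not isomorphic to `G` is. -/
def IsExcludedMinor (A : GraphClass) (n : ℕ) (G : SimpleGraph (Fin (n + 1))) : Prop :=
  ¬ A n G ∧ ∀ (m : ℕ) (H : SimpleGraph (Fin (m + 1))),
    IsMinor H G → ¬ Nonempty (H ≃g G) → A m H

/-- 2-connected: at least three vertices, connected, and connected after the deletion of any
one vertex -/
def TwoConnected {n : ℕ} (G : SimpleGraph (Fin (n + 1))) : Prop :=
  3 ≤ n + 1 ∧ G.Connected ∧ ∀ v : Fin (n + 1), (G.induce {w | w ≠ v}).Connected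

/-- every excluded minor is 2-connected -/
def Addable (A : GraphClass) : Prop :=
  ∀ (n : ℕ) (G : SimpleGraph (Fin (n + 1))), IsExcludedMinor A n G → TwoConnected G

/-- the set of critical densities of proper minor-closed classes -/
def critB : Set ℝ := {β | ∃ A : GraphClass, MinorClosed A ∧ Proper A ∧ IsCriticalDensity A β}

/-- the set of critical densities of proper addable minor-closed classes -/
def critB₂ : Set ℝ :=
  {β | ∃ A : GraphClass, MinorClosed A ∧ Proper A ∧ Addable A ∧ IsCriticalDensity A β}

end E95
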