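import Pool.Agent.E95.Struct

/-!
Helper file for MP_e95e88_co: no minimal counterexample.
-/

namespace E95

open Finset

noncomputable section

variable {V : Type} [DecidableEq V]

open scoped Classical in
/-- neighbours inside `S` -/
def nb (G : SimpleGraph V) (S : Finset V) (v : V) : Finset V := S.filter (fun w => G.Adj v w)

omit [DecidableEq V] in
lemma mem_nb {G : SimpleGraph V} {S : Finset V} {v w : V} :
    w ∈ nb G S v ↔ w ∈ S ∧ G.Adj v w := by
  unfold nb; simp

omit [DecidableEq V] in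
lemma dg_eq_nb (G : SimpleGraph V) (S : Finset V) (v : V) :
    dg G S v = ((nb G S v).card : ℤ) := dg_eq_card G S v

namespace Crit

variable {G : SimpleGraph V} {S : Finset V} {k : ℕ}

lemma tri_nb (h : Crit G S k) {u v : V} (hu : u ∈ S) (hv : v ∈ S) (huv : G.Adj u v) :
    2 ≤ (nb G S u ∩ nb G S v).card := by
  classical
  have := h.tri hu hv huv
  refine this.trans (Finset.card_le_card ?_)
  intro x hx
  rw [Finset.mem_filter] at hx
  rw [Finset.mem_inter, mem_nb, mem_nb]
  exact ⟨⟨hx.1, hx.2.1⟩, hx.1, hx.2.2⟩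

/-- the neighbourhood of a vertex of degree 3 is a triangle -/
lemma clique3 (h : Crit G S k) {z : V} (hz : z ∈ S) (hd : dg G S z = 3) {u v : V}
    (hu : u ∈ S) (hv : v ∈ S) (hzu : G.Adj z u) (hzv : G.Adj z v) (hne : u ≠ v) :
    G.Adj u v := by
  classical
  have hcard : (nb G S z).card = 3 := by
    have := dg_eq_nb G S z
    rw [hd] at this; exact_mod_cast this.symm
  have h1 := h.tri_nb hz hu hzu
  by_contra hnot
  -- the common neighbours avoid u and v
  have h2 : nb G S z ∩ nb G S u ⊆ ((nb G S z).erase u).erase v := by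
    intro x hx
    rw [Finset.mem_inter, mem_nb, mem_nb] at hx
    rw [Finset.mem_erase, Finset.mem_erase, mem_nb]
    refine ⟨?_, ?_, hx.1⟩
    · rintro rfl; exact hnot hx.2.2
    · rintro rfl; exact hx.2.2.ne rfl
  have h3 : (((nb G S z).erase u).erase v).card = 1 := by
    rw [Finset.card_erase_of_mem, Finset.card_erase_of_mem, hcard]
    · rw [mem_nb]; exact ⟨hu, hzu⟩
    · rw [Finset.mem_erase, mem_nb]; exact ⟨hne.symm, hv, hzv⟩
  have h4 := Finset.card_le_card h2
  omega

lemma get3 (h : Crit G S k) {z : V} (hz : z ∈ S) (hd : dg G S z = 3) :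
    ∃ a b c, a ∈ S ∧ b ∈ S ∧ c ∈ S ∧ a ≠ b ∧ a ≠ c ∧ b ≠ c ∧ G.Adj z a ∧ G.Adj z b ∧ G.Adj z c ∧
      G.Adj a b ∧ G.Adj a c ∧ G.Adj b c := by
  have hcard : (nb G S z).card = 3 := by
    have := dg_eq_nb G S z
    rw [hd] at this; exact_mod_cast this.symm
  obtain ⟨a, b, c, hab, hac, hbc, hN⟩ := Finset.card_eq_three.1 hcard
  have ha : a ∈ nb G S z := by rw [hN]; simp
  have hb : b ∈ nb G S z := by rw [hN]; simp
  have hc : c ∈ nb G S z := by rw [hN]; simp
  rw [mem_nb] at ha hb hc
  exact ⟨a, b, c, ha.1, hb.1, hc.1, hab, hac, hbc, ha.2, hb.2, hc.2,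
    h.clique3 hz hd ha.1 hb.1 ha.2 hb.2 hab, h.clique3 hz hd ha.1 hc.1 ha.2 hc.2 hac,
    h.clique3 hz hd hb.1 hc.1 hb.2 hc.2 hbc⟩

end Crit

/-- a `K4` is a starting set -/
lemma RR_K4 {G : SimpleGraph V} {z a b c : V} (hab : G.Adj a b) (hac : G.Adj a c)
    (hbc : G.Adj b c) (hza : G.Adj z a) (hzb : G.Adj z b) (hzc : G.Adj z c) :
    RR G ({z, a, b, c} : Finset V) := by
  classical
  let f : Fin 4 → V := ![z, a, b, c]
  have hadj : ∀ i j, i ≠ j → G.Adj (f i) (f j) := by
    intro i j hij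
    fin_cases i <;> fin_cases j <;>
      first
        | exact absurd rfl hij
        | simp [f, hab, hac, hbc, hza, hzb, hzc, hab.symm, hac.symm, hbc.symm, hza.symm,
            hzb.symm, hzc.symm]
  have hX : ∀ x, x ∈ ({z, a, b, c} : Finset V) ↔ ∃ i, x = f i := by
    intro x
    simp only [Finset.mem_insert, Finset.mem_singleton]
    constructor
    · rintro (h | h | h | h)
      · exact ⟨0, by simp [f, h]⟩
      · exact ⟨1, by simp [f, h]⟩
      · exact ⟨2, by simp [f, h]⟩
      · exact ⟨3, by simp [f, h]⟩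
    · rintro ⟨i, rfl⟩
      fin_cases i <;> simp [f]
  have hinj : Function.Injective f := by
    intro i j hij
    by_contra hne
    exact (hadj i j hne).ne hij
  have h1 : Conn G ({z, a, b, c} : Finset V) := by
    have e1 : Conn G ({c} : Finset V) := Conn.singleton G c
    have e2 : Conn G (insert b {c} : Finset V) := e1.insert (by simp) hbc.symm
    have e3 : Conn G (insert a (insert b {c}) : Finset V) := e2.insert (u := c) (by simp) hac.symm
    exact e3.insert (u := c) (by simp) hzc.symm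
  have hcard : ({z, a, b, c} : Finset V).card = 4 := by
    rw [Finset.card_insert_of_notMem, Finset.card_insert_of_notMem, Finset.card_insert_of_notMem,
      Finset.card_singleton]
    · simpa using hbc.ne
    · simp [hab.ne, hac.ne]
    · simp [hza.ne, hzb.ne, hzc.ne]
  refine ⟨h1, ?_, hcard.ge, ?_⟩
  · have n1 : b ∉ ({c} : Finset V) := by simpa using hbc.ne
    have n2 : a ∉ (insert b {c} : Finset V) := by simp [hab.ne, hac.ne]
    have n3 : z ∉ (insert a (insert b {c}) : Finset V) := by simp [hza.ne, hzb.ne, hzc.ne]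
    rw [F2_insert G n3, F2_insert G n2, F2_insert G n1, F2_singleton]
    rw [dg_insert G n2, dg_insert G n1, dg_insert G n1]
    unfold dg
    simp only [Finset.sum_singleton]
    rw [ad_of_adj hbc, ad_of_adj hab, ad_of_adj hac, ad_of_adj hza, ad_of_adj hzb, ad_of_adj hzc]
    norm_num
  · intro p hp q hq hpq
    obtain ⟨i, rfl⟩ := (hX p).1 hp
    obtain ⟨j, rfl⟩ := (hX q).1 hq
    refine ⟨fun l => {f l}, ⟨⟨?_, ?_, ?_⟩, ?_⟩, i, j, ?_, ?_, ?_⟩
    · intro l x hx
      rw [Finset.mem_singleton] at hx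
      rw [hX]; exact ⟨l, hx⟩
    · intro l; exact Conn.singleton _ _
    · intro l m hlm
      rw [Finset.disjoint_singleton]
      exact fun h => hlm (hinj h)
    · intro l m hlm
      exact ⟨hlm, f l, by simp, f m, by simp, hadj l m hlm⟩
    · rintro rfl; exact hpq rfl
    · simp
    · simp

namespace Crit

variable {G : SimpleGraph V} {S : Finset V} {k : ℕ}

/-- growing a set until only two vertices are left -/
lemma grow (h : Crit G S k) {P : Finset V → Prop}
    (hP1 : ∀ X ⊆ S, P X → Conn G X ∧ 2 ≤ X.card)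
    (hP2 : ∀ X y, X ⊆ S → P X → y ∈ S → y ∉ X → 2 ≤ dg G X y → P (insert y X)) :
    ∀ (n : ℕ) (X : Finset V), X ⊆ S → P X → X.card + n + 2 = S.card →
      ∃ X' ⊆ S, P X' ∧ X'.card + 2 = S.card := by
  intro n
  induction n with
  | zero => intro X hX hP hc; exact ⟨X, hX, hP, by omega⟩
  | succ n ih =>
    intro X hX hP hc
    obtain ⟨hcn, h2⟩ := hP1 X hX hP
    obtain ⟨y, hyS, hyX, hy2⟩ := h.grow1 hX (by rintro rfl; omega) hcn h2
    refine ih (insert y X) (Finset.insert_subset hyS hX) (hP2 X y hX hP hyS hyX hy2) ?_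
    rw [Finset.card_insert_of_notMem hyX]; omega

/-- the last two vertices -/
lemma last2 (h : Crit G S k) {P : Finset V → Prop}
    (hP1 : ∀ X ⊆ S, P X → Conn G X ∧ 2 ≤ X.card)
    (hP2 : ∀ X y, X ⊆ S → P X → y ∈ S → y ∉ X → 2 ≤ dg G X y → P (insert y X))
    {X0 : Finset V} (hX0 : X0 ⊆ S) (hP0 : P X0) (hc0 : X0.card + 2 ≤ S.card) :
    ∃ (X : Finset V) (r y : V), X ⊆ S ∧ P X ∧ r ∈ S ∧ r ∉ X ∧ 2 ≤ dg G X r ∧ y ∈ S ∧
      y ∉ insert r X ∧ insert y (insert r X) = S := by
  obtain ⟨X, hX, hP, hc⟩ := h.grow hP1 hP2 (S.card - 2 - X0.card) X0 hX0 hP0 (by omega)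
  obtain ⟨hcn, h2⟩ := hP1 X hX hP
  obtain ⟨r, hrS, hrX, hr2⟩ := h.grow1 hX (by rintro rfl; omega) hcn h2
  have hsub : insert r X ⊆ S := Finset.insert_subset hrS hX
  have hc1 : (insert r X).card = X.card + 1 := Finset.card_insert_of_notMem hrX
  have hlt : (insert r X).card < S.card := by omega
  obtain ⟨y, hyS, hyX⟩ := Finset.exists_of_ssubset
    (show insert r X ⊂ S from ⟨hsub, fun h' => by
      have := Finset.card_le_card h'; omega⟩)
  refine ⟨X, r, y, hX, hP, hrS, hrX, hr2, hyS, hyX, ?_⟩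
  apply Finset.eq_of_subset_of_card_le (Finset.insert_subset hyS hsub)
  rw [Finset.card_insert_of_notMem hyX]; omega

/-- numerical facts about the last two vertices -/
lemma last2_num (h : Crit G S k) {X : Finset V} {r y : V} (hrX : r ∉ X)
    (hyX : y ∉ insert r X) (hE : insert y (insert r X) = S) :
    F2 G S = F2 G X + 2 * dg G X r + 2 * dg G S y - 8 ∧ dg G S r = dg G X r + ad G r y ∧
      F2 G X + 2 * dg G X r - 4 ≤ 2 * (k : ℤ) - 2 := by
  have h1 := F2_insert G hrX
  have h2 := F2_insert G hyX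
  rw [hE] at h2
  have h3 : dg G S y = dg G (insert r X) y := by
    rw [← hE, dg_insert G hyX, ad_self]; ring
  have h4 : dg G S r = dg G X r + ad G r y := by
    rw [← hE, dg_insert G hyX, dg_insert G hrX, ad_self]; ring
  have h5 : insert r X ≠ S := by
    intro h'; rw [← h', Finset.insert_eq_self] at hE; exact hyX hE
  have h6 : insert r X ⊆ S := by rw [← hE]; exact Finset.subset_insert _ _
  have h7 := h.sub_le h6 h5 ⟨r, Finset.mem_insert_self _ _⟩
  refine ⟨?_, h4, ?_⟩
  · rw [h2, h1, h3]; ring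
  · rw [h1] at h7; linarith

/-! ### k = 1 -/

omit [DecidableEq V] in
lemma sum_deg (h : Crit G S k) : ∑ x ∈ S, (dg G S x - 4) = 2 * (k : ℤ) - 4 := by
  have hF := h.F
  unfold F2 e2 at hF
  rw [Finset.sum_sub_distrib]
  simp only [Finset.sum_const, nsmul_eq_mul]
  linarith

lemma no_k1 (h : Crit G S 1) : False := by
  classical
  -- a vertex of degree three
  obtain ⟨z, hzS, hz⟩ : ∃ z ∈ S, dg G S z = 3 := by
    by_contra hcon
    push Not at hcon
    have h1 := h.sum_deg
    have h2 : 0 ≤ ∑ x ∈ S, (dg G S x - 4) := by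
      apply Finset.sum_nonneg
      intro x hx
      have h3 := h.deg hx
      have h4 := hcon x hx
      omega
    rw [h1] at h2
    norm_num at h2
  obtain ⟨a, b, c, haS, hbS, hcS, -, -, -, hza, hzb, hzc, hab, hac, hbc⟩ := h.get3 hzS hz
  have hX0 : ({z, a, b, c} : Finset V) ⊆ S := by
    intro x hx
    simp only [Finset.mem_insert, Finset.mem_singleton] at hx
    rcases hx with rfl | rfl | rfl | rfl <;> assumption
  have hR0 := RR_K4 hab hac hbc hza hzb hzc
  have hbig := h.big
  have hcard : ({z, a, b, c} : Finset V).card ≤ 4 := by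
    refine (Finset.card_insert_le _ _).trans ?_
    have := Finset.card_le_three (a := a) (b := b) (c := c)
    omega
  obtain ⟨X, r, y, hX, hP, hrS, hrX, hr2, hyS, hyX, hE⟩ :=
    h.last2 (P := RR G) (fun X _ hR => ⟨hR.conn, by have := hR.card; omega⟩)
      (fun X y _ hR _ hy h2 => hR.insert hy h2) hX0 hR0 (by omega)
  obtain ⟨n1, n2, n3⟩ := h.last2_num hrX hyX hE
  have hF := h.F
  have hnn := hP.nn
  have hdr := h.deg hrS
  have hdy := h.deg hyS
  have had := ad_le_one G r y
  have had0 := ad_nonneg G r y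
  push_cast at n3 hF
  have hXr : dg G X r = 2 := by omega
  have hFX : F2 G X = 0 := by omega
  have hSy : dg G S y = 3 := by omega
  have hry1 : ad G r y = 1 := by omega
  have hSr : dg G S r = 3 := by omega
  have hry : G.Adj r y := by
    by_contra hcon
    rw [ad_of_not hcon] at hry1; norm_num at hry1
  -- the two neighbours of r in X
  obtain ⟨p, hpX, _, hrp⟩ := exists_nb_ne hr2 r
  obtain ⟨q, hqX, hqp, hrq⟩ := exists_nb_ne hr2 p
  have hyr : y ≠ r := by rintro rfl; exact hyX (Finset.mem_insert_self _ _)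
  have hyX' : y ∉ X := fun h => hyX (Finset.mem_insert_of_mem h)
  have hpy : p ≠ y := by rintro rfl; exact hyX' hpX
  have hqy : q ≠ y := by rintro rfl; exact hyX' hqX
  have hyp : G.Adj y p := (h.clique3 hrS hSr (hX hpX) hyS hrp hry hpy).symm
  have hyq : G.Adj y q := (h.clique3 hrS hSr (hX hqX) hyS hrq hry hqy).symm
  obtain ⟨K, hK, i, j, hij, hpi, hqj⟩ := hP.sep p hpX q hqX hqp.symm
  have hM1 : Mod G (insert r X) (addP K r) :=
    hK.1.addP (Finset.subset_insert _ _) hrX (Finset.mem_insert_self _ _)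
  have hM2 : Mod G S (addP (addP K r) y) := by
    rw [← hE]
    exact hM1.addP (Finset.subset_insert _ _) hyX (Finset.mem_insert_self _ _)
  apply h.bad
  refine ⟨Option (Option (Fin 4)), inferInstance, inferInstance, addP (addP K r) y, ?_, hM2, ?_⟩
  · simp [Fintype.card_option]
  · have f1 : Fm G K = 0 := hK.Fm
    have f2 := Fm_addP G K r
    have f3 := Fm_addP G (addP K r) y
    have s1 : 2 ≤ ∑ i, tt G {r} (K i) :=
      two_le_sum_tt hij hpi hqj (Finset.mem_singleton_self r) hrp hrq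
    have s2 : 2 ≤ ∑ i, tt G {y} (K i) :=
      two_le_sum_tt hij hpi hqj (Finset.mem_singleton_self y) hyp hyq
    have s3 : ∑ i, tt G {y} (addP K r i) = tt G {y} {r} + ∑ i, tt G {y} (K i) := by
      rw [Fintype.sum_option]; rfl
    have s4 : tt G {y} {r} = 1 :=
      tt_of (Finset.mem_singleton_self y) (Finset.mem_singleton_self r) hry.symm
    rw [s3, s4] at f3
    rw [f3, f2, f1]
    push_cast
    linarith

end Crit

end

end E95
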