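import Pool.Agent.E95.Main

/-!
Helper file for MP_e95e88_co: the cases k = 2, 3 and the structure theorem.
-/

namespace E95

open Finset

noncomputable section

variable {V : Type} [DecidableEq V]

/-- add `z` to the part `i0` -/
def putP {ι : Type} [DecidableEq ι] (B : ι → Finset V) (i0 : ι) (z : V) : ι → Finset V :=
  Function.update B i0 (insert z (B i0))

lemma putP_self {ι : Type} [DecidableEq ι] (B : ι → Finset V) (i0 : ι) (z : V) :
    putP B i0 z i0 = insert z (B i0) := by simp [putP]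

lemma putP_ne {ι : Type} [DecidableEq ι] (B : ι → Finset V) {i0 i : ι} (z : V) (h : i ≠ i0) :
    putP B i0 z i = B i := by simp [putP, h]

lemma putP_sub {ι : Type} [DecidableEq ι] (B : ι → Finset V) (i0 : ι) (z : V) (i : ι) :
    B i ⊆ putP B i0 z i := by
  by_cases h : i = i0
  · subst h; rw [putP_self]; exact Finset.subset_insert _ _
  · rw [putP_ne B z h]

lemma Mod.putP {ι : Type} [DecidableEq ι] {G : SimpleGraph V} {S : Finset V}
    {B : ι → Finset V} {z : V} (hz : z ∈ S) (hB : Mod G (S.erase z) B) {i0 : ι} {a : V}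
    (ha : a ∈ B i0) (hza : G.Adj z a) : Mod G S (putP B i0 z) := by
  have hzB : ∀ i, z ∉ B i := fun i hi => Finset.notMem_erase z S (hB.sub i hi)
  have hBS : ∀ i, B i ⊆ S := fun i => (hB.sub i).trans (Finset.erase_subset _ _)
  refine ⟨?_, ?_, ?_⟩
  · intro i
    by_cases h : i = i0
    · subst h; rw [putP_self]; exact Finset.insert_subset hz (hBS _)
    · rw [putP_ne B z h]; exact hBS _
  · intro i
    by_cases h : i = i0
    · subst h; rw [putP_self]; exact (hB.conn _).insert ha hza.symm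
    · rw [putP_ne B z h]; exact hB.conn _
  · intro i j hij
    by_cases hi : i = i0
    · subst hi
      rw [putP_self, putP_ne B z hij.symm, Finset.disjoint_insert_left]
      exact ⟨hzB j, hB.disj _ _ hij⟩
    · by_cases hj : j = i0
      · subst hj
        rw [putP_self, putP_ne B z hi, Finset.disjoint_insert_right]
        exact ⟨hzB i, hB.disj _ _ hij⟩
      · rw [putP_ne B z hi, putP_ne B z hj]; exact hB.disj _ _ hij

namespace Crit

variable {G : SimpleGraph V} {S : Finset V} {k : ℕ}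

lemma conn_erase (h : Crit G S k) {z : V} (hz : z ∈ S) (hd : dg G S z = 3) :
    Conn G (S.erase z) := by
  have hbig := h.big
  refine ⟨?_, fun T hT hn hne => ?_⟩
  · apply Finset.card_pos.1
    rw [Finset.card_erase_of_mem hz]; omega
  have hTS : T ⊆ S := hT.trans (Finset.erase_subset _ _)
  have hzT : z ∉ T := fun h => Finset.notMem_erase z S (hT h)
  have hTne : T ≠ S := by rintro rfl; exact hzT hz
  obtain ⟨u, hu, v, hv, hvT, huv⟩ := h.conn.2 T hTS hn hTne
  by_cases hvz : v = z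
  · subst hvz
    have h2 : insert v T ≠ S := by
      intro hE
      apply hne
      rw [← hE, Finset.erase_insert hzT]
    obtain ⟨u', hu', v', hv', hvT', huv'⟩ := h.conn.2 (insert v T)
      (Finset.insert_subset hz hTS) ⟨v, Finset.mem_insert_self _ _⟩ h2
    have hvT2 : v' ∉ T := fun h => hvT' (Finset.mem_insert_of_mem h)
    have hvv : v' ≠ v := by rintro rfl; exact hvT' (Finset.mem_insert_self _ _)
    rcases Finset.mem_insert.1 hu' with rfl | hu'
    · refine ⟨u, hu, v', Finset.mem_erase.2 ⟨hvv, hv'⟩, hvT2, ?_⟩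
      exact h.clique3 hz hd (hTS hu) hv' huv.symm huv' (by rintro rfl; exact hvT2 hu)
    · exact ⟨u', hu', v', Finset.mem_erase.2 ⟨hvv, hv'⟩, hvT2, huv'⟩
  · exact ⟨u, hu, v, Finset.mem_erase.2 ⟨hvz, hv⟩, hvT, huv⟩

/-- spanning model of `S - z` with excess `k - 1` -/
lemma model_erase (h : Crit G S k) (hk : 2 ≤ k) {z : V} (hz : z ∈ S) (hd : dg G S z = 3) :
    ∃ (ι : Type) (_ : Fintype ι) (_ : Nonempty ι) (B : ι → Finset V),
      Fintype.card ι + 4 ≤ 5 * k ∧ Mod G (S.erase z) B ∧ 2 * (k : ℤ) - 2 ≤ Fm G B ∧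
      ∀ x ∈ S.erase z, ∃ i, x ∈ B i := by
  have hbig := h.big
  have hF : F2 G (S.erase z) = 2 * (k : ℤ) - 2 := by
    rw [F2_erase G hz, hd, h.F]; ring
  have hc := h.conn_erase hz hd
  have hg : Good G (S.erase z) (k - 1) := by
    apply h.lower (k - 1) (by omega) (by omega) _ _ hc.1
    rw [hF]
    push_cast [Nat.cast_sub (show 1 ≤ k by omega)]
    linarith
  obtain ⟨ι, i1, i2, B, h1, h2, h3⟩ := hg
  obtain ⟨B', hBB', hB'm, hB's⟩ := Mod.exists_spanning hc h2
  refine ⟨ι, i1, i2, B', by omega, hB'm, ?_, hB's⟩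
  have h4 : Fm G B ≤ Fm G B' := F2_mono (QB_mono_fam G hBB') _
  push_cast [Nat.cast_sub (show 1 ≤ k by omega)] at h3
  linarith

/-- case 1: three different parts -/
lemma case1 (h : Crit G S k) {ι : Type} [Fintype ι] {B : ι → Finset V} {z : V}
    (hz : z ∈ S) (hcard : Fintype.card ι + 4 ≤ 5 * k) (hB : Mod G (S.erase z) B)
    (hF : 2 * (k : ℤ) - 2 ≤ Fm G B) {a b c : V} {ia ib ic : ι}
    (ha : a ∈ B ia) (hb : b ∈ B ib) (hc : c ∈ B ic) (hab : ia ≠ ib) (hac : ia ≠ ic)
    (hbc : ib ≠ ic) (hza : G.Adj z a) (hzb : G.Adj z b) (hzc : G.Adj z c) : False := by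
  classical
  apply h.bad
  have hM : Mod G S (addP B z) :=
    hB.addP (Finset.erase_subset _ _) (Finset.notMem_erase _ _) hz
  refine ⟨Option ι, inferInstance, inferInstance, addP B z, ?_, hM, ?_⟩
  · rw [Fintype.card_option]; omega
  · rw [Fm_addP]
    have h1 : ∑ i ∈ ({ia, ib, ic} : Finset ι), tt G {z} (B i) ≤ ∑ i, tt G {z} (B i) :=
      Finset.sum_le_sum_of_subset_of_nonneg (Finset.subset_univ _) fun _ _ _ => tt_nonneg _ _ _
    rw [Finset.sum_insert (by simp [hab, hac]), Finset.sum_pair hbc,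
      tt_of (Finset.mem_singleton_self z) ha hza, tt_of (Finset.mem_singleton_self z) hb hzb,
      tt_of (Finset.mem_singleton_self z) hc hzc] at h1
    linarith

/-- case 2: two in one part, the third in another one -/
lemma case2 (h : Crit G S k) {ι : Type} [Fintype ι] {B : ι → Finset V} {z : V}
    (hz : z ∈ S) (hcard : Fintype.card ι + 4 ≤ 5 * k) (hB : Mod G (S.erase z) B)
    (hF : 2 * (k : ℤ) - 2 ≤ Fm G B) {a b c : V} {i0 i1 : ι}
    (ha : a ∈ B i0) (hb : b ∈ B i0) (hc : c ∈ B i1) (h01 : i1 ≠ i0)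
    (hza : G.Adj z a) (hzb : G.Adj z b) (hzc : G.Adj z c) (hab : G.Adj a b)
    (hac : G.Adj a c) (hbc : G.Adj b c) : False := by
  classical
  have hM : Mod G S (putP B i0 z) := hB.putP hz ha hza
  let f : Fin 3 → V := ![a, b, z]
  have hadj : ∀ i j, i ≠ j → G.Adj (f i) (f j) := by
    intro i j hij
    fin_cases i <;> fin_cases j <;>
      first
        | exact absurd rfl hij
        | simp [f, hab, hza, hzb, hab.symm, hza.symm, hzb.symm]
  have hinj : Function.Injective f := by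
    intro i j hij
    by_contra hne
    exact (hadj i j hne).ne hij
  have hfc : ∀ i, G.Adj c (f i) := by
    intro i
    fin_cases i <;> simp [f, hac.symm, hbc.symm, hzc.symm]
  have hfA : ∀ i, f i ∈ putP B i0 z i0 := by
    intro i
    rw [putP_self]
    fin_cases i <;> simp [f, ha, hb]
  let K : Fin 3 → Finset V := fun i => {f i}
  have hK : Mod G (putP B i0 z i0) K := by
    refine ⟨?_, ?_, ?_⟩
    · intro i; simpa [K] using hfA i
    · intro i; exact Conn.singleton _ _
    · intro i j hij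
      rw [Finset.disjoint_singleton]
      exact fun h => hij (hinj h)
  obtain ⟨K', hKK', hK'm, hK's⟩ := Mod.exists_spanning (hM.conn i0) hK
  have hFK : Fm G K = -2 := by
    rw [Fm_eq]
    have : ∀ i j, ad (QB G K) i j = if i = j then 0 else 1 := by
      intro i j
      by_cases hij : i = j
      · subst hij; simp [ad_self]
      · have hA : (QB G K).Adj i j := ⟨hij, f i, by simp [K], f j, by simp [K], hadj i j hij⟩
        rw [ad_of_adj hA, if_neg hij]
    simp only [this]
    simp [Fin.sum_univ_three]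
  have hFK' : Fm G K ≤ Fm G K' := F2_mono (QB_mono_fam G hKK') _
  have hFB' : Fm G B ≤ Fm G (putP B i0 z) := F2_mono (QB_mono_fam G (putP_sub B i0 z)) _
  have hext := Fm_refP_extra (G := G) (B := putP B i0 z) (i0 := i0) (K := K') hK's h01 (m := 2)
    (by
      have : ∀ i : Fin 3, tt G (putP B i0 z i1) (K' i) = 1 := by
        intro i
        refine tt_of (u := c) (v := f i) ?_ (hKK' i (by simp [K])) (hfc i)
        rw [putP_ne B z h01]; exact hc
      simp only [this]
      simp)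
  apply h.bad
  refine ⟨{i // i ≠ i0} ⊕ Fin 3, inferInstance, inferInstance, refP (putP B i0 z) i0 K', ?_,
    hM.refP hK'm, ?_⟩
  · have := card_refP (κ := Fin 3) i0
    rw [Fintype.card_fin] at this
    omega
  · linarith

omit [DecidableEq V] in
lemma exists_other {ι : Type} [Fintype ι] {B : ι → Finset V} (hF : 0 < Fm G B) (i0 : ι) :
    ∃ i1, i1 ≠ i0 := by
  by_contra hcon
  push Not at hcon
  have hs : Subsingleton ι := ⟨fun a b => (hcon a).trans (hcon b).symm⟩
  have h1 : Fintype.card ι = 1 := by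
    rw [Fintype.card_eq_one_iff]; exact ⟨i0, hcon⟩
  rw [Fm_eq, h1] at hF
  have h2 : ∑ i, ∑ j, ad (QB G B) i j = 0 := by
    apply Finset.sum_eq_zero; intro i _
    apply Finset.sum_eq_zero; intro j _
    rw [Subsingleton.elim i j, ad_self]
  rw [h2] at hF
  norm_num at hF

/-- a maximal `RR`-set inside `A` -/
lemma max_RR {A : Finset V} : ∀ (n : ℕ) (X : Finset V), X ⊆ A → RR G X → A.card = X.card + n →
    ∃ Y ⊆ A, RR G Y ∧ ∀ y ∈ A, y ∉ Y → dg G Y y < 2 := by
  intro n
  induction n with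
  | zero =>
    intro X hX hR hc
    refine ⟨X, hX, hR, fun y hy hyX => ?_⟩
    exact absurd (Finset.eq_of_subset_of_card_le hX (by omega) ▸ hy) hyX
  | succ n ih =>
    intro X hX hR hc
    by_cases hex : ∃ y ∈ A, y ∉ X ∧ 2 ≤ dg G X y
    · obtain ⟨y, hyA, hyX, hy2⟩ := hex
      refine ih (insert y X) (Finset.insert_subset hyA hX) (hR.insert hyX hy2) ?_
      rw [Finset.card_insert_of_notMem hyX]; omega
    · push Not at hex
      exact ⟨X, hX, hR, hex⟩

/-- case 3: all three in one part -/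
lemma case3 (h : Crit G S k) (hk : 2 ≤ k) {ι : Type} [Fintype ι] {B : ι → Finset V} {z : V}
    (hz : z ∈ S) (hcard : Fintype.card ι + 4 ≤ 5 * k) (hB : Mod G (S.erase z) B)
    (hF : 2 * (k : ℤ) - 2 ≤ Fm G B) (hspan : ∀ x ∈ S.erase z, ∃ i, x ∈ B i)
    {a b c : V} {i0 : ι} (ha : a ∈ B i0) (hb : b ∈ B i0) (hc : c ∈ B i0)
    (hza : G.Adj z a) (hzb : G.Adj z b) (hzc : G.Adj z c) (hab : G.Adj a b)
    (hac : G.Adj a c) (hbc : G.Adj b c) : False := by
  classical
  have hM : Mod G S (putP B i0 z) := hB.putP hz ha hza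
  set A := putP B i0 z i0 with hA
  have hA' : A = insert z (B i0) := putP_self _ _ _
  have hX0 : ({z, a, b, c} : Finset V) ⊆ A := by
    rw [hA']
    intro x hx
    simp only [Finset.mem_insert, Finset.mem_singleton] at hx
    rcases hx with rfl | rfl | rfl | rfl
    · exact Finset.mem_insert_self _ _
    · exact Finset.mem_insert_of_mem ha
    · exact Finset.mem_insert_of_mem hb
    · exact Finset.mem_insert_of_mem hc
  obtain ⟨Y, hYA, hRY, hYmax⟩ := max_RR (A.card - ({z, a, b, c} : Finset V).card)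
    _ hX0 (RR_K4 hab hac hbc hza hzb hzc)
    (by have := Finset.card_le_card hX0; omega)
  have hAS : A ⊆ S := hM.sub i0
  have hk' : (2 : ℤ) ≤ k := by exact_mod_cast hk
  have hYS : Y ≠ S := by
    rintro rfl
    obtain ⟨i1, hi1⟩ := exists_other (G := G) (B := B) (by linarith) i0
    obtain ⟨w, hw⟩ := (hB.conn i1).1
    have hwS := hB.sub i1 hw
    have hwA : w ∈ A := hYA (Finset.mem_of_mem_erase hwS)
    rw [hA'] at hwA
    rcases Finset.mem_insert.1 hwA with rfl | hw0
    · exact Finset.notMem_erase _ _ hwS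
    · exact hi1 (hB.eq_of_mem hw hw0)
  obtain ⟨y, hyS, hyY, hy2⟩ := h.grow1 (hYA.trans hAS) hYS hRY.conn
    (by have := hRY.card; omega)
  have hyA : y ∉ A := by
    intro hyA
    have := hYmax y hyA hyY
    omega
  have hyz : y ≠ z := by rintro rfl; exact hyA (by rw [hA']; exact Finset.mem_insert_self _ _)
  obtain ⟨i1, hi1⟩ := hspan y (Finset.mem_erase.2 ⟨hyz, hyS⟩)
  have h01 : i1 ≠ i0 := by
    rintro rfl
    exact hyA (by rw [hA']; exact Finset.mem_insert_of_mem hi1)
  obtain ⟨p, hpY, _, hyp⟩ := exists_nb_ne hy2 y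
  obtain ⟨q, hqY, hqp, hyq⟩ := exists_nb_ne hy2 p
  obtain ⟨K, hK, i, j, hij, hpi, hqj⟩ := hRY.sep p hpY q hqY hqp.symm
  have hKA : Mod G A K := (hK.mono hYA).1
  obtain ⟨K', hKK', hK'm, hK's⟩ := Mod.exists_spanning (hM.conn i0) hKA
  have hFK : Fm G K = 0 := hK.Fm
  have hFK' : Fm G K ≤ Fm G K' := F2_mono (QB_mono_fam G hKK') _
  have hFB' : Fm G B ≤ Fm G (putP B i0 z) := F2_mono (QB_mono_fam G (putP_sub B i0 z)) _
  have hext := Fm_refP_extra (G := G) (B := putP B i0 z) (i0 := i0) (K := K') hK's h01 (m := 1)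
    (by
      have := two_le_sum_tt (G := G) (C := putP B i0 z i1) hij (hKK' i hpi) (hKK' j hqj)
        (u := y) (by rw [putP_ne B z h01]; exact hi1) hyp hyq
      linarith)
  apply h.bad
  refine ⟨{i // i ≠ i0} ⊕ Fin 4, inferInstance, inferInstance, refP (putP B i0 z) i0 K', ?_,
    hM.refP hK'm, ?_⟩
  · have := card_refP (κ := Fin 4) i0
    rw [Fintype.card_fin] at this
    omega
  · linarith

/-- no vertex of degree three for `k ≥ 2` -/
lemma no_deg3 (h : Crit G S k) (hk : 2 ≤ k) {z : V} (hz : z ∈ S) (hd : dg G S z = 3) :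
    False := by
  classical
  obtain ⟨a, b, c, haS, hbS, hcS, -, -, -, hza, hzb, hzc, hab, hac, hbc⟩ := h.get3 hz hd
  obtain ⟨ι, i1, i2, B, hcard, hB, hF, hspan⟩ := h.model_erase hk hz hd
  obtain ⟨ia, hia⟩ := hspan a (Finset.mem_erase.2 ⟨hza.ne.symm, haS⟩)
  obtain ⟨ib, hib⟩ := hspan b (Finset.mem_erase.2 ⟨hzb.ne.symm, hbS⟩)
  obtain ⟨ic, hic⟩ := hspan c (Finset.mem_erase.2 ⟨hzc.ne.symm, hcS⟩)
  by_cases e1 : ia = ib
  · subst e1
    by_cases e2 : ic = ia
    · subst e2
      exact h.case3 hk hz hcard hB hF hspan hia hib hic hza hzb hzc hab hac hbc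
    · exact h.case2 hz hcard hB hF hia hib hic e2 hza hzb hzc hab hac hbc
  · by_cases e2 : ic = ia
    · subst e2
      exact h.case2 hz hcard hB hF hia hic hib (Ne.symm e1) hza hzc hzb hac hab hbc.symm
    · by_cases e3 : ic = ib
      · subst e3
        exact h.case2 hz hcard hB hF hib hic hia e1 hzb hzc hza hbc hab.symm hac.symm
      · exact h.case1 hz hcard hB hF hia hib hic e1 (Ne.symm e2) (Ne.symm e3) hza hzb hzc

/-! ### minimum degree at least four -/

lemma deg4 (h : Crit G S k) (hk : 2 ≤ k) {v : V} (hv : v ∈ S) : 4 ≤ dg G S v := by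
  have h1 := h.deg hv
  rcases lt_or_eq_of_le h1 with h2 | h2
  · omega
  · exact absurd (h.no_deg3 hk hv h2.symm) (fun h => h)

lemma excess_bound (h : Crit G S k) (hk : 2 ≤ k) {X0 : Finset V} (hX0 : X0 ⊆ S)
    (hc : Conn G X0) (h2 : 2 ≤ X0.card) (hcard : X0.card + 2 ≤ S.card) :
    F2 G X0 + 6 ≤ 2 * (k : ℤ) := by
  obtain ⟨X, r, y, hX, hP, hrS, hrX, hr2, hyS, hyX, hE⟩ :=
    h.last2 (P := fun X => Conn G X ∧ F2 G X0 ≤ F2 G X ∧ 2 ≤ X.card)
      (fun X _ hR => ⟨hR.1, hR.2.2⟩)
      (fun X y _ hR _ hy h2 => by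
        obtain ⟨p, hp, _, hyp⟩ := exists_nb_ne h2 y
        refine ⟨hR.1.insert hp hyp.symm, ?_, ?_⟩
        · rw [F2_insert G hy]; linarith [hR.2.1]
        · rw [Finset.card_insert_of_notMem hy]; linarith [hR.2.2]) hX0 ⟨hc, le_refl _, h2⟩ hcard
  obtain ⟨n1, n2, n3⟩ := h.last2_num hrX hyX hE
  have hF := h.F
  have hdr := h.deg4 hk hrS
  have hdy := h.deg4 hk hyS
  have had := ad_le_one G r y
  have := hP.2.1
  linarith

omit [DecidableEq V] in
lemma star_conn [DecidableEq V] {z : V} : ∀ N : Finset V, (∀ a ∈ N, G.Adj z a) →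
    Conn G (insert z N) := by
  intro N
  induction N using Finset.induction_on with
  | empty => intro _; exact Conn.singleton _ _
  | insert a N ha ih =>
    intro h
    have h1 := ih fun b hb => h b (Finset.mem_insert_of_mem hb)
    rw [Finset.insert_comm]
    exact h1.insert (Finset.mem_insert_self _ _) (h a (Finset.mem_insert_self _ _))

/-- data on the neighbourhood of a degree 4 vertex -/
lemma nbhd (h : Crit G S k) {z : V} (hz : z ∈ S) (hd : dg G S z = 4) :
    (nb G S z).card = 4 ∧ nb G S z ⊆ S ∧ z ∉ nb G S z ∧ Conn G (insert z (nb G S z)) ∧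
      F2 G (insert z (nb G S z)) = (∑ a ∈ nb G S z, ((nb G S z ∩ nb G S a).card : ℤ)) - 8 ∧
      ∀ a ∈ nb G S z, 2 ≤ (nb G S z ∩ nb G S a).card := by
  have hcard : (nb G S z).card = 4 := by
    have := dg_eq_nb G S z
    rw [hd] at this; exact_mod_cast this.symm
  have hsub : nb G S z ⊆ S := fun x hx => (mem_nb.1 hx).1
  have hzn : z ∉ nb G S z := fun hx => (mem_nb.1 hx).2.ne rfl
  refine ⟨hcard, hsub, hzn, star_conn _ fun a ha => (mem_nb.1 ha).2, ?_, ?_⟩
  · rw [F2_insert G hzn]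
    have h1 : dg G (nb G S z) z = 4 := by
      unfold dg
      rw [Finset.sum_congr rfl fun y hy => ad_of_adj (mem_nb.1 hy).2]
      simp [hcard]
    unfold F2 e2
    rw [h1, hcard]
    have h2 : ∀ a ∈ nb G S z, dg G (nb G S z) a = ((nb G S z ∩ nb G S a).card : ℤ) := by
      intro a _
      rw [dg_eq_nb]
      congr 2
      ext x
      rw [Finset.mem_inter, mem_nb, mem_nb, mem_nb]
      constructor
      · rintro ⟨h1, h2⟩; exact ⟨h1, h1.1, h2⟩
      · rintro ⟨h1, _, h2⟩; exact ⟨h1, h2⟩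
    rw [Finset.sum_congr rfl h2]
    push_cast; ring
  · intro a ha
    exact h.tri_nb hz (hsub ha) (mem_nb.1 ha).2

lemma no_k2 (h : Crit G S 2) : False := by
  classical
  obtain ⟨z, hzS, hz⟩ : ∃ z ∈ S, dg G S z = 4 := by
    by_contra hcon
    push Not at hcon
    have h1 := h.sum_deg
    have h2 : ∑ x ∈ S, (1 : ℤ) ≤ ∑ x ∈ S, (dg G S x - 4) := by
      apply Finset.sum_le_sum
      intro x hx
      have h3 := h.deg4 (by norm_num) hx
      have h4 := hcon x hx
      omega
    have h5 := h.big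
    rw [h1, Finset.sum_const, nsmul_eq_mul, mul_one] at h2
    push_cast at h2
    omega
  obtain ⟨hcard, hsub, hzn, hconn, hF, h2⟩ := h.nbhd hzS hz
  have hge : (8 : ℤ) ≤ ∑ a ∈ nb G S z, ((nb G S z ∩ nb G S a).card : ℤ) := by
    have : ∑ a ∈ nb G S z, (2 : ℤ) ≤ ∑ a ∈ nb G S z, ((nb G S z ∩ nb G S a).card : ℤ) :=
      Finset.sum_le_sum fun a ha => by exact_mod_cast h2 a ha
    rw [Finset.sum_const, hcard] at this
    simpa using this
  have hbig := h.big
  have hc5 : (insert z (nb G S z)).card = 5 := by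
    rw [Finset.card_insert_of_notMem hzn, hcard]
  have := h.excess_bound (by norm_num) (Finset.insert_subset hzS hsub) hconn (by omega)
    (by omega)
  push_cast at this
  linarith

/-- a degree 4 vertex all of whose neighbours have degree 4 -/
lemma exists_flat (h : Crit G S 3) : ∃ z ∈ S, dg G S z = 4 ∧ ∀ a ∈ nb G S z, dg G S a = 4 := by
  classical
  by_contra hcon
  push Not at hcon
  let Big := S.filter (fun x => 5 ≤ dg G S x)
  have hBS : Big ⊆ S := Finset.filter_subset _ _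
  have hs := h.sum_deg
  have hge : ∀ x ∈ S, 4 ≤ dg G S x := fun x hx => h.deg4 (by norm_num) hx
  have h1 : ∑ x ∈ Big, (dg G S x - 4) ≤ 2 := by
    have : ∑ x ∈ Big, (dg G S x - 4) ≤ ∑ x ∈ S, (dg G S x - 4) :=
      Finset.sum_le_sum_of_subset_of_nonneg hBS fun x hx _ => by
        have := hge x hx; linarith
    rw [hs] at this
    push_cast at this
    linarith
  have h2 : (Big.card : ℤ) ≤ 2 := by
    have : ∑ x ∈ Big, (1 : ℤ) ≤ ∑ x ∈ Big, (dg G S x - 4) :=
      Finset.sum_le_sum fun x hx => by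
        have := (Finset.mem_filter.1 hx).2; linarith
    rw [Finset.sum_const, nsmul_eq_mul, mul_one] at this
    linarith
  have h3 : ∑ x ∈ Big, dg G S x ≤ 10 := by
    have : ∑ x ∈ Big, (dg G S x - 4) = ∑ x ∈ Big, dg G S x - 4 * (Big.card : ℤ) := by
      rw [Finset.sum_sub_distrib]; simp; ring
    linarith
  have h4 : S ⊆ Big ∪ Big.biUnion (nb G S) := by
    intro z hz
    by_cases hzB : z ∈ Big
    · exact Finset.mem_union_left _ hzB
    · apply Finset.mem_union_right
      have hz4 : dg G S z = 4 := by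
        have h5 := hge z hz
        have h6 : ¬ 5 ≤ dg G S z := fun h' => hzB (Finset.mem_filter.2 ⟨hz, h'⟩)
        omega
      obtain ⟨a, ha, ha4⟩ := hcon z hz hz4
      rw [mem_nb] at ha
      refine Finset.mem_biUnion.2 ⟨a, Finset.mem_filter.2 ⟨ha.1, ?_⟩, mem_nb.2 ⟨hz, ha.2.symm⟩⟩
      have := hge a ha.1
      omega
  have h5 := Finset.card_le_card h4
  have h6 : (Big.biUnion (nb G S)).card ≤ ∑ x ∈ Big, (nb G S x).card := Finset.card_biUnion_le
  have h7 : ((∑ x ∈ Big, (nb G S x).card : ℕ) : ℤ) = ∑ x ∈ Big, dg G S x := by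
    push_cast
    exact Finset.sum_congr rfl fun x _ => (dg_eq_nb G S x).symm
  have h8 := Finset.card_union_le Big (Big.biUnion (nb G S))
  have h9 := h.big
  omega

lemma four_eq {A : Finset V} (hA : A.card = 4) {p q r s : V} (hp : p ∈ A) (hq : q ∈ A)
    (hr : r ∈ A) (hs : s ∈ A) (h1 : p ≠ q) (h2 : p ≠ r) (h3 : p ≠ s) (h4 : q ≠ r) (h5 : q ≠ s)
    (h6 : r ≠ s) : ∀ x ∈ A, x = p ∨ x = q ∨ x = r ∨ x = s := by
  have hsub : ({p, q, r, s} : Finset V) ⊆ A := by
    intro x hx
    simp only [Finset.mem_insert, Finset.mem_singleton] at hx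
    rcases hx with rfl | rfl | rfl | rfl <;> assumption
  have hcard : ({p, q, r, s} : Finset V).card = 4 := by
    rw [Finset.card_insert_of_notMem, Finset.card_insert_of_notMem, Finset.card_insert_of_notMem,
      Finset.card_singleton]
    · simpa using h6
    · simp [h4, h5]
    · simp [h1, h2, h3]
  have hE := Finset.eq_of_subset_of_card_le hsub (by omega)
  intro x hx
  rw [← hE] at hx
  simpa using hx

lemma no_k3 (h : Crit G S 3) : False := by
  classical
  obtain ⟨z, hzS, hz, hflat⟩ := h.exists_flat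
  obtain ⟨hcard, hsub, hzn, hconn, hF, h2⟩ := h.nbhd hzS hz
  have hbig := h.big
  have hc5 : (insert z (nb G S z)).card = 5 := by
    rw [Finset.card_insert_of_notMem hzn, hcard]
  have hbd := h.excess_bound (by norm_num) (Finset.insert_subset hzS hsub) hconn (by omega)
    (by omega)
  push_cast at hbd
  have hge : ∑ a ∈ nb G S z, (2 : ℤ) ≤ ∑ a ∈ nb G S z, ((nb G S z ∩ nb G S a).card : ℤ) :=
    Finset.sum_le_sum fun a ha => by exact_mod_cast h2 a ha
  have hge8 : ∑ a ∈ nb G S z, (2 : ℤ) = 8 := by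
    rw [Finset.sum_const, hcard]; norm_num
  have hF0 : F2 G (insert z (nb G S z)) = 0 := by linarith
  -- every neighbour has exactly two neighbours inside
  have htwo : ∀ a ∈ nb G S z, (nb G S z ∩ nb G S a).card = 2 := by
    intro a ha
    by_contra hne
    have hlt : ∑ a ∈ nb G S z, (2 : ℤ) < ∑ a ∈ nb G S z, ((nb G S z ∩ nb G S a).card : ℤ) := by
      apply Finset.sum_lt_sum
      · intro i hi; exact_mod_cast h2 i hi
      · refine ⟨a, ha, ?_⟩
        have := h2 a ha
        have h3 : 2 < (nb G S z ∩ nb G S a).card := by omega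
        exact_mod_cast h3
    linarith
  have hdeg : ∀ a ∈ nb G S z, (nb G S a).card = 4 := by
    intro a ha
    have := dg_eq_nb G S a
    rw [hflat a ha] at this; exact_mod_cast this.symm
  set N := nb G S z with hN
  have hNz : ∀ x ∈ N, G.Adj z x := fun x hx => (mem_nb.1 hx).2
  have hNS : ∀ x ∈ N, x ∈ S := hsub
  -- label the four-cycle
  obtain ⟨a, ha⟩ : N.Nonempty := Finset.card_pos.1 (by omega)
  obtain ⟨b, d, hbd', hbdE⟩ := Finset.card_eq_two.1 (htwo a ha)
  have hb1 : b ∈ N ∩ nb G S a := by rw [hbdE]; simp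
  have hd1 : d ∈ N ∩ nb G S a := by rw [hbdE]; simp
  rw [Finset.mem_inter] at hb1 hd1
  have hb := hb1.1
  have hd := hd1.1
  have hab : G.Adj a b := (mem_nb.1 hb1.2).2
  have had : G.Adj a d := (mem_nb.1 hd1.2).2
  have hcex : (((N.erase a).erase b).erase d).Nonempty := by
    apply Finset.card_pos.1
    rw [Finset.card_erase_of_mem, Finset.card_erase_of_mem, Finset.card_erase_of_mem ha, hcard]
    · norm_num
    · exact Finset.mem_erase.2 ⟨hab.ne.symm, hb⟩
    · exact Finset.mem_erase.2 ⟨hbd'.symm, Finset.mem_erase.2 ⟨had.ne.symm, hd⟩⟩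
  obtain ⟨c, hc⟩ := hcex
  simp only [Finset.mem_erase] at hc
  obtain ⟨hcd, hcb, hca, hcN⟩ := hc
  have hNfour := four_eq hcard ha hb hcN hd hab.ne (Ne.symm hca) had.ne (Ne.symm hcb) hbd' hcd
  have hac : ¬ G.Adj a c := by
    intro hac
    have : c ∈ N ∩ nb G S a := Finset.mem_inter.2 ⟨hcN, mem_nb.2 ⟨hNS c hcN, hac⟩⟩
    rw [hbdE] at this
    simp [hcb, hcd] at this
  -- c is adjacent to b and d
  have hcc : G.Adj c b ∧ G.Adj c d := by
    have hsub2 : N ∩ nb G S c ⊆ {b, d} := by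
      intro x hx
      rw [Finset.mem_inter] at hx
      have hx2 := (mem_nb.1 hx.2).2
      rcases hNfour x hx.1 with rfl | rfl | rfl | rfl
      · exact absurd hx2.symm hac
      · simp
      · exact absurd rfl hx2.ne
      · simp
    have hE := Finset.eq_of_subset_of_card_le hsub2 (by
      rw [htwo c hcN, Finset.card_pair hbd'])
    have e1 : b ∈ N ∩ nb G S c := by rw [hE]; simp
    have e2 : d ∈ N ∩ nb G S c := by rw [hE]; simp
    rw [Finset.mem_inter] at e1 e2
    exact ⟨(mem_nb.1 e1.2).2, (mem_nb.1 e2.2).2⟩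
  obtain ⟨hcb', hcd'⟩ := hcc
  have hnbd : ¬ G.Adj b d := by
    intro hbd2
    have hsub3 : ({a, c, d} : Finset V) ⊆ N ∩ nb G S b := by
      intro x hx
      simp only [Finset.mem_insert, Finset.mem_singleton] at hx
      rw [Finset.mem_inter]
      rcases hx with rfl | rfl | rfl
      · exact ⟨ha, mem_nb.2 ⟨hNS _ ha, hab.symm⟩⟩
      · exact ⟨hcN, mem_nb.2 ⟨hNS _ hcN, hcb'.symm⟩⟩
      · exact ⟨hd, mem_nb.2 ⟨hNS _ hd, hbd2⟩⟩
    have hc3 : ({a, c, d} : Finset V).card = 3 := by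
      rw [Finset.card_insert_of_notMem (by simp [Ne.symm hca, had.ne]), Finset.card_pair hcd]
    have := Finset.card_le_card hsub3
    rw [htwo b hb] at this
    omega
  -- common outside neighbour
  obtain ⟨w, hw, hwz⟩ := Finset.exists_mem_ne
    (show 1 < (nb G S a ∩ nb G S b).card from h.tri_nb (hNS a ha) (hNS b hb) hab) z
  rw [Finset.mem_inter, mem_nb, mem_nb] at hw
  obtain ⟨⟨hwS, haw⟩, -, hbw⟩ := hw
  have hwN : w ∉ N := by
    intro hwN
    rcases hNfour w hwN with rfl | rfl | rfl | rfl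
    · exact haw.ne rfl
    · exact hbw.ne rfl
    · exact hac haw
    · exact hnbd hbw
  have hwa : w ≠ a := by rintro rfl; exact hwN ha
  have hwb : w ≠ b := by rintro rfl; exact hwN hb
  have hwc : w ≠ c := by rintro rfl; exact hwN hcN
  have hwd : w ≠ d := by rintro rfl; exact hwN hd
  have hza : z ≠ a := (hNz a ha).ne
  have hzb : z ≠ b := (hNz b hb).ne
  have hzc : z ≠ c := (hNz c hcN).ne
  have hzd : z ≠ d := (hNz d hd).ne
  -- neighbours of b
  have hNb := four_eq (hdeg b hb) (p := z) (q := a) (r := c) (s := w)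
    (mem_nb.2 ⟨hzS, (hNz b hb).symm⟩) (mem_nb.2 ⟨hNS a ha, hab.symm⟩)
    (mem_nb.2 ⟨hNS c hcN, hcb'.symm⟩) (mem_nb.2 ⟨hwS, hbw⟩) hza hzc (Ne.symm hwz)
    (Ne.symm hca) (Ne.symm hwa) (Ne.symm hwc)
  -- w adjacent to c
  have hcw : G.Adj c w := by
    obtain ⟨w', hw', hwz'⟩ := Finset.exists_mem_ne
      (show 1 < (nb G S b ∩ nb G S c).card from h.tri_nb (hNS b hb) (hNS c hcN) hcb'.symm) z
    rw [Finset.mem_inter] at hw'
    have hcw' := (mem_nb.1 hw'.2).2
    rcases hNb w' hw'.1 with rfl | rfl | rfl | rfl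
    · exact absurd rfl hwz'
    · exact absurd hcw'.symm hac
    · exact absurd rfl hcw'.ne
    · exact hcw'
  have hNc := four_eq (hdeg c hcN) (p := z) (q := b) (r := d) (s := w)
    (mem_nb.2 ⟨hzS, (hNz c hcN).symm⟩) (mem_nb.2 ⟨hNS b hb, hcb'⟩)
    (mem_nb.2 ⟨hNS d hd, hcd'⟩) (mem_nb.2 ⟨hwS, hcw⟩) hzb hzd (Ne.symm hwz)
    hbd' (Ne.symm hwb) (Ne.symm hwd)
  have hdw : G.Adj d w := by
    obtain ⟨w', hw', hwz'⟩ := Finset.exists_mem_ne
      (show 1 < (nb G S c ∩ nb G S d).card from h.tri_nb (hNS c hcN) (hNS d hd) hcd') z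
    rw [Finset.mem_inter] at hw'
    have hdw' := (mem_nb.1 hw'.2).2
    rcases hNc w' hw'.1 with rfl | rfl | rfl | rfl
    · exact absurd rfl hwz'
    · exact absurd hdw'.symm hnbd
    · exact absurd rfl hdw'.ne
    · exact hdw'
  have hNa := four_eq (hdeg a ha) (p := z) (q := b) (r := d) (s := w)
    (mem_nb.2 ⟨hzS, (hNz a ha).symm⟩) (mem_nb.2 ⟨hNS b hb, hab⟩)
    (mem_nb.2 ⟨hNS d hd, had⟩) (mem_nb.2 ⟨hwS, haw⟩) hzb hzd (Ne.symm hwz)
    hbd' (Ne.symm hwb) (Ne.symm hwd)
  have hNd := four_eq (hdeg d hd) (p := z) (q := a) (r := c) (s := w)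
    (mem_nb.2 ⟨hzS, (hNz d hd).symm⟩) (mem_nb.2 ⟨hNS a ha, had.symm⟩)
    (mem_nb.2 ⟨hNS c hcN, hcd'.symm⟩) (mem_nb.2 ⟨hwS, hdw⟩) hza hzc (Ne.symm hwz)
    (Ne.symm hca) (Ne.symm hwa) (Ne.symm hwc)
  -- the octahedron
  have hwX : w ∉ insert z N := by
    rw [Finset.mem_insert]; rintro (h' | h')
    · exact hwz h'
    · exact hwN h'
  have hX1S : insert w (insert z N) ⊆ S :=
    Finset.insert_subset hwS (Finset.insert_subset hzS hsub)
  have hX1c : Conn G (insert w (insert z N)) :=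
    hconn.insert (Finset.mem_insert_of_mem ha) haw
  have hX1card : (insert w (insert z N)).card = 6 := by
    rw [Finset.card_insert_of_notMem hwX, hc5]
  obtain ⟨y, hyS, hyX, hy2⟩ := h.grow1 hX1S (by
    intro hE; rw [hE] at hX1card; omega) hX1c (by omega)
  obtain ⟨u, huX, huw, hyu⟩ := exists_nb_ne hy2 w
  have hyX' : ∀ x, x = w ∨ x = z ∨ x ∈ N → y ≠ x := by
    rintro x hx rfl
    apply hyX
    rw [Finset.mem_insert, Finset.mem_insert]
    exact hx
  rw [Finset.mem_insert, Finset.mem_insert] at huX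
  rcases huX with h' | h' | h'
  · exact huw h'
  · subst h'
    have : y ∈ N := mem_nb.2 ⟨hyS, hyu.symm⟩
    exact hyX' y (Or.inr (Or.inr this)) rfl
  · have hyNu : y ∈ nb G S u := mem_nb.2 ⟨hyS, hyu.symm⟩
    rcases hNfour u h' with rfl | rfl | rfl | rfl
    · rcases hNa y hyNu with rfl | rfl | rfl | rfl
      · exact hyX' _ (Or.inr (Or.inl rfl)) rfl
      · exact hyX' _ (Or.inr (Or.inr hb)) rfl
      · exact hyX' _ (Or.inr (Or.inr hd)) rfl
      · exact hyX' _ (Or.inl rfl) rfl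
    · rcases hNb y hyNu with rfl | rfl | rfl | rfl
      · exact hyX' _ (Or.inr (Or.inl rfl)) rfl
      · exact hyX' _ (Or.inr (Or.inr ha)) rfl
      · exact hyX' _ (Or.inr (Or.inr hcN)) rfl
      · exact hyX' _ (Or.inl rfl) rfl
    · rcases hNc y hyNu with rfl | rfl | rfl | rfl
      · exact hyX' _ (Or.inr (Or.inl rfl)) rfl
      · exact hyX' _ (Or.inr (Or.inr hb)) rfl
      · exact hyX' _ (Or.inr (Or.inr hd)) rfl
      · exact hyX' _ (Or.inl rfl) rfl
    · rcases hNd y hyNu with rfl | rfl | rfl | rfl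
      · exact hyX' _ (Or.inr (Or.inl rfl)) rfl
      · exact hyX' _ (Or.inr (Or.inr ha)) rfl
      · exact hyX' _ (Or.inr (Or.inr hcN)) rfl
      · exact hyX' _ (Or.inl rfl) rfl

end Crit

/-- The structure theorem: for `k = 1, 2, 3`, excess at least `k` gives a minor with at most
`5 k + 1` vertices and excess at least `k`. -/
theorem structure_thm (k : ℕ) : 1 ≤ k → k ≤ 3 → ∀ (G : SimpleGraph V) (S : Finset V),
    S.Nonempty → 2 * (k : ℤ) ≤ F2 G S → Good G S k := by
  induction k using Nat.strong_induction_on with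
  | _ k ihk =>
    intro hk1 hk3
    suffices hmain : ∀ (n : ℕ) (G : SimpleGraph V) (S : Finset V), S.card = n → S.Nonempty →
        2 * (k : ℤ) ≤ F2 G S → Good G S k from fun G S hn hF => hmain _ G S rfl hn hF
    intro n
    induction n using Nat.strong_induction_on with
    | _ n ihn =>
      intro G S hcard hn hF
      by_cases hsmall : S.card ≤ 5 * k + 1
      · exact Good.of_card hn hsmall hF
      obtain ⟨G', hG', hF'⟩ := exists_exact hn (m := 2 * (k : ℤ)) (by positivity)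
        (even_two_mul _) (F2 G S - 2 * (k : ℤ)).toNat G (by
          rw [Int.toNat_of_nonneg (by linarith)]; ring)
      by_contra hbad
      have hcrit : Crit G' S k := by
        refine ⟨hk1, hk3, hF', by omega, fun hg => hbad (hg.mono_graph hG'), ?_, ?_⟩
        · intro G'' S'' hn'' hlt hF''
          exact ihn S''.card (by omega) G'' S'' rfl hn'' hF''
        · intro j hj1 hjk G'' S'' hn'' hF''
          exact ihk j hjk hj1 (by omega) G'' S'' hn'' hF''
      have hk : k = 1 ∨ k = 2 ∨ k = 3 := by omega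
      rcases hk with rfl | rfl | rfl
      · exact hcrit.no_k1
      · exact hcrit.no_k2
      · exact hcrit.no_k3

end

end E95
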