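import Pool.Agent.E95.Defs
import Pool.Agent.E95.Main2

/-!
Helper file for MP_e95e88_co: minors, excluded minors, edge counts.
-/

namespace E95

open Finset

noncomputable section

/-! ### cut connectivity for sets -/

/-- every cut of the nonempty set `S` is crossed by an edge -/
def CSet {V : Type} (G : SimpleGraph V) (S : Set V) : Prop :=
  S.Nonempty ∧ ∀ T ⊆ S, T.Nonempty → T ≠ S → ∃ u ∈ T, ∃ v ∈ S, v ∉ T ∧ G.Adj u v

lemma CSet_iff {V : Type} (G : SimpleGraph V) (S : Set V) :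
    CSet G S ↔ (G.induce S).Connected := by
  constructor
  · rintro ⟨⟨x0, hx0⟩, h⟩
    have hpre : (G.induce S).Preconnected := by
      intro x y
      let T : Set V := {z | ∃ hz : z ∈ S, (G.induce S).Reachable x ⟨z, hz⟩}
      have hT : T ⊆ S := fun z hz => hz.1
      by_cases hTS : T = S
      · have : y.1 ∈ T := by rw [hTS]; exact y.2
        obtain ⟨hz, hr⟩ := this
        exact hr
      · exfalso
        obtain ⟨u, ⟨huS, hur⟩, v, hv, hvT, huv⟩ :=
          h T hT ⟨x.1, x.2, SimpleGraph.Reachable.refl _⟩ hTS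
        apply hvT
        refine ⟨hv, hur.trans ?_⟩
        apply SimpleGraph.Adj.reachable
        exact huv
    have : Nonempty S := ⟨⟨x0, hx0⟩⟩
    exact ⟨hpre⟩
  · intro h
    refine ⟨?_, ?_⟩
    · obtain ⟨x⟩ := h.nonempty
      exact ⟨x.1, x.2⟩
    · intro T hT hn hne
      obtain ⟨a, ha⟩ := hn
      have hex : ∃ b ∈ S, b ∉ T := by
        by_contra hcon
        push Not at hcon
        exact hne (hT.antisymm hcon)
      obtain ⟨b, hb, hbT⟩ := hex
      obtain ⟨p⟩ := h.preconnected ⟨a, hT ha⟩ ⟨b, hb⟩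
      obtain ⟨d, _, hd1, hd2⟩ := p.exists_boundary_dart {x : S | x.1 ∈ T} ha hbT
      exact ⟨d.fst.1, hd1, d.snd.1, d.snd.2, hd2, d.adj⟩

lemma CSet_univ {V : Type} (G : SimpleGraph V) : CSet G Set.univ ↔ G.Connected := by
  rw [CSet_iff]
  exact SimpleGraph.Iso.connected_iff (SimpleGraph.induceUnivIso G)

lemma Conn_iff_CSet {V : Type} (G : SimpleGraph V) (S : Finset V) :
    Conn G S ↔ CSet G (S : Set V) := by
  classical
  constructor
  · rintro ⟨hn, h⟩
    refine ⟨by simpa using hn, fun T hT hTn hne => ?_⟩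
    have h1 : S.filter (· ∈ T) ≠ S := by
      intro hE
      apply hne
      apply hT.antisymm
      intro x hx
      have : x ∈ S.filter (· ∈ T) := by rw [hE]; exact hx
      exact (Finset.mem_filter.1 this).2
    obtain ⟨x, hx⟩ := hTn
    obtain ⟨u, hu, v, hv, hvT, huv⟩ := h (S.filter (· ∈ T)) (Finset.filter_subset _ _)
      ⟨x, Finset.mem_filter.2 ⟨hT hx, hx⟩⟩ h1
    exact ⟨u, (Finset.mem_filter.1 hu).2, v, hv, fun hvT' =>
      hvT (Finset.mem_filter.2 ⟨hv, hvT'⟩), huv⟩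
  · rintro ⟨hn, h⟩
    refine ⟨by simpa using hn, fun T hT hTn hne => ?_⟩
    obtain ⟨u, hu, v, hv, hvT, huv⟩ := h (T : Set V) (by exact_mod_cast hT)
      (by exact_mod_cast hTn) (by exact_mod_cast hne)
    exact ⟨u, hu, v, hv, hvT, huv⟩

lemma CSet.biUnion {V W : Type} {G : SimpleGraph V} {H : SimpleGraph W}
    {T : Set W} (hT : CSet H T) {C : W → Set V} (hC : ∀ w ∈ T, CSet G (C w))
    (hadj : ∀ x ∈ T, ∀ y ∈ T, H.Adj x y → ∃ u ∈ C x, ∃ v ∈ C y, G.Adj u v) :
    CSet G (⋃ w ∈ T, C w) := by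
  constructor
  · obtain ⟨w, hw⟩ := hT.1
    obtain ⟨v, hv⟩ := (hC w hw).1
    exact ⟨v, Set.mem_biUnion hw hv⟩
  intro U hU hn hne
  by_cases h : ∃ w ∈ T, (∃ x ∈ C w, x ∈ U) ∧ ∃ x ∈ C w, x ∉ U
  · obtain ⟨w, hw, ⟨x, hx, hxU⟩, z, hz, hzU⟩ := h
    obtain ⟨a, ha, b, hb, hbT, hab⟩ := (hC w hw).2 (C w ∩ U)
      Set.inter_subset_left ⟨x, hx, hxU⟩ (by
        intro hE
        have : z ∈ C w ∩ U := by rw [hE]; exact hz
        exact hzU this.2)
    exact ⟨a, ha.2, b, Set.mem_biUnion hw hb, fun hbU => hbT ⟨hb, hbU⟩, hab⟩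
  · push Not at h
    let T' : Set W := {w | w ∈ T ∧ C w ⊆ U}
    have hT' : T' ⊆ T := fun w hw => hw.1
    have hn' : T'.Nonempty := by
      obtain ⟨x, hx⟩ := hn
      obtain ⟨w, hw, hxw⟩ := Set.mem_iUnion₂.1 (hU hx)
      exact ⟨w, hw, fun y hy => h w hw ⟨x, hxw, hx⟩ y hy⟩
    have hne' : T' ≠ T := by
      intro hE
      apply hne
      apply hU.antisymm
      intro x hx
      obtain ⟨w, hw, hxw⟩ := Set.mem_iUnion₂.1 hx
      rw [← hE] at hw
      exact hw.2 hxw
    obtain ⟨a, ha, b, hb, hbT, hab⟩ := hT.2 T' hT' hn' hne'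
    obtain ⟨u, hu, v, hv, huv⟩ := hadj a (hT' ha) b hb hab
    refine ⟨u, ha.2 hu, v, Set.mem_biUnion hb hv, ?_, huv⟩
    intro hvU
    exact hbT ⟨hb, fun y hy => h b hb ⟨v, hv, hvU⟩ y hy⟩

lemma CSet.image {V V' : Type} {G : SimpleGraph V} {G' : SimpleGraph V'} {S : Set V}
    (hS : CSet G S) (ρ : V → V')
    (hρ : ∀ x y, G.Adj x y → ρ x = ρ y ∨ G'.Adj (ρ x) (ρ y)) : CSet G' (ρ '' S) := by
  refine ⟨hS.1.image ρ, fun T hT hn hne => ?_⟩
  have h1 : S ∩ ρ ⁻¹' T ≠ S := by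
    intro hE
    apply hne
    apply hT.antisymm
    rintro _ ⟨x, hx, rfl⟩
    rw [← hE] at hx
    exact hx.2
  obtain ⟨t, ht⟩ := hn
  obtain ⟨x, hx, rfl⟩ := hT ht
  obtain ⟨u, hu, v, hv, hvT, huv⟩ := hS.2 (S ∩ ρ ⁻¹' T) Set.inter_subset_left
    ⟨x, hx, ht⟩ h1
  have hvT' : ρ v ∉ T := fun h => hvT ⟨hv, h⟩
  refine ⟨ρ u, hu.2, ρ v, ⟨v, hv, rfl⟩, hvT', ?_⟩
  rcases hρ u v huv with h | h
  · exact absurd (h ▸ hu.2) hvT'
  · exact h

/-! ### minors -/

lemma IsMinor_iff {W V : Type} (H : SimpleGraph W) (G : SimpleGraph V) :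
    IsMinor H G ↔ ∃ B : W → Set V, (∀ w, CSet G (B w)) ∧
      (∀ w w', w ≠ w' → Disjoint (B w) (B w')) ∧
      (∀ w w', H.Adj w w' → ∃ x ∈ B w, ∃ y ∈ B w', G.Adj x y) := by
  unfold IsMinor
  simp only [CSet_iff]

lemma IsMinor.trans {U W V : Type} {K : SimpleGraph U} {H : SimpleGraph W} {G : SimpleGraph V}
    (h1 : IsMinor K H) (h2 : IsMinor H G) : IsMinor K G := by
  rw [IsMinor_iff] at *
  obtain ⟨B, hB1, hB2, hB3⟩ := h1
  obtain ⟨C, hC1, hC2, hC3⟩ := h2
  refine ⟨fun u => ⋃ w ∈ B u, C w, ?_, ?_, ?_⟩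
  · intro u
    exact CSet.biUnion (hB1 u) (fun w _ => hC1 w) (fun x _ y _ hxy => hC3 x y hxy)
  · intro u u' hne
    rw [Set.disjoint_left]
    intro x hx hx'
    obtain ⟨w, hw, hxw⟩ := Set.mem_iUnion₂.1 hx
    obtain ⟨w', hw', hxw'⟩ := Set.mem_iUnion₂.1 hx'
    by_cases hww : w = w'
    · subst hww
      exact Set.disjoint_left.1 (hB2 u u' hne) hw hw'
    · exact Set.disjoint_left.1 (hC2 w w' hww) hxw hxw'
  · intro u u' huu
    obtain ⟨w, hw, w', hw', hww⟩ := hB3 u u' huu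
    obtain ⟨x, hx, y, hy, hxy⟩ := hC3 w w' hww
    exact ⟨x, Set.mem_biUnion hw hx, y, Set.mem_biUnion hw' hy, hxy⟩

lemma CSet.singleton {V : Type} (G : SimpleGraph V) (v : V) : CSet G {v} := by
  have := (Conn_iff_CSet G {v}).1 (Conn.singleton G v)
  simpa using this

lemma IsMinor.of_inj {W V : Type} {H : SimpleGraph W} {G : SimpleGraph V} (f : W → V)
    (hf : Function.Injective f) (h : ∀ x y, H.Adj x y → G.Adj (f x) (f y)) : IsMinor H G := by
  rw [IsMinor_iff]
  refine ⟨fun w => {f w}, fun w => CSet.singleton _ _, ?_, ?_⟩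
  · intro w w' hne
    rw [Set.disjoint_singleton]
    exact fun h => hne (hf h)
  · intro w w' hww
    exact ⟨f w, rfl, f w', rfl, h w w' hww⟩

lemma IsMinor.refl {V : Type} (G : SimpleGraph V) : IsMinor G G :=
  IsMinor.of_inj id Function.injective_id fun _ _ h => h

lemma IsMinor.of_iso {W V : Type} {H : SimpleGraph W} {G : SimpleGraph V} (e : H ≃g G) :
    IsMinor H G :=
  IsMinor.of_inj e e.injective fun _ _ h => e.map_rel_iff.2 h

/-- representatives of the branch sets -/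
lemma IsMinor.reps {W V : Type} {H : SimpleGraph W} {G : SimpleGraph V} (h : IsMinor H G) :
    ∃ (B : W → Set V) (π : W → V), (∀ w, CSet G (B w)) ∧
      (∀ w w', w ≠ w' → Disjoint (B w) (B w')) ∧
      (∀ w w', H.Adj w w' → ∃ x ∈ B w, ∃ y ∈ B w', G.Adj x y) ∧
      (∀ w, π w ∈ B w) ∧ Function.Injective π := by
  rw [IsMinor_iff] at h
  obtain ⟨B, h1, h2, h3⟩ := h
  choose π hπ using fun w => (h1 w).1
  refine ⟨B, π, h1, h2, h3, hπ, ?_⟩
  intro w w' hww
  by_contra hne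
  exact Set.disjoint_left.1 (h2 w w' hne) (hπ w) (hww ▸ hπ w')

lemma IsMinor.card_le {m n : ℕ} {H : SimpleGraph (Fin (m + 1))} {G : SimpleGraph (Fin (n + 1))}
    (h : IsMinor H G) : m ≤ n := by
  obtain ⟨B, π, -, -, -, -, hinj⟩ := h.reps
  have := Fintype.card_le_of_injective π hinj
  simpa using this

/-! ### edge counts -/

lemma e2_univ {n : ℕ} (G : SimpleGraph (Fin (n + 1))) :
    e2 G univ = 2 * (G.edgeSet.ncard : ℤ) := by
  classical
  have h1 := G.sum_degrees_eq_twice_card_edges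
  have h2 : G.edgeSet.ncard = G.edgeFinset.card := by
    rw [Set.ncard_eq_toFinset_card', SimpleGraph.edgeFinset]
  have h3 : e2 G univ = ((∑ v, G.degree v : ℕ) : ℤ) := by
    unfold e2
    push_cast
    apply Finset.sum_congr rfl
    intro v _
    rw [dg_eq_card]
    congr 1
    rw [← SimpleGraph.card_neighborFinset_eq_degree]
    congr 1
    ext w
    simp
  rw [h3, h1, h2]
  push_cast; ring

lemma density_eq {n : ℕ} (G : SimpleGraph (Fin (n + 1))) :
    density G = (e2 G univ : ℝ) / (2 * ((n : ℝ) + 1)) := by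
  rw [e2_univ]
  unfold density
  push_cast
  have : (n : ℝ) + 1 ≠ 0 := by positivity
  field_simp

lemma e2_iso {V W : Type} [Fintype V] [Fintype W] {G : SimpleGraph V} {H : SimpleGraph W}
    (e : G ≃g H) : e2 G univ = e2 H univ := by
  unfold e2 dg
  apply Fintype.sum_equiv e.toEquiv
  intro x
  apply Fintype.sum_equiv e.toEquiv
  intro y
  exact ad_congr (e.map_rel_iff).symm

lemma e2_le_card {V : Type} (G : SimpleGraph V) (S : Finset V) :
    e2 G S ≤ (S.card : ℤ) * ((S.card : ℤ) - 1) := by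
  classical
  unfold e2
  have : ∀ x ∈ S, dg G S x ≤ (S.card : ℤ) - 1 := by
    intro x hx
    rw [← dg_self G hx]
    unfold dg
    have h1 : ∑ y ∈ S.erase x, ad G x y ≤ ∑ y ∈ S.erase x, (1 : ℤ) :=
      Finset.sum_le_sum fun y _ => ad_le_one _ _ _
    rw [Finset.sum_const, Finset.card_erase_of_mem hx, nsmul_eq_mul, mul_one] at h1
    have h2 : 1 ≤ S.card := Finset.card_pos.2 ⟨x, hx⟩
    push_cast [Nat.cast_sub h2] at h1
    exact h1
  calc ∑ x ∈ S, dg G S x ≤ ∑ x ∈ S, ((S.card : ℤ) - 1) := Finset.sum_le_sum this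
    _ = _ := by rw [Finset.sum_const, nsmul_eq_mul]

/-- moving a graph to `Fin` -/
lemma exists_fin {V : Type} [Fintype V] [Nonempty V] (G : SimpleGraph V) :
    ∃ (m : ℕ) (H : SimpleGraph (Fin (m + 1))), m + 1 = Fintype.card V ∧ Nonempty (H ≃g G) := by
  have hpos : 0 < Fintype.card V := Fintype.card_pos
  obtain ⟨m, hm⟩ : ∃ m, Fintype.card V = m + 1 := ⟨Fintype.card V - 1, by omega⟩
  let e : Fin (m + 1) ≃ V := (Fintype.equivFinOfCardEq hm).symm
  exact ⟨m, G.comap e, hm.symm, ⟨SimpleGraph.Iso.comap e G⟩⟩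

/-- from small models to small minors -/
lemma exists_small_minor {n k : ℕ} (G : SimpleGraph (Fin (n + 1))) (hk1 : 1 ≤ k) (hk3 : k ≤ 3)
    (hF : 2 * (k : ℤ) ≤ F2 G univ) :
    ∃ (m : ℕ) (H : SimpleGraph (Fin (m + 1))), m ≤ 5 * k ∧ IsMinor H G ∧
      2 * (k : ℤ) ≤ e2 H univ - 4 * m := by
  classical
  obtain ⟨ι, i1, i2, B, hc, hB, hFB⟩ := structure_thm k hk1 hk3 G univ univ_nonempty hF
  obtain ⟨m, H, hm, ⟨e⟩⟩ := exists_fin (QB G B)
  refine ⟨m, H, by omega, ?_, ?_⟩
  · refine (IsMinor.of_iso e).trans ?_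
    rw [IsMinor_iff]
    refine ⟨fun i => (B i : Set _), fun i => (Conn_iff_CSet _ _).1 (hB.conn i), ?_, ?_⟩
    · intro i j hij
      exact Finset.disjoint_coe.2 (hB.disj i j hij)
    · intro i j hij
      exact hij.2
  · have h1 : Fm G B = e2 H univ - 4 * (m + 1) + 4 := by
      unfold Fm F2
      rw [e2_iso e, Finset.card_univ, ← hm]
      push_cast; ring
    rw [h1] at hFB
    linarith

/-- a spanning minor with as many vertices -/
lemma IsMinor.same_card {n : ℕ} {H G : SimpleGraph (Fin (n + 1))} (h : IsMinor H G) :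
    ∃ π : Fin (n + 1) ≃ Fin (n + 1), ∀ i j, H.Adj i j → G.Adj (π i) (π j) := by
  obtain ⟨B, π, -, h2, h3, h4, hinj⟩ := h.reps
  have hsurj : Function.Surjective π := Finite.surjective_of_injective hinj
  have hB : ∀ i x, x ∈ B i → x = π i := by
    intro i x hx
    obtain ⟨j, rfl⟩ := hsurj x
    by_contra hne
    have hij : i ≠ j := by rintro rfl; exact hne rfl
    exact Set.disjoint_left.1 (h2 i j hij) hx (h4 j)
  refine ⟨Equiv.ofBijective π ⟨hinj, hsurj⟩, ?_⟩
  intro i j hij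
  obtain ⟨x, hx, y, hy, hxy⟩ := h3 i j hij
  rw [hB i x hx, hB j y hy] at hxy
  exact hxy

lemma e2_le_of_equiv {n : ℕ} {H G : SimpleGraph (Fin (n + 1))}
    (π : Fin (n + 1) ≃ Fin (n + 1)) (h : ∀ i j, H.Adj i j → G.Adj (π i) (π j)) :
    e2 H univ ≤ e2 G univ := by
  have h1 : e2 G univ = e2 (G.comap π) univ := e2_iso (SimpleGraph.Iso.comap π G).symm
  rw [h1]
  exact e2_mono (fun i j hij => h i j hij) _

lemma iso_of_equiv {n : ℕ} {H G : SimpleGraph (Fin (n + 1))}
    (π : Fin (n + 1) ≃ Fin (n + 1)) (h : ∀ i j, H.Adj i j → G.Adj (π i) (π j))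
    (he : e2 G univ ≤ e2 H univ) : Nonempty (H ≃g G) := by
  have h1 : e2 G univ = e2 (G.comap π) univ := e2_iso (SimpleGraph.Iso.comap π G).symm
  have hle : H ≤ G.comap π := fun i j hij => h i j hij
  suffices hE : H = G.comap π by
    rw [hE]; exact ⟨SimpleGraph.Iso.comap π G⟩
  apply le_antisymm hle
  intro i j hij
  by_contra hnot
  have hlt : e2 H univ < e2 (G.comap π) univ := by
    unfold e2
    apply Finset.sum_lt_sum
    · intro x _
      exact Finset.sum_le_sum fun y _ => ad_mono hle x y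
    · refine ⟨i, Finset.mem_univ _, ?_⟩
      unfold dg
      apply Finset.sum_lt_sum
      · intro y _; exact ad_mono hle i y
      · refine ⟨j, Finset.mem_univ _, ?_⟩
        rw [ad_of_not hnot, ad_of_adj hij]; norm_num
  linarith

/-- existence of an excluded minor below a nonmember -/
lemma exists_excluded {A : GraphClass} {V : Type} (G : SimpleGraph V) :
    ∀ (n : ℕ) (e : ℕ) (X : SimpleGraph (Fin (n + 1))), IsMinor X G → ¬ A n X →
      e2 X univ = e → ∃ (m : ℕ) (Y : SimpleGraph (Fin (m + 1))), IsMinor Y G ∧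
        IsExcludedMinor A m Y := by
  intro n
  induction n using Nat.strong_induction_on with
  | _ n ihn =>
    intro e
    induction e using Nat.strong_induction_on with
    | _ e ihe =>
      intro X hX hA he
      by_cases hex : IsExcludedMinor A n X
      · exact ⟨n, X, hX, hex⟩
      unfold IsExcludedMinor at hex
      push Not at hex
      obtain ⟨m, H, hH, hiso, hHA⟩ := hex hA
      rcases lt_or_eq_of_le hH.card_le with hlt | heq
      · exact ihn m hlt (e2 H univ).toNat H (hH.trans hX) hHA (by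
          rw [Int.toNat_of_nonneg]
          exact Finset.sum_nonneg fun _ _ => dg_nonneg _ _ _)
      · subst heq
        obtain ⟨π, hπ⟩ := hH.same_card
        have h1 := e2_le_of_equiv π hπ
        have h2 : e2 H univ ≠ e2 X univ := by
          intro h
          have := iso_of_equiv π hπ h.ge
          exact not_nonempty_iff.2 hiso this
        have hnn : 0 ≤ e2 H univ := Finset.sum_nonneg fun _ _ => dg_nonneg _ _ _
        refine ihe (e2 H univ).toNat (by omega) H (hH.trans hX) hHA ?_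
        rw [Int.toNat_of_nonneg hnn]

end

end E95
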