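import Pool.Agent.E95.Basic

/-!
Helper file for MP_e95e88_co: extension and refinement of families of branch sets.
-/

namespace E95

open Finset

noncomputable section

variable {V : Type} [DecidableEq V]

omit [DecidableEq V] in
lemma Fm_eq {ι : Type} [Fintype ι] (G : SimpleGraph V) (B : ι → Finset V) :
    Fm G B = (∑ i, ∑ j, ad (QB G B) i j) - 4 * (Fintype.card ι : ℤ) + 4 := by
  unfold Fm F2 e2 dg
  rw [Finset.card_univ]

omit [DecidableEq V] in
/-- the trivial model -/
lemma Good.of_card {G : SimpleGraph V} {S : Finset V} {k : ℕ} (hn : S.Nonempty)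
    (hc : S.card ≤ 5 * k + 1) (hF : 2 * (k : ℤ) ≤ F2 G S) : Good G S k := by
  obtain ⟨v, hv⟩ := hn
  refine ⟨S, inferInstance, ⟨⟨v, hv⟩⟩, fun s => {s.1}, by simpa using hc, ⟨?_, ?_, ?_⟩, ?_⟩
  · intro i; simp
  · intro i; exact Conn.singleton _ _
  · intro i j hij
    rw [Finset.disjoint_singleton]
    intro h; exact hij (Subtype.ext h)
  · rw [Fm_eq]
    have h1 : ∀ i j : S, ad (QB G (fun s : S => ({s.1} : Finset V))) i j = ad G i.1 j.1 := by
      intro i j
      unfold ad
      classical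
      refine if_congr ?_ rfl rfl
      unfold QB
      simp only [Finset.mem_singleton]
      constructor
      · rintro ⟨_, a, rfl, b, rfl, h⟩; exact h
      · intro h; exact ⟨by rintro rfl; exact h.ne rfl, _, rfl, _, rfl, h⟩
    have h2 : (∑ i : S, ∑ j : S, ad (QB G (fun s : S => ({s.1} : Finset V))) i j) = e2 G S := by
      unfold e2 dg
      rw [← Finset.sum_coe_sort S (fun x => ∑ y ∈ S, ad G x y)]
      apply Finset.sum_congr rfl
      intro i _
      rw [← Finset.sum_coe_sort S (fun y => ad G i y)]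
      exact Finset.sum_congr rfl fun j _ => h1 i j
    rw [h2]
    unfold F2 at hF
    simpa using hF

open scoped Classical in
/-- extension of a family to a spanning family -/
lemma Mod.extend {ι : Type} [Nonempty ι] {G : SimpleGraph V} {T : Finset V}
    (hT : Conn G T) : ∀ (n : ℕ) (B : ι → Finset V), Mod G T B →
    (T.filter (fun x => ∀ i, x ∉ B i)).card = n →
    ∃ B' : ι → Finset V, (∀ i, B i ⊆ B' i) ∧ Mod G T B' ∧ ∀ x ∈ T, ∃ i, x ∈ B' i := by
  classical
  intro n
  induction n using Nat.strong_induction_on with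
  | _ n ih =>
    intro B hB hcard
    by_cases hall : ∀ x ∈ T, ∃ i, x ∈ B i
    · exact ⟨B, fun i => Finset.Subset.refl _, hB, hall⟩
    push Not at hall
    obtain ⟨x, hxT, hx⟩ := hall
    let U := T.filter (fun x => ∃ i, x ∈ B i)
    have hU : U ⊆ T := Finset.filter_subset _ _
    have hUn : U.Nonempty := by
      obtain ⟨i⟩ := ‹Nonempty ι›
      obtain ⟨y, hy⟩ := (hB.conn i).1
      exact ⟨y, Finset.mem_filter.2 ⟨hB.sub i hy, i, hy⟩⟩
    have hUne : U ≠ T := by
      intro h
      rw [← h] at hxT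
      obtain ⟨i, hi⟩ := (Finset.mem_filter.1 hxT).2
      exact hx i hi
    obtain ⟨u, hu, v, hv, hvU, huv⟩ := hT.2 U hU hUn hUne
    obtain ⟨i, hi⟩ := (Finset.mem_filter.1 hu).2
    have hvB : ∀ j, v ∉ B j := by
      intro j hj
      exact hvU (Finset.mem_filter.2 ⟨hv, j, hj⟩)
    let B1 : ι → Finset V := Function.update B i (insert v (B i))
    have hB1i : B1 i = insert v (B i) := by simp [B1]
    have hB1j : ∀ j, j ≠ i → B1 j = B j := by intro j hj; simp [B1, hj]
    have hsub : ∀ j, B j ⊆ B1 j := by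
      intro j
      by_cases hj : j = i
      · subst hj; rw [hB1i]; exact Finset.subset_insert _ _
      · rw [hB1j j hj]
    have hM : Mod G T B1 := by
      refine ⟨?_, ?_, ?_⟩
      · intro j
        by_cases hj : j = i
        · subst hj; rw [hB1i]
          exact Finset.insert_subset hv (hB.sub j)
        · rw [hB1j j hj]; exact hB.sub j
      · intro j
        by_cases hj : j = i
        · subst hj; rw [hB1i]
          exact (hB.conn j).insert hi huv
        · rw [hB1j j hj]; exact hB.conn j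
      · intro j l hjl
        by_cases hj : j = i
        · subst hj
          rw [hB1i, hB1j l hjl.symm, Finset.disjoint_insert_left]
          exact ⟨hvB l, hB.disj _ _ hjl⟩
        · by_cases hl : l = i
          · subst hl
            rw [hB1i, hB1j j hj, Finset.disjoint_insert_right]
            exact ⟨hvB j, hB.disj _ _ hjl⟩
          · rw [hB1j j hj, hB1j l hl]; exact hB.disj _ _ hjl
    have hlt : (T.filter (fun x => ∀ i, x ∉ B1 i)).card < n := by
      rw [← hcard]
      apply Finset.card_lt_card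
      refine ⟨?_, ?_⟩
      · intro y hy
        rw [Finset.mem_filter] at hy ⊢
        exact ⟨hy.1, fun j hj => hy.2 j (hsub j hj)⟩
      · intro hcon
        have : v ∈ T.filter (fun x => ∀ i, x ∉ B i) := Finset.mem_filter.2 ⟨hv, hvB⟩
        have := (Finset.mem_filter.1 (hcon this)).2 i
        apply this
        rw [hB1i]; exact Finset.mem_insert_self _ _
    obtain ⟨B', h1, h2, h3⟩ := ih _ hlt B1 hM rfl
    exact ⟨B', fun j => (hsub j).trans (h1 j), h2, h3⟩

lemma Mod.exists_spanning {ι : Type} [Nonempty ι] {G : SimpleGraph V} {T : Finset V}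
    (hT : Conn G T) {B : ι → Finset V} (hB : Mod G T B) :
    ∃ B' : ι → Finset V, (∀ i, B i ⊆ B' i) ∧ Mod G T B' ∧ ∀ x ∈ T, ∃ i, x ∈ B' i := by
  classical
  exact Mod.extend hT _ B hB rfl

/-! ### touching sets -/

open scoped Classical in
/-- indicator that two sets are joined by an edge -/
def tt (G : SimpleGraph V) (A B : Finset V) : ℤ := if ∃ u ∈ A, ∃ v ∈ B, G.Adj u v then 1 else 0

omit [DecidableEq V] in
lemma tt_nonneg (G : SimpleGraph V) (A B : Finset V) : 0 ≤ tt G A B := by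
  unfold tt; split_ifs <;> simp

omit [DecidableEq V] in
lemma tt_of {G : SimpleGraph V} {A B : Finset V} {u v : V} (hu : u ∈ A) (hv : v ∈ B)
    (h : G.Adj u v) : tt G A B = 1 := by
  unfold tt; rw [if_pos ⟨u, hu, v, hv, h⟩]

omit [DecidableEq V] in
lemma tt_comm (G : SimpleGraph V) (A B : Finset V) : tt G A B = tt G B A := by
  unfold tt
  classical
  refine if_congr ?_ rfl rfl
  constructor
  · rintro ⟨u, hu, v, hv, h⟩; exact ⟨v, hv, u, hu, h.symm⟩
  · rintro ⟨u, hu, v, hv, h⟩; exact ⟨v, hv, u, hu, h.symm⟩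

omit [DecidableEq V] in
lemma ad_QB {ι : Type} (G : SimpleGraph V) (B : ι → Finset V) {i j : ι} (h : i ≠ j) :
    ad (QB G B) i j = tt G (B i) (B j) := by
  by_cases hA : ∃ u ∈ B i, ∃ v ∈ B j, G.Adj u v
  · obtain ⟨u, hu, v, hv, huv⟩ := hA
    rw [tt_of hu hv huv]
    exact ad_of_adj ⟨h, u, hu, v, hv, huv⟩
  · have h1 : tt G (B i) (B j) = 0 := by unfold tt; rw [if_neg hA]
    rw [h1]
    exact ad_of_not fun h2 => hA h2.2

/-! ### adding one vertex as a new part -/

/-- add the singleton part `{z}` -/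
def addP {ι : Type} (B : ι → Finset V) (z : V) : Option ι → Finset V
  | none => {z}
  | some i => B i

omit [DecidableEq V] in
lemma Mod.addP {ι : Type} {G : SimpleGraph V} {S T : Finset V} {B : ι → Finset V} {z : V}
    (hB : Mod G S B) (hST : S ⊆ T) (hz : z ∉ S) (hzT : z ∈ T) : Mod G T (addP B z) := by
  refine ⟨?_, ?_, ?_⟩
  · rintro (_ | i)
    · simpa [E95.addP] using hzT
    · exact (hB.sub i).trans hST
  · rintro (_ | i)
    · exact Conn.singleton _ _
    · exact hB.conn i
  · rintro (_ | i) (_ | j) hij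
    · exact absurd rfl hij
    · simpa [E95.addP] using fun h => hz (hB.sub j h)
    · simpa [E95.addP] using fun h => hz (hB.sub i h)
    · exact hB.disj i j (fun h => hij (by rw [h]))

omit [DecidableEq V] in
lemma Fm_addP {ι : Type} [Fintype ι] (G : SimpleGraph V) (B : ι → Finset V) (z : V) :
    Fm G (addP B z) = Fm G B + 2 * (∑ i, tt G {z} (B i)) - 4 := by
  rw [Fm_eq, Fm_eq, Fintype.sum_option, Fintype.card_option]
  have h1 : ∀ i : ι, ad (QB G (addP B z)) none (some i) = tt G {z} (B i) := by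
    intro i; rw [ad_QB G _ (by simp)]; rfl
  have h2 : ∀ i : ι, ad (QB G (addP B z)) (some i) none = tt G {z} (B i) := by
    intro i; rw [ad_comm]; exact h1 i
  have h3 : ∀ i j : ι, ad (QB G (addP B z)) (some i) (some j) = ad (QB G B) i j := by
    intro i j
    by_cases hij : i = j
    · subst hij; rw [ad_self, ad_self]
    · rw [ad_QB G _ (by simpa using hij), ad_QB G _ hij]; rfl
  simp only [Fintype.sum_option, ad_self, h1, h2, h3, Finset.sum_add_distrib]
  push_cast; ring

/-! ### refinement -/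

/-- replace the part `B i0` by the parts `K` -/
def refP {ι κ : Type} (B : ι → Finset V) (i0 : ι) (K : κ → Finset V) :
    {i // i ≠ i0} ⊕ κ → Finset V
  | Sum.inl i => B i.1
  | Sum.inr k => K k

omit [DecidableEq V] in
lemma Mod.refP {ι κ : Type} {G : SimpleGraph V} {S : Finset V} {B : ι → Finset V} {i0 : ι}
    {K : κ → Finset V} (hB : Mod G S B) (hK : Mod G (B i0) K) : Mod G S (refP B i0 K) := by
  refine ⟨?_, ?_, ?_⟩
  · rintro (i | k)
    · exact hB.sub i.1
    · exact (hK.sub k).trans (hB.sub i0)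
  · rintro (i | k)
    · exact hB.conn i.1
    · exact hK.conn k
  · rintro (i | k) (j | l) hne
    · exact hB.disj i.1 j.1 (fun h => hne (by rw [Subtype.ext h]))
    · exact (hB.disj i.1 i0 i.2).mono_right (hK.sub l)
    · exact ((hB.disj j.1 i0 j.2).mono_right (hK.sub k)).symm
    · exact hK.disj k l (fun h => hne (by rw [h]))

omit [DecidableEq V] in
lemma Fm_refP {ι κ : Type} [Fintype ι] [DecidableEq ι] [Fintype κ] (G : SimpleGraph V)
    (B : ι → Finset V) (i0 : ι) (K : κ → Finset V) :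
    Fm G (refP B i0 K) = Fm G B + Fm G K +
      2 * ∑ i : {i // i ≠ i0}, ((∑ k, tt G (B i.1) (K k)) - tt G (B i.1) (B i0)) := by
  rw [Fm_eq, Fm_eq, Fm_eq, Fintype.sum_sum_type, Fintype.card_sum]
  have hc : (Fintype.card {i // i ≠ i0} : ℤ) = (Fintype.card ι : ℤ) - 1 := by
    have h1 : Fintype.card {i // i ≠ i0} = Fintype.card ι - 1 := by
      rw [Fintype.card_subtype_compl, Fintype.card_subtype_eq]
    have h2 : 0 < Fintype.card ι := Fintype.card_pos_iff.2 ⟨i0⟩
    omega
  have h1 : ∀ (i : {i // i ≠ i0}) (k : κ),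
      ad (QB G (refP B i0 K)) (Sum.inl i) (Sum.inr k) = tt G (B i.1) (K k) := by
    intro i k; rw [ad_QB G _ (by simp)]; rfl
  have h2 : ∀ (i : {i // i ≠ i0}) (k : κ),
      ad (QB G (refP B i0 K)) (Sum.inr k) (Sum.inl i) = tt G (B i.1) (K k) := by
    intro i k; rw [ad_comm]; exact h1 i k
  have h3 : ∀ (k l : κ), ad (QB G (refP B i0 K)) (Sum.inr k) (Sum.inr l) = ad (QB G K) k l := by
    intro k l
    by_cases hkl : k = l
    · subst hkl; rw [ad_self, ad_self]
    · rw [ad_QB G _ (by simpa using hkl), ad_QB G _ hkl]; rfl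
  have h4 : ∀ (i j : {i // i ≠ i0}),
      ad (QB G (refP B i0 K)) (Sum.inl i) (Sum.inl j) = ad (QB G B) i.1 j.1 := by
    intro i j
    by_cases hij : i = j
    · subst hij; rw [ad_self, ad_self]
    · rw [ad_QB G _ (by simpa using hij), ad_QB G _ (fun h => hij (Subtype.ext h))]; rfl
  have h5 : ∀ (i : {i // i ≠ i0}), ad (QB G B) i.1 i0 = tt G (B i.1) (B i0) := by
    intro i; rw [ad_QB G _ i.2]
  have h6 : ∀ (i : {i // i ≠ i0}), ad (QB G B) i0 i.1 = tt G (B i.1) (B i0) := by
    intro i; rw [ad_comm, h5]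
  rw [Fintype.sum_eq_add_sum_subtype_ne (fun i => ∑ j, ad (QB G B) i j) i0]
  simp only [Fintype.sum_sum_type, h1, h2, h3, h4]
  have h7 : ∑ j, ad (QB G B) i0 j = ∑ i : {i // i ≠ i0}, tt G (B i.1) (B i0) := by
    rw [Fintype.sum_eq_add_sum_subtype_ne (fun j => ad (QB G B) i0 j) i0, ad_self, zero_add]
    exact Finset.sum_congr rfl fun i _ => h6 i
  have h8 : ∀ i : {i // i ≠ i0}, ∑ j, ad (QB G B) i.1 j =
      tt G (B i.1) (B i0) + ∑ j : {i // i ≠ i0}, ad (QB G B) i.1 j.1 := by
    intro i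
    rw [Fintype.sum_eq_add_sum_subtype_ne (fun j => ad (QB G B) i.1 j) i0, h5]
  simp only [h7, h8, Finset.sum_add_distrib, Finset.sum_sub_distrib]
  rw [Finset.sum_comm (f := fun (k : κ) (i : {i // i ≠ i0}) => tt G (B i.1) (K k))]
  push_cast
  rw [hc]; ring

omit [DecidableEq V] in
/-- if `K` covers `A`, a set touching `A` touches some part of `K` -/
lemma tt_le_sum {κ : Type} [Fintype κ] {G : SimpleGraph V} {A C : Finset V}
    {K : κ → Finset V} (hK : ∀ x ∈ A, ∃ k, x ∈ K k) :
    tt G C A ≤ ∑ k, tt G C (K k) := by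
  by_cases h : ∃ u ∈ C, ∃ v ∈ A, G.Adj u v
  · obtain ⟨u, hu, v, hv, huv⟩ := h
    obtain ⟨k, hk⟩ := hK v hv
    rw [tt_of hu hv huv, ← tt_of hu hk huv]
    exact Finset.single_le_sum (f := fun k => tt G C (K k)) (fun _ _ => tt_nonneg _ _ _)
      (Finset.mem_univ k)
  · have : tt G C A = 0 := by unfold tt; rw [if_neg h]
    rw [this]
    exact Finset.sum_nonneg fun _ _ => tt_nonneg _ _ _

omit [DecidableEq V] in
lemma tt_le_one (G : SimpleGraph V) (A B : Finset V) : tt G A B ≤ 1 := by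
  unfold tt; split_ifs <;> simp

omit [DecidableEq V] in
/-- plain refinement inequality -/
lemma Fm_refP_ge {ι κ : Type} [Fintype ι] [DecidableEq ι] [Fintype κ] {G : SimpleGraph V}
    {B : ι → Finset V} {i0 : ι} {K : κ → Finset V} (hK : ∀ x ∈ B i0, ∃ k, x ∈ K k) :
    Fm G B + Fm G K ≤ Fm G (refP B i0 K) := by
  rw [Fm_refP]
  have : 0 ≤ ∑ i : {i // i ≠ i0}, ((∑ k, tt G (B i.1) (K k)) - tt G (B i.1) (B i0)) :=
    Finset.sum_nonneg fun i _ => by
      have := tt_le_sum (G := G) (C := B i.1) hK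
      linarith
  linarith

omit [DecidableEq V] in
/-- refinement inequality with extra adjacencies -/
lemma Fm_refP_extra {ι κ : Type} [Fintype ι] [DecidableEq ι] [Fintype κ] {G : SimpleGraph V}
    {B : ι → Finset V} {i0 : ι} {K : κ → Finset V} (hK : ∀ x ∈ B i0, ∃ k, x ∈ K k)
    {i1 : ι} (hi1 : i1 ≠ i0) {m : ℤ} (hm : m + 1 ≤ ∑ k, tt G (B i1) (K k)) :
    Fm G B + Fm G K + 2 * m ≤ Fm G (refP B i0 K) := by
  rw [Fm_refP]
  have h1 : m ≤ (∑ k, tt G (B i1) (K k)) - tt G (B i1) (B i0) := by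
    have := tt_le_one G (B i1) (B i0)
    linarith
  let f : {i // i ≠ i0} → ℤ := fun i => (∑ k, tt G (B i.1) (K k)) - tt G (B i.1) (B i0)
  have hf : ∀ i ∈ (Finset.univ : Finset {i // i ≠ i0}), 0 ≤ f i := by
    intro i _
    have := tt_le_sum (G := G) (C := B i.1) hK
    exact sub_nonneg.2 this
  have h2 : f ⟨i1, hi1⟩ ≤ ∑ i : {i // i ≠ i0}, f i :=
    Finset.single_le_sum hf (Finset.mem_univ _)
  have h3 : m ≤ f ⟨i1, hi1⟩ := h1
  have h4 : m ≤ ∑ i : {i // i ≠ i0}, f i := h3.trans h2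
  have h5 : ∑ i : {i // i ≠ i0}, f i =
    ∑ i : {i // i ≠ i0}, ((∑ k, tt G (B i.1) (K k)) - tt G (B i.1) (B i0)) := rfl
  rw [← h5]
  linarith

lemma card_refP {ι κ : Type} [Fintype ι] [DecidableEq ι] [Fintype κ] (i0 : ι) :
    Fintype.card ({i // i ≠ i0} ⊕ κ) + 1 = Fintype.card ι + Fintype.card κ := by
  rw [Fintype.card_sum]
  have h1 : Fintype.card {i // i ≠ i0} = Fintype.card ι - 1 := by
    rw [Fintype.card_subtype_compl, Fintype.card_subtype_eq]
  have h2 : 0 < Fintype.card ι := Fintype.card_pos_iff.2 ⟨i0⟩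
  omega

omit [DecidableEq V] in
/-- two distinct indices that touch -/
lemma two_le_sum_tt {κ : Type} [Fintype κ] {G : SimpleGraph V} {C : Finset V}
    {K : κ → Finset V} {i j : κ} (hij : i ≠ j) {u p q : V} (hp : p ∈ K i) (hq : q ∈ K j)
    (hu : u ∈ C) (hup : G.Adj u p) (huq : G.Adj u q) : 2 ≤ ∑ k, tt G C (K k) := by
  classical
  have h1 : tt G C (K i) = 1 := tt_of hu hp hup
  have h2 : tt G C (K j) = 1 := tt_of hu hq huq
  have h3 : ∑ k ∈ ({i, j} : Finset κ), tt G C (K k) ≤ ∑ k, tt G C (K k) :=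
    Finset.sum_le_sum_of_subset_of_nonneg (Finset.subset_univ _)
      (fun _ _ _ => tt_nonneg _ _ _)
  rw [Finset.sum_pair hij, h1, h2] at h3
  linarith

/-! ### models of the complete graph on four vertices -/

/-- `K` is a model of the complete graph on 4 vertices inside `X` -/
def K4M (G : SimpleGraph V) (X : Finset V) (K : Fin 4 → Finset V) : Prop :=
  Mod G X K ∧ ∀ i j, i ≠ j → (QB G K).Adj i j

/-- `X` has a `K4` model separating `p` from `q` -/
def Sep (G : SimpleGraph V) (X : Finset V) (p q : V) : Prop :=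
  ∃ K : Fin 4 → Finset V, K4M G X K ∧ ∃ i j, i ≠ j ∧ p ∈ K i ∧ q ∈ K j

/-- the sets grown from a `K4` -/
structure RR (G : SimpleGraph V) (X : Finset V) : Prop where
  conn : Conn G X
  nn : 0 ≤ F2 G X
  card : 4 ≤ X.card
  sep : ∀ p ∈ X, ∀ q ∈ X, p ≠ q → Sep G X p q

omit [DecidableEq V] in
lemma K4M.Fm {G : SimpleGraph V} {X : Finset V} {K : Fin 4 → Finset V} (h : K4M G X K) :
    Fm G K = 0 := by
  rw [Fm_eq]
  have : ∀ i j, ad (QB G K) i j = if i = j then 0 else 1 := by
    intro i j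
    by_cases hij : i = j
    · subst hij; simp [ad_self]
    · rw [ad_of_adj (h.2 i j hij), if_neg hij]
  simp only [this]
  simp [Fin.sum_univ_four]

omit [DecidableEq V] in
lemma K4M.mono {G : SimpleGraph V} {X Y : Finset V} {K : Fin 4 → Finset V} (h : K4M G X K)
    (hXY : X ⊆ Y) : K4M G Y K :=
  ⟨⟨fun i => (h.1.sub i).trans hXY, h.1.conn, h.1.disj⟩, h.2⟩

omit [DecidableEq V] in
lemma Sep.symm {G : SimpleGraph V} {X : Finset V} {p q : V} (h : Sep G X p q) :
    Sep G X q p := by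
  obtain ⟨K, hK, i, j, hij, hp, hq⟩ := h
  exact ⟨K, hK, j, i, hij.symm, hq, hp⟩

omit [DecidableEq V] in
lemma exists_nb_ne {G : SimpleGraph V} {X : Finset V} {y : V} (h : 2 ≤ dg G X y) (p : V) :
    ∃ u ∈ X, u ≠ p ∧ G.Adj y u := by
  classical
  rw [dg_eq_card] at h
  have h1 : 1 < (X.filter (fun u => G.Adj y u)).card := by
    have : (2 : ℤ) ≤ (((X.filter (fun u => G.Adj y u)).card : ℕ) : ℤ) := h
    omega
  obtain ⟨a, ha, hap⟩ := Finset.exists_mem_ne h1 p
  rw [Finset.mem_filter] at ha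
  exact ⟨a, ha.1, hap, ha.2⟩

lemma Sep.new {G : SimpleGraph V} {X : Finset V} (hX : RR G X) {y p : V} (hy : y ∉ X)
    (hp : p ∈ X) (h : 2 ≤ dg G X y) : Sep G (insert y X) p y := by
  classical
  obtain ⟨u, huX, hup, hyu⟩ := exists_nb_ne h p
  obtain ⟨K, hK, i, j, hij, hpi, huj⟩ := hX.sep p hp u huX hup.symm
  let K1 : Fin 4 → Finset V := Function.update K j (insert y (K j))
  have hK1j : K1 j = insert y (K j) := by simp [K1]
  have hK1l : ∀ l, l ≠ j → K1 l = K l := by intro l hl; simp [K1, hl]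
  have hyK : ∀ l, y ∉ K l := fun l hl => hy (hK.1.sub l hl)
  have hsub : ∀ l, K l ⊆ K1 l := by
    intro l
    by_cases hl : l = j
    · subst hl; rw [hK1j]; exact Finset.subset_insert _ _
    · rw [hK1l l hl]
  refine ⟨K1, ⟨⟨?_, ?_, ?_⟩, ?_⟩, i, j, hij, ?_, ?_⟩
  · intro l
    by_cases hl : l = j
    · subst hl; rw [hK1j]; exact Finset.insert_subset_insert _ (hK.1.sub l)
    · rw [hK1l l hl]; exact (hK.1.sub l).trans (Finset.subset_insert _ _)
  · intro l
    by_cases hl : l = j
    · subst hl; rw [hK1j]; exact (hK.1.conn l).insert huj hyu.symm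
    · rw [hK1l l hl]; exact hK.1.conn l
  · intro l m hlm
    by_cases hl : l = j
    · subst hl
      rw [hK1j, hK1l m hlm.symm, Finset.disjoint_insert_left]
      exact ⟨hyK m, hK.1.disj _ _ hlm⟩
    · by_cases hm : m = j
      · subst hm
        rw [hK1j, hK1l l hl, Finset.disjoint_insert_right]
        exact ⟨hyK l, hK.1.disj _ _ hlm⟩
      · rw [hK1l l hl, hK1l m hm]; exact hK.1.disj _ _ hlm
  · intro l m hlm
    exact QB_mono_fam G hsub (hK.2 l m hlm)
  · rw [hK1l i hij]; exact hpi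
  · rw [hK1j]; exact Finset.mem_insert_self _ _

lemma RR.insert {G : SimpleGraph V} {X : Finset V} (hX : RR G X) {y : V} (hy : y ∉ X)
    (h : 2 ≤ dg G X y) : RR G (insert y X) := by
  obtain ⟨p0, hp0⟩ := hX.conn.1
  obtain ⟨u, huX, _, hyu⟩ := exists_nb_ne h p0
  refine ⟨hX.conn.insert huX hyu.symm, ?_, ?_, ?_⟩
  · rw [F2_insert G hy]; have := hX.nn; linarith
  · rw [Finset.card_insert_of_notMem hy]; have := hX.card; omega
  · intro p hp q hq hpq
    rcases Finset.mem_insert.1 hp with hp1 | hp1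
    · rcases Finset.mem_insert.1 hq with hq1 | hq1
      · exact absurd (hp1.trans hq1.symm) hpq
      · subst hp1; exact (Sep.new hX hy hq1 h).symm
    · rcases Finset.mem_insert.1 hq with hq1 | hq1
      · subst hq1; exact Sep.new hX hy hp1 h
      · obtain ⟨K, hK, hr⟩ := hX.sep p hp1 q hq1 hpq
        exact ⟨K, hK.mono (Finset.subset_insert _ _), hr⟩

end

end E95
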