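import Pool.Agent.E95.Model

/-!
Helper file for MP_e95e88_co: structure of a minimal counterexample.
-/

namespace E95

open Finset

noncomputable section

variable {V : Type} [DecidableEq V]

/-! ### deleting an edge -/

omit [DecidableEq V] in
lemma exists_adj_of_e2 {G : SimpleGraph V} {S : Finset V} (h : e2 G S ≠ 0) :
    ∃ x ∈ S, ∃ y ∈ S, G.Adj x y := by
  by_contra hcon
  push Not at hcon
  apply h
  unfold e2 dg
  exact Finset.sum_eq_zero fun x hx => Finset.sum_eq_zero fun y hy => ad_of_not (hcon x hx y hy)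

lemma e2_delete {G : SimpleGraph V} {S : Finset V} {x y : V} (hx : x ∈ S) (hy : y ∈ S)
    (h : G.Adj x y) : e2 (G.deleteEdges {s(x, y)}) S = e2 G S - 2 := by
  have hne := h.ne
  have key : ∀ u v : V, ad G u v = ad (G.deleteEdges {s(x, y)}) u v +
      ((if u = x then (if v = y then (1 : ℤ) else 0) else 0) +
        (if u = y then (if v = x then (1 : ℤ) else 0) else 0)) := by
    intro u v
    by_cases h1 : s(u, v) = s(x, y)
    · have h2 : ¬ (G.deleteEdges {s(x, y)}).Adj u v := by
        simp [SimpleGraph.deleteEdges_adj, h1]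
      rw [ad_of_not h2]
      rcases Sym2.eq_iff.1 h1 with ⟨rfl, rfl⟩ | ⟨rfl, rfl⟩
      · rw [ad_of_adj h]; simp [hne]
      · rw [ad_of_adj h.symm]; simp [hne.symm]
    · have h2 : (G.deleteEdges {s(x, y)}).Adj u v ↔ G.Adj u v := by
        simp only [SimpleGraph.deleteEdges_adj, Set.mem_singleton_iff]
        exact ⟨fun h => h.1, fun h => ⟨h, h1⟩⟩
      have h3 : ad (G.deleteEdges {s(x, y)}) u v = ad G u v := ad_congr h2
      have h4 : ¬ (u = x ∧ v = y) := by rintro ⟨rfl, rfl⟩; exact h1 rfl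
      have h5 : ¬ (u = y ∧ v = x) := by rintro ⟨rfl, rfl⟩; exact h1 (Sym2.eq_swap)
      rw [h3, ← ite_and, ← ite_and, if_neg h4, if_neg h5]
      ring
  have h1 : e2 G S = e2 (G.deleteEdges {s(x, y)}) S + 2 := by
    unfold e2 dg
    simp only [key, Finset.sum_add_distrib]
    have a1 : ∑ u ∈ S, ∑ v ∈ S, (if u = x then (if v = y then (1 : ℤ) else 0) else 0) = 1 := by
      rw [Finset.sum_eq_single x]
      · simp [hy]
      · intro b _ hb; simp [hb]
      · intro h; exact absurd hx h
    have a2 : ∑ u ∈ S, ∑ v ∈ S, (if u = y then (if v = x then (1 : ℤ) else 0) else 0) = 1 := by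
      rw [Finset.sum_eq_single y]
      · simp [hx]
      · intro b _ hb; simp [hb]
      · intro h; exact absurd hy h
    rw [a1, a2]; ring
  linarith

lemma exists_exact {S : Finset V} (hn : S.Nonempty) {m : ℤ} (hm0 : 0 ≤ m) (hme : Even m) :
    ∀ (n : ℕ) (G : SimpleGraph V), F2 G S = m + n → ∃ G' ≤ G, F2 G' S = m := by
  intro n
  induction n using Nat.strong_induction_on with
  | _ n ih =>
    intro G hG
    by_cases h0 : n = 0
    · exact ⟨G, le_refl _, by rw [hG, h0]; simp⟩
    have hev := F2_even G S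
    rw [hG] at hev
    have hn2 : Even (n : ℤ) := by
      obtain ⟨a, ha⟩ := hev
      obtain ⟨b, hb⟩ := hme
      exact ⟨a - b, by linarith⟩
    have hn2' : 2 ≤ n := by
      obtain ⟨c, hc⟩ := hn2
      omega
    have hcard : 1 ≤ S.card := Finset.card_pos.2 hn
    have he : e2 G S ≠ 0 := by
      unfold F2 at hG
      intro h; rw [h] at hG
      have : (1 : ℤ) ≤ S.card := by exact_mod_cast hcard
      have : (2 : ℤ) ≤ n := by exact_mod_cast hn2'
      linarith
    obtain ⟨x, hx, y, hy, hxy⟩ := exists_adj_of_e2 he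
    have hd := e2_delete hx hy hxy
    obtain ⟨G', h1, h2⟩ := ih (n - 2) (by omega) (G.deleteEdges {s(x, y)}) (by
      unfold F2 at hG ⊢
      rw [hd]
      have : ((n - 2 : ℕ) : ℤ) = n - 2 := by
        rw [Nat.cast_sub hn2']; norm_num
      rw [this]; linarith)
    exact ⟨G', h1.trans (SimpleGraph.deleteEdges_le _), h2⟩

/-! ### the minimal counterexample -/

/-- hypotheses on a minimal counterexample -/
structure Crit (G : SimpleGraph V) (S : Finset V) (k : ℕ) : Prop where
  k1 : 1 ≤ k
  k3 : k ≤ 3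
  F : F2 G S = 2 * (k : ℤ)
  big : 5 * k + 2 ≤ S.card
  bad : ¬ Good G S k
  ih : ∀ (G' : SimpleGraph V) (S' : Finset V), S'.Nonempty → S'.card < S.card →
    2 * (k : ℤ) ≤ F2 G' S' → Good G' S' k
  lower : ∀ j : ℕ, 1 ≤ j → j < k → ∀ (G' : SimpleGraph V) (S' : Finset V), S'.Nonempty →
    2 * (j : ℤ) ≤ F2 G' S' → Good G' S' j

namespace Crit

variable {G : SimpleGraph V} {S : Finset V} {k : ℕ}

lemma sub_le (h : Crit G S k) {T : Finset V} (hT : T ⊆ S) (hne : T ≠ S) (hn : T.Nonempty) :
    F2 G T ≤ 2 * (k : ℤ) - 2 := by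
  by_contra hcon
  push Not at hcon
  have hev := F2_even G T
  obtain ⟨a, ha⟩ := hev
  have h2 : 2 * (k : ℤ) ≤ F2 G T := by omega
  have hlt : T.card < S.card := Finset.card_lt_card ⟨hT, fun h' => hne (hT.antisymm h')⟩
  exact h.bad ((h.ih G T hn hlt h2).mono_set hT)

lemma contract_le (h : Crit G S k) {Y : Finset V} {y0 : V} (hY : Y ⊆ S) (hy0 : y0 ∈ Y)
    (hc : Conn G Y) (h2 : 2 ≤ Y.card) :
    F2 (Con G Y y0) (insert y0 (S \ Y)) ≤ 2 * (k : ℤ) - 2 := by
  by_contra hcon
  push Not at hcon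
  have hev := F2_even (Con G Y y0) (insert y0 (S \ Y))
  obtain ⟨a, ha⟩ := hev
  have h3 : 2 * (k : ℤ) ≤ F2 (Con G Y y0) (insert y0 (S \ Y)) := by omega
  have hcard := card_contract hY hy0
  exact h.bad (Good.of_contract hY hy0 hc
    (h.ih _ _ ⟨y0, Finset.mem_insert_self _ _⟩ (by omega) h3))

omit [DecidableEq V] in
lemma nonempty (h : Crit G S k) : S.Nonempty := by
  apply Finset.card_pos.1
  have := h.big; omega

lemma conn (h : Crit G S k) : Conn G S := by
  refine ⟨h.nonempty, fun T hT hn hne => ?_⟩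
  by_contra hcon
  push Not at hcon
  have hd : Disjoint T (S \ T) := Finset.disjoint_sdiff
  have hun : T ∪ (S \ T) = S := Finset.union_sdiff_of_subset hT
  have h1 := F2_union G hd
  rw [hun] at h1
  have h0 : ∑ x ∈ S \ T, dg G T x = 0 := by
    apply Finset.sum_eq_zero
    intro x hx
    unfold dg
    apply Finset.sum_eq_zero
    intro y hy
    apply ad_of_not
    intro hxy
    exact hcon y hy x (Finset.mem_sdiff.1 hx).1 (Finset.mem_sdiff.1 hx).2 hxy.symm
  have h2 := h.sub_le hT hne hn
  have hn' : (S \ T).Nonempty := by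
    rw [Finset.sdiff_nonempty]
    intro h'; exact hne (hT.antisymm h')
  have hne' : S \ T ≠ S := by
    intro h'
    obtain ⟨x, hx⟩ := hn
    have : x ∈ S \ T := by rw [h']; exact hT hx
    exact (Finset.mem_sdiff.1 this).2 hx
  have h3 := h.sub_le (Finset.sdiff_subset) hne' hn'
  have hF := h.F
  have hk := h.k3
  have hk' : (k : ℤ) ≤ 3 := by exact_mod_cast hk
  rw [h0] at h1
  linarith

lemma deg (h : Crit G S k) {v : V} (hv : v ∈ S) : 3 ≤ dg G S v := by
  have h1 := F2_erase G hv
  have hbig := h.big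
  have hn : (S.erase v).Nonempty := by
    apply Finset.card_pos.1
    rw [Finset.card_erase_of_mem hv]
    omega
  have hne : S.erase v ≠ S := by
    intro h'
    have := Finset.notMem_erase v S
    rw [h'] at this; exact this hv
  have h2 := h.sub_le (Finset.erase_subset _ _) hne hn
  have hF := h.F
  linarith

open scoped Classical in
lemma tri (h : Crit G S k) {u v : V} (hu : u ∈ S) (hv : v ∈ S) (huv : G.Adj u v) :
    2 ≤ (S.filter (fun w => G.Adj u w ∧ G.Adj v w)).card := by
  have hne := huv.ne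
  have hY : ({u, v} : Finset V) ⊆ S := by
    intro x hx
    rcases Finset.mem_insert.1 hx with rfl | hx
    · exact hu
    · rw [Finset.mem_singleton.1 hx]; exact hv
  have hc : Conn G ({u, v} : Finset V) := by
    have := (Conn.singleton G v).insert (Finset.mem_singleton_self v) huv.symm
    exact this
  have hcard : ({u, v} : Finset V).card = 2 := Finset.card_pair hne
  have h1 := h.contract_le (y0 := u) hY (by simp) hc (by omega)
  rw [F2_contract G hY (by simp : u ∈ ({u, v} : Finset V)), h.F] at h1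
  have h2 : F2 G ({u, v} : Finset V) = -2 := by
    rw [show ({u, v} : Finset V) = insert u {v} from rfl, F2_insert G (by simpa using hne),
      F2_singleton]
    unfold dg
    rw [Finset.sum_singleton, ad_of_adj huv]; norm_num
  rw [h2] at h1
  have h3 : ∑ x ∈ S \ ({u, v} : Finset V), (dg G {u, v} x - tch G {u, v} x) ≤
      ((S.filter (fun w => G.Adj u w ∧ G.Adj v w)).card : ℤ) := by
    rw [Finset.card_filter]
    push_cast
    have h4 : ∑ x ∈ S \ ({u, v} : Finset V), (dg G {u, v} x - tch G {u, v} x) ≤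
        ∑ x ∈ S \ ({u, v} : Finset V), (if G.Adj u x ∧ G.Adj v x then (1 : ℤ) else 0) := by
      apply Finset.sum_le_sum
      intro x _
      have h5 : dg G {u, v} x = ad G x u + ad G x v := by
        unfold dg; rw [Finset.sum_pair hne]
      rw [h5]
      by_cases hxu : G.Adj x u
      · have ht : tch G {u, v} x = 1 := by
          unfold tch; rw [if_pos ⟨u, by simp, hxu⟩]
        rw [ht, ad_of_adj hxu]
        by_cases hxv : G.Adj x v
        · rw [ad_of_adj hxv, if_pos ⟨hxu.symm, hxv.symm⟩]; norm_num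
        · rw [ad_of_not hxv, if_neg (fun h => hxv h.2.symm)]; norm_num
      · by_cases hxv : G.Adj x v
        · have ht : tch G {u, v} x = 1 := by
            unfold tch; rw [if_pos ⟨v, by simp, hxv⟩]
          rw [ht, ad_of_not hxu, ad_of_adj hxv, if_neg (fun h => hxu h.1.symm)]; norm_num
        · have ht : tch G {u, v} x = 0 := by
            unfold tch; rw [if_neg]
            rintro ⟨w, hw, hxw⟩
            rcases Finset.mem_insert.1 hw with rfl | hw
            · exact hxu hxw
            · rw [Finset.mem_singleton.1 hw] at hxw; exact hxv hxw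
          rw [ht, ad_of_not hxu, ad_of_not hxv, if_neg (fun h => hxu h.1.symm)]; norm_num
    refine h4.trans ?_
    apply Finset.sum_le_sum_of_subset_of_nonneg Finset.sdiff_subset
    intro x _ _
    split_ifs <;> simp
  have h6 : (2 : ℤ) ≤ ((S.filter (fun w => G.Adj u w ∧ G.Adj v w)).card : ℤ) := by
    by_contra hlt
    push Not at hlt
    omega
  exact_mod_cast h6

end Crit

/-- a contraction of a connected set is connected -/
lemma conn_contract {G : SimpleGraph V} {S Y : Finset V} {y0 : V} (hS : Conn G S) (hY : Y ⊆ S)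
    (hy0 : y0 ∈ Y) : Conn (Con G Y y0) (insert y0 (S \ Y)) := by
  refine ⟨⟨y0, Finset.mem_insert_self _ _⟩, fun T hT hn hne => ?_⟩
  -- preimage of T
  by_cases hyT : y0 ∈ T
  · have h1 : T ∪ Y ⊆ S := by
      intro x hx
      rcases Finset.mem_union.1 hx with hx | hx
      · rcases Finset.mem_insert.1 (hT hx) with rfl | hx'
        · exact hY hy0
        · exact (Finset.mem_sdiff.1 hx').1
      · exact hY hx
    have h2 : T ∪ Y ≠ S := by
      intro hE
      apply hne
      apply hT.antisymm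
      intro x hx
      rcases Finset.mem_insert.1 hx with rfl | hx'
      · exact hyT
      · have hxS : x ∈ T ∪ Y := by rw [hE]; exact (Finset.mem_sdiff.1 hx').1
        rcases Finset.mem_union.1 hxS with h | h
        · exact h
        · exact absurd h (Finset.mem_sdiff.1 hx').2
    obtain ⟨u, hu, v, hv, hvT, huv⟩ := hS.2 (T ∪ Y) h1
      ⟨y0, Finset.mem_union_left _ hyT⟩ h2
    have hvT' : v ∉ T := fun h => hvT (Finset.mem_union_left _ h)
    have hvY : v ∉ Y := fun h => hvT (Finset.mem_union_right _ h)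
    have hvS' : v ∈ insert y0 (S \ Y) :=
      Finset.mem_insert_of_mem (Finset.mem_sdiff.2 ⟨hv, hvY⟩)
    by_cases huY : u ∈ Y
    · exact ⟨y0, hyT, v, hvS', hvT', (Con_adj_in hy0 hvY).2 ⟨u, huY, huv.symm⟩⟩
    · rcases Finset.mem_union.1 hu with hu | hu
      · exact ⟨u, hu, v, hvS', hvT', (Con_adj_out hy0 huY hvY).2 huv⟩
      · exact absurd hu huY
  · have hTY : ∀ x ∈ T, x ∈ S ∧ x ∉ Y := by
      intro x hx
      rcases Finset.mem_insert.1 (hT hx) with rfl | hx'
      · exact absurd hx hyT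
      · exact Finset.mem_sdiff.1 hx'
    have h2 : T ≠ S := by
      intro hE
      have := hTY y0 (by rw [hE]; exact hY hy0)
      exact this.2 hy0
    obtain ⟨u, hu, v, hv, hvT, huv⟩ := hS.2 T (fun x hx => (hTY x hx).1) hn h2
    by_cases hvY : v ∈ Y
    · exact ⟨u, hu, y0, Finset.mem_insert_self _ _, hyT,
        ((Con_adj_in hy0 (hTY u hu).2).2 ⟨v, hvY, huv⟩).symm⟩
    · exact ⟨u, hu, v, Finset.mem_insert_of_mem (Finset.mem_sdiff.2 ⟨hv, hvY⟩), hvT,
        (Con_adj_out hy0 (hTY u hu).2 hvY).2 huv⟩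

namespace Crit

variable {G : SimpleGraph V} {S : Finset V} {k : ℕ}

/-- the growth property -/
lemma grow1 (h : Crit G S k) {Y : Finset V} (hY : Y ⊆ S) (hne : Y ≠ S) (hc : Conn G Y)
    (h2 : 2 ≤ Y.card) : ∃ y ∈ S, y ∉ Y ∧ 2 ≤ dg G Y y := by
  classical
  by_contra hcon
  push Not at hcon
  obtain ⟨y0, hy0⟩ := hc.1
  have hloss : ∑ x ∈ S \ Y, (dg G Y x - tch G Y x) = 0 := by
    apply Finset.sum_eq_zero
    intro x hx
    have h1 := hcon x (Finset.mem_sdiff.1 hx).1 (Finset.mem_sdiff.1 hx).2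
    have h3 := tch_le G Y x
    by_cases hex : ∃ u ∈ Y, G.Adj x u
    · have : tch G Y x = 1 := by unfold tch; rw [if_pos hex]
      rw [this] at h3 ⊢
      omega
    · have h4 : dg G Y x = 0 := by
        unfold dg
        push Not at hex
        exact Finset.sum_eq_zero fun u hu => ad_of_not (hex u hu)
      have h5 : tch G Y x = 0 := by unfold tch; rw [if_neg hex]
      rw [h4, h5]; norm_num
  have hcF := F2_contract G hY hy0
  rw [hloss, h.F] at hcF
  have hcle := h.contract_le hY hy0 hc h2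
  have hsub := h.sub_le hY hne hc.1
  obtain ⟨a, ha⟩ := F2_even G Y
  obtain ⟨j, hj⟩ : ∃ j : ℕ, a = j := ⟨a.toNat, by omega⟩
  have hj1 : 1 ≤ j := by omega
  have hjk : j < k := by omega
  have hFY : F2 G Y = 2 * (j : ℤ) := by omega
  have hg1 : Good G Y j := h.lower j hj1 hjk G Y hc.1 (by rw [hFY])
  have hg2 : Good (Con G Y y0) (insert y0 (S \ Y)) (k - j) := by
    apply h.lower (k - j) (by omega) (by omega) _ _ ⟨y0, Finset.mem_insert_self _ _⟩
    rw [hcF, hFY]
    push_cast [Nat.cast_sub hjk.le]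
    linarith
  obtain ⟨ι, i1, i2, B, hBc, hBm, hBF⟩ := hg2
  obtain ⟨κ, k1, k2, K, hKc, hKm, hKF⟩ := hg1
  obtain ⟨B', hBB', hB'm, hB's⟩ := Mod.exists_spanning (conn_contract h.conn hY hy0) hBm
  obtain ⟨i0, hi0⟩ := hB's y0 (Finset.mem_insert_self _ _)
  have hkey := Mod.comp (G := G) (S := S) (S' := insert y0 (S \ Y)) (C := cf Y y0) (B := B')
    (by
      intro w hw
      rcases Finset.mem_insert.1 hw with rfl | hw
      · rw [cf_self]; exact hc
      · rw [cf_out hy0 (Finset.mem_sdiff.1 hw).2]; exact Conn.singleton _ _)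
    (by
      intro w hw
      rcases Finset.mem_insert.1 hw with rfl | hw
      · rw [cf_self]; exact hY
      · rw [cf_out hy0 (Finset.mem_sdiff.1 hw).2]
        simpa using (Finset.mem_sdiff.1 hw).1)
    (by
      intro w hw w' hw' hne
      rcases Finset.mem_insert.1 hw with h1 | hw
      · rcases Finset.mem_insert.1 hw' with h2 | hw'
        · exact absurd (h1.trans h2.symm) hne
        · rw [h1, cf_self, cf_out hy0 (Finset.mem_sdiff.1 hw').2]
          simpa using (Finset.mem_sdiff.1 hw').2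
      · rcases Finset.mem_insert.1 hw' with h2 | hw'
        · rw [h2, cf_self, cf_out hy0 (Finset.mem_sdiff.1 hw).2]
          simpa using (Finset.mem_sdiff.1 hw).2
        · rw [cf_out hy0 (Finset.mem_sdiff.1 hw).2, cf_out hy0 (Finset.mem_sdiff.1 hw').2]
          simpa using hne)
    hB'm
  obtain ⟨hM, hle⟩ := hkey
  set B'' : ι → Finset V := fun i => (B' i).biUnion (cf Y y0) with hB''
  have hYsub : Y ⊆ B'' i0 := by
    intro x hx
    rw [hB'']
    exact Finset.mem_biUnion.2 ⟨y0, hi0, by rw [cf_self]; exact hx⟩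
  have hKm' : Mod G (B'' i0) K := ⟨fun i => (hKm.sub i).trans hYsub, hKm.conn, hKm.disj⟩
  obtain ⟨K', hKK', hK'm, hK's⟩ := Mod.exists_spanning (hM.conn i0) hKm'
  apply h.bad
  refine ⟨{i // i ≠ i0} ⊕ κ, inferInstance, inferInstance, refP B'' i0 K', ?_,
    hM.refP hK'm, ?_⟩
  · have := card_refP (κ := κ) i0
    omega
  · have h3 := Fm_refP_ge (G := G) (B := B'') (i0 := i0) (K := K') hK's
    have h4 : Fm G K ≤ Fm G K' := F2_mono (QB_mono_fam G hKK') _
    have h5 : Fm (Con G Y y0) B ≤ Fm (Con G Y y0) B' := F2_mono (QB_mono_fam _ hBB') _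
    have h6 : Fm (Con G Y y0) B' ≤ Fm G B'' := F2_mono hle _
    have h7 : 2 * (((k - j : ℕ)) : ℤ) = 2 * (k : ℤ) - 2 * j := by
      push_cast [Nat.cast_sub hjk.le]; ring
    linarith

end Crit

end

end E95
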